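import Pool.Agent.T6.H45.Hol.Seq

/-!
P-recursive sequences are given by nested linear recurrences.
-/

set_option autoImplicit false
set_option maxHeartbeats 400000

namespace Pool.Agent.T6.H45.Hol

open Filter

variable {L : Type} [Field L]

/-- P-recursive (holonomic) sequences: `∑ᵢ pᵢ(n) a(n + i) = 0` for all `n`, with polynomials
`p₀, ..., p_r` which are not all zero -/
def PRec (L : Type) [Field L] (a : ℕ → L) : Prop :=
  ∃ (r : ℕ) (p : ℕ → Polynomial L), (∃ i ≤ r, p i ≠ 0) ∧
    ∀ n : ℕ, ∑ i ∈ Finset.range (r + 1), (p i).eval (n : L) * a (n + i) = 0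

theorem nested_sum {ι : Type} (s : Finset ι) (f : ι → ℕ → L) (h : ∀ i ∈ s, Nested L (f i)) :
    Nested L (fun n => ∑ i ∈ s, f i n) := by
  classical
  induction s using Finset.induction_on with
  | empty =>
    have h1 := Nested.const (L := L) 0
    exact h1.congr (Eventually.of_forall fun n => Finset.sum_empty.symm)
  | insert a s ha ih =>
    have h1 := (h a (Finset.mem_insert_self a s)).add
      (ih fun i hi => h i (Finset.mem_insert_of_mem hi))
    exact h1.congr (Eventually.of_forall fun n => by
      rw [Finset.sum_insert ha])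

theorem nested_id : Nested L (fun n => (n : L)) := by
  have h1 := Nested.solve (L := L) (r := 2) (A := fun _ => !![1, 1; 0, 1])
    (y := fun n => ![(n : L), 1]) (fun i j => Nested.const _)
    (Eventually.of_forall fun n => by
      rw [Matrix.det_fin_two_of]
      norm_num)
    (Eventually.of_forall fun n => by
      funext i
      fin_cases i
      · simp [Matrix.mulVec, dotProduct, Fin.sum_univ_two]
      · simp [Matrix.mulVec, dotProduct, Fin.sum_univ_two]) 0
  exact h1.congr (Eventually.of_forall fun n => rfl)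

theorem nested_poly (p : Polynomial L) : Nested L (fun n => p.eval (n : L)) := by
  induction p using Polynomial.induction_on' with
  | add p q hp hq =>
    exact (hp.add hq).congr (Eventually.of_forall fun n => Polynomial.eval_add.symm)
  | monomial k c =>
    have h1 : ∀ k, Nested L (fun n => (n : L) ^ k) := by
      intro k
      induction k with
      | zero => exact (Nested.const 1).congr (Eventually.of_forall fun n => (pow_zero _).symm)
      | succ k ih =>
        exact (ih.mul nested_id).congr (Eventually.of_forall fun n => (pow_succ _ _).symm)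
    exact ((Nested.const c).mul (h1 k)).congr (Eventually.of_forall fun n =>
      (Polynomial.eval_monomial).symm)

theorem ev_ne [CharZero L] {p : Polynomial L} (hp : p ≠ 0) :
    ∀ᶠ n : ℕ in atTop, p.eval (n : L) ≠ 0 := by
  classical
  have h1 : {n : ℕ | p.eval (n : L) = 0}.Finite := by
    refine Set.Finite.of_finite_image (f := fun n : ℕ => (n : L)) ?_ Nat.cast_injective.injOn
    refine (p.roots.toFinset.finite_toSet).subset ?_
    rintro _ ⟨n, hn, rfl⟩
    simpa [hp] using hn
  have h2 := h1.eventually_cofinite_notMem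
  rw [Nat.cofinite_eq_atTop] at h2
  exact h2

/-- scalar recurrences with both end coefficients nonzero -/
theorem nested_scalar {r : ℕ} {a : ℕ → L} {q : ℕ → ℕ → L} (hq : ∀ j, Nested L (q j))
    (h0 : ∀ᶠ n in atTop, q 0 n ≠ 0) (hr : ∀ᶠ n in atTop, q (r + 1) n ≠ 0)
    (ha : ∀ᶠ n in atTop, ∑ j ∈ Finset.range (r + 2), q j n * a (n + j) = 0) : Nested L a := by
  classical
  let A : ℕ → Matrix (Fin (r + 1)) (Fin (r + 1)) L := fun n i j =>
    if (i : ℕ) < r then (if (j : ℕ) = i + 1 then 1 else 0) else -(q j n * (q (r + 1) n)⁻¹)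
  have h1 := Nested.solve (L := L) (r := r + 1) (A := A) (y := fun n i => a (n + i)) ?_ ?_ ?_ 0
  · exact h1.congr (Eventually.of_forall fun n => rfl)
  · intro i j
    by_cases hi : (i : ℕ) < r
    · refine (Nested.const (if (j : ℕ) = i + 1 then (1 : L) else 0)).congr
        (Eventually.of_forall fun n => ?_)
      simp only [A, if_pos hi]
    · refine ((Nested.const (-1 : L)).mul ((hq j).mul ((hq (r + 1)).inv hr))).congr
        (Eventually.of_forall fun n => ?_)
      simp only [A, if_neg hi]
      ring
  · filter_upwards [h0, hr] with n hn0 hnr hdet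
    obtain ⟨v, hv0, hv⟩ := Matrix.exists_mulVec_eq_zero_iff.2 hdet
    apply hv0
    have hv1 : ∀ i : Fin (r + 1), ∀ hi : (i : ℕ) < r, v ⟨i + 1, by omega⟩ = 0 := by
      intro i hi
      have h2 := congrFun hv i
      rw [Matrix.mulVec, dotProduct] at h2
      simp only [A, if_pos hi] at h2
      rw [Finset.sum_eq_single (⟨i + 1, by omega⟩ : Fin (r + 1))] at h2
      · simpa using h2
      · intro b _ hb
        rw [if_neg, zero_mul]
        intro h3
        exact hb (Fin.ext h3)
      · intro h3
        exact absurd (Finset.mem_univ _) h3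
    have hv2 : ∀ j : Fin (r + 1), j ≠ 0 → v j = 0 := by
      intro j hj
      have hj' : (j : ℕ) ≠ 0 := fun h => hj (Fin.ext h)
      have h3 := hv1 ⟨j - 1, by omega⟩ (by change (j : ℕ) - 1 < r; omega)
      have h4 : (⟨((⟨j - 1, by omega⟩ : Fin (r + 1)) : ℕ) + 1, by
        change (j : ℕ) - 1 + 1 < r + 1
        omega⟩ : Fin (r + 1)) = j := Fin.ext (by
          change (j : ℕ) - 1 + 1 = j
          omega)
      rwa [h4] at h3
    have hv3 : v 0 = 0 := by
      have h2 := congrFun hv (Fin.last r)
      rw [Matrix.mulVec, dotProduct] at h2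
      simp only [A, Fin.val_last, lt_irrefl, if_false] at h2
      rw [Finset.sum_eq_single (0 : Fin (r + 1))] at h2
      · have h3 : -(q 0 n * (q (r + 1) n)⁻¹) ≠ 0 :=
          neg_ne_zero.2 (mul_ne_zero hn0 (inv_ne_zero hnr))
        have h4 : -(q 0 n * (q (r + 1) n)⁻¹) * v 0 = 0 := h2
        exact (mul_eq_zero.1 h4).resolve_left h3
      · intro b _ hb
        rw [hv2 b hb, mul_zero]
      · intro h3
        exact absurd (Finset.mem_univ _) h3
    funext j
    by_cases hj : j = 0
    · rw [hj]
      exact hv3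
    · exact hv2 j hj
  · filter_upwards [hr, ha] with n hnr hna
    funext i
    rw [Matrix.mulVec, dotProduct]
    by_cases hi : (i : ℕ) < r
    · simp only [A, if_pos hi]
      rw [Finset.sum_eq_single (⟨i + 1, by omega⟩ : Fin (r + 1))]
      · rw [if_pos rfl, one_mul]
        congr 1
        change n + 1 + (i : ℕ) = n + (i + 1)
        omega
      · intro b _ hb
        rw [if_neg, zero_mul]
        intro h3
        exact hb (Fin.ext h3)
      · intro h3
        exact absurd (Finset.mem_univ _) h3
    · simp only [A, if_neg hi]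
      have hir : (i : ℕ) = r := by omega
      rw [Finset.sum_range_succ] at hna
      have h2 : ∑ j : Fin (r + 1), q j n * a (n + j) = ∑ j ∈ Finset.range (r + 1), q j n * a (n + j) :=
        Fin.sum_univ_eq_sum_range (fun j => q j n * a (n + j)) (r + 1)
      have h3 : ∑ j : Fin (r + 1), -(q j n * (q (r + 1) n)⁻¹) * a (n + j) =
          -((q (r + 1) n)⁻¹ * ∑ j : Fin (r + 1), q j n * a (n + j)) := by
        rw [Finset.mul_sum, ← Finset.sum_neg_distrib]
        refine Finset.sum_congr rfl fun j _ => ?_
        ring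
      change a (n + 1 + i) = ∑ j : Fin (r + 1), -(q j n * (q (r + 1) n)⁻¹) * a (n + j)
      rw [h3, h2, eq_neg_of_add_eq_zero_left hna]
      have h4 : n + 1 + (i : ℕ) = n + (r + 1) := by omega
      rw [h4, mul_neg, neg_neg, inv_mul_cancel_left₀ hnr]

/-- **P-recursive sequences are nested.** -/
theorem PRec.nested [CharZero L] {a : ℕ → L} (h : PRec L a) : Nested L a := by
  classical
  obtain ⟨r, p, ⟨i, hir, hi⟩, ha⟩ := h
  -- first and last coefficients
  let S : Finset ℕ := (Finset.range (r + 1)).filter fun i => p i ≠ 0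
  have hS : S.Nonempty := ⟨i, Finset.mem_filter.2 ⟨Finset.mem_range.2 (by omega), hi⟩⟩
  set i0 := S.min' hS with hi0
  set i1 := S.max' hS with hi1
  have m0 := Finset.mem_filter.1 (S.min'_mem hS)
  have m1 := Finset.mem_filter.1 (S.max'_mem hS)
  have h01 : i0 ≤ i1 := S.min'_le_max' hS
  have hsum : ∀ n : ℕ, ∑ j ∈ Finset.range (i1 + 1 - i0),
      (p (i0 + j)).eval (n : L) * a (n + (i0 + j)) = 0 := by
    intro n
    have h2 := ha n
    rw [← Finset.sum_subset (s₁ := Finset.Ico i0 (i1 + 1))] at h2
    · rwa [Finset.sum_Ico_eq_sum_range] at h2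
    · intro j hj
      rw [Finset.mem_Ico] at hj
      rw [Finset.mem_range]
      have h3 := Finset.mem_range.1 m1.1
      change i1 < r + 1 at h3
      omega
    · intro j hj hj'
      have h3 : p j = 0 := by
        by_contra h4
        have h5 : j ∈ S := Finset.mem_filter.2 ⟨hj, h4⟩
        apply hj'
        rw [Finset.mem_Ico]
        exact ⟨S.min'_le j h5, Nat.lt_succ_of_le (S.le_max' j h5)⟩
      rw [h3, Polynomial.eval_zero, zero_mul]
  -- the shifted coefficients
  let P : ℕ → Polynomial L := fun j => (p (i0 + j)).comp (Polynomial.X - Polynomial.C (i0 : L))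
  have hPe : ∀ (j n : ℕ), i0 ≤ n → (P j).eval (n : L) = (p (i0 + j)).eval ((n - i0 : ℕ) : L) := by
    intro j n hn
    change ((p (i0 + j)).comp (Polynomial.X - Polynomial.C (i0 : L))).eval (n : L) = _
    rw [Polynomial.eval_comp, Polynomial.eval_sub, Polynomial.eval_X, Polynomial.eval_C,
      Nat.cast_sub hn]
  have hev : ∀ᶠ n : ℕ in atTop,
      ∑ j ∈ Finset.range (i1 + 1 - i0), (P j).eval (n : L) * a (n + j) = 0 := by
    filter_upwards [eventually_ge_atTop i0] with n hn
    have h2 := hsum (n - i0)
    rw [← h2]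
    refine Finset.sum_congr rfl fun j _ => ?_
    rw [hPe j n hn]
    congr 2
    omega
  have hPne : ∀ j, p (i0 + j) ≠ 0 → ∀ᶠ n : ℕ in atTop, (P j).eval (n : L) ≠ 0 := by
    intro j hj
    have h2 := (tendsto_sub_atTop_nat i0).eventually (ev_ne hj)
    filter_upwards [h2, eventually_ge_atTop i0] with n hn hn'
    rw [hPe j n hn']
    exact hn
  have e0 : ∀ᶠ n : ℕ in atTop, (P 0).eval (n : L) ≠ 0 := hPne 0 m0.2
  rcases Nat.eq_or_lt_of_le h01 with heq | hlt
  · -- one term
    have h2 : i1 + 1 - i0 = 1 := by omega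
    rw [h2] at hev
    refine (Nested.const (L := L) 0).congr ?_
    filter_upwards [hev, e0] with n hn hn0
    rw [Finset.sum_range_one] at hn
    exact ((mul_eq_zero.1 hn).resolve_left hn0).symm
  · obtain ⟨r', hr'⟩ : ∃ r', i1 = i0 + (r' + 1) := ⟨i1 - i0 - 1, by omega⟩
    have h2 : i1 + 1 - i0 = r' + 2 := by omega
    rw [h2] at hev
    refine nested_scalar (r := r') (q := fun j n => (P j).eval (n : L)) (fun j => nested_poly _)
      e0 (hPne (r' + 1) ?_) hev
    rw [← hr']
    exact m1.2

end Pool.Agent.T6.H45.Hol
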