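import Pool.Agent.T6.H45.Hol.Core
import Pool.Agent.T6.H45.Hol.PRec
import Pool.Agent.TH143.HE.PCur

/-!
Sequences of points given by nested linear recurrences in projective varieties over number fields.
-/

set_option autoImplicit false
set_option maxHeartbeats 400000

namespace Pool.Agent.T6.H45.Hol

open Filter MvPolynomial Pool.Agent.TH143.HE

variable {N : ℕ}

/-- finitely many forms suffice -/
theorem exists_forms {K : Type} [Field K] (I : Ideal (MvPolynomial (Fin (N + 1)) K)) :
    ∃ S : Finset (MvPolynomial (Fin (N + 1)) K), (∀ F ∈ S, F ∈ I ∧ ∃ d, F.IsHomogeneous d) ∧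
      ∀ (A : Type) [CommRing A] (φ : K →+* A) (x : Fin (N + 1) → A),
        (∀ F ∈ S, eval₂ φ x F = 0) → IsPtP φ I x := by
  classical
  let s : Set (MvPolynomial (Fin (N + 1)) K) := {F | F ∈ I ∧ ∃ d, F.IsHomogeneous d}
  have hfg : (Ideal.span s).FG := IsNoetherian.noetherian _
  obtain ⟨S, hS, hSs⟩ := Submodule.fg_span_iff_fg_span_finset_subset s |>.1 hfg
  refine ⟨S, fun F hF => hS hF, fun A _ φ x h F hF hFh => ?_⟩
  have h1 : F ∈ Ideal.span s := Ideal.subset_span ⟨hF, hFh⟩
  have h2 : Ideal.span s ≤ RingHom.ker (eval₂Hom φ x) := by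
    change Submodule.span _ s ≤ _
    rw [hSs]
    change Ideal.span (S : Set (MvPolynomial (Fin (N + 1)) K)) ≤ _
    rw [Ideal.span_le]
    intro G hG
    exact h G hG
  exact h2 h1

/-- the rational curves for another embedding -/
theorem ratCurvesIn_any {K : Type} [Field K] [NumberField K] (σ τ : K →+* ℂ)
    {I I' : Ideal (MvPolynomial (Fin (N + 1)) K)} (h : RatCurvesIn σ I I') :
    RatCurvesIn τ I I' := by
  rw [ratCurvesIn_iff] at h ⊢
  intro p hp
  obtain ⟨L, iL, iA, iF, p', hp'⟩ : ∃ (L : Type) (_ : Field L) (_ : Algebra K L)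
      (_ : FiniteDimensional K L) (p' : Fin (N + 1) → Polynomial L),
      RCur ((algebraMap K L).comp (RingHom.id K)) I I' p' := by
    let _ : Algebra K ℂ := τ.toAlgebra
    have hp1 : RCur ((algebraMap K ℂ).comp (RingHom.id K)) I I' p := hp
    exact RCur.spec (k := K) (E := ℂ) (RingHom.id K) hp1
  rw [RingHom.comp_id] at hp'
  let _ : Algebra K ℂ := σ.toAlgebra
  let e : L →ₐ[K] ℂ := IsAlgClosed.lift
  have he : (e : L →+* ℂ).comp (algebraMap K L) = σ := by
    ext r
    exact e.commutes _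
  have h1 := hp'.map (e : L →+* ℂ)
  rw [he] at h1
  exact h _ h1

/-- **The alternative over an embedded field.** -/
theorem nested_alt {K L : Type} [Field K] [Field L] (φ : K →+* L) (τ : L →+* ℂ)
    (I I' : Ideal (MvPolynomial (Fin (N + 1)) K)) (hRC : RatCurvesIn (τ.comp φ) I I')
    (x : ℕ → Fin (N + 1) → L) (hx : ∀ j, Nested L fun m => x m j)
    (hX : ∀ᶠ m in atTop, IsPtP φ I (x m)) :
    ∃ k : ℕ, 0 < k ∧ ∀ i : ℕ,
      (∃ c : Fin (N + 1) → ℂ, c ≠ 0 ∧ ∀ᶠ n in atTop, ∃ s : ℂ, ∀ j, τ (x (k * n + i) j) = s * c j) ∨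
      ∀ᶠ n in atTop, IsPtP φ I' (x (k * n + i)) := by
  classical
  let y : Fin (N + 1) → ℕ → ℂ := fun j m => τ (x m j)
  let J : Ideal (MvPolynomial (Fin (N + 1)) ℂ) :=
    Ideal.span ((MvPolynomial.map (τ.comp φ)) '' {F | F ∈ I ∧ ∃ d, F.IsHomogeneous d})
  have hval : ∀ (F : MvPolynomial (Fin (N + 1)) K) (m : ℕ),
      aeval (fun j => y j m) (MvPolynomial.map (τ.comp φ) F) = τ (eval₂ φ (x m) F) := by
    intro F m
    rw [aeval_def, eval₂_map, eval₂_comp_left]
    rfl
  have hvalp : ∀ (F : MvPolynomial (Fin (N + 1)) K) (p : Fin (N + 1) → Polynomial ℂ) (u : ℂ),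
      (aeval p (MvPolynomial.map (τ.comp φ) F)).eval u =
        eval₂ (τ.comp φ) (fun j => (p j).eval u) F := by
    intro F p u
    rw [aeval_def, eval₂_map, ← Polynomial.coe_evalRingHom, eval₂_comp_left]
    congr 1
    ext r
    simp
  obtain ⟨S, hS, hSI⟩ := exists_forms (N := N) I'
  obtain ⟨k, hk, hka⟩ := alternative J y (fun j => (hx j).tow τ) (by
    intro F hF _
    filter_upwards [hX] with m hm
    have h1 : J ≤ RingHom.ker (aeval (fun j => y j m) :
        MvPolynomial (Fin (N + 1)) ℂ →ₐ[ℂ] ℂ).toRingHom := by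
      rw [Ideal.span_le]
      rintro _ ⟨G, ⟨hG, hGh⟩, rfl⟩
      change aeval (fun j => y j m) (MvPolynomial.map (τ.comp φ) G) = 0
      rw [hval, hm G hG hGh, map_zero]
    exact h1 hF)
  refine ⟨k, hk, fun i => ?_⟩
  rcases hka i with h | h
  · exact Or.inl h
  · right
    have h1 : ∀ᶠ n in atTop, ∀ F ∈ S, eval₂ φ (x (k * n + i)) F = 0 := by
      rw [eventually_all_finset]
      intro F hF
      obtain ⟨hF1, d, hF2⟩ := hS F hF
      have h2 := h (MvPolynomial.map (τ.comp φ) F) ⟨d, hF2.map _⟩ (by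
        intro p hp hnc
        apply Polynomial.funext
        intro u
        rw [hvalp, Polynomial.eval_zero]
        refine hRC p (fun v G hG hGh => ?_) ?_ u F hF1 ⟨d, hF2⟩
        · rw [← hvalp]
          obtain ⟨e, he⟩ := hGh
          rw [hp _ (Ideal.subset_span ⟨G, ⟨hG, e, he⟩, rfl⟩) ⟨e, he.map _⟩, Polynomial.eval_zero]
        · by_contra hcon
          unfold NonConst at hcon
          push Not at hcon
          obtain ⟨j, l, hjl⟩ := hnc
          apply hjl
          apply Polynomial.funext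
          intro v
          have h3 : p j * Polynomial.C ((p l).eval v) = p l * Polynomial.C ((p j).eval v) := by
            apply Polynomial.funext
            intro w
            rw [Polynomial.eval_mul, Polynomial.eval_mul, Polynomial.eval_C, Polynomial.eval_C]
            exact hcon j l w v
          have h4 := congrArg (fun q => (Polynomial.derivative q).eval v) h3
          simp only [Polynomial.derivative_mul, Polynomial.derivative_C, mul_zero, add_zero,
            Polynomial.eval_mul, Polynomial.eval_C] at h4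
          rw [Polynomial.eval_mul, Polynomial.eval_mul, h4, mul_comm])
      filter_upwards [h2] with n hn
      rw [hval] at hn
      exact (map_eq_zero τ).1 hn
    filter_upwards [h1] with n hn
    exact hSI L φ _ hn

/-- **Periodicity outside of `Z`.** -/
theorem nested_periodic {K L : Type} [Field K] [Field L] (φ : K →+* L) (τ : L →+* ℂ)
    (I I' : Ideal (MvPolynomial (Fin (N + 1)) K)) (hRC : RatCurvesIn (τ.comp φ) I I')
    (x : ℕ → Fin (N + 1) → L) (hx0 : ∀ m, x m ≠ 0) (hx : ∀ j, Nested L fun m => x m j)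
    (hX : ∀ᶠ m in atTop, IsPtP φ I (x m)) :
    ∃ k m0 : ℕ, 0 < k ∧ ∀ m, m0 ≤ m → (IsPtP φ I' (x m) ∧ IsPtP φ I' (x (m + k))) ∨
      ∀ i j, x (m + k) i * x m j = x (m + k) j * x m i := by
  classical
  obtain ⟨k, hk, h⟩ := nested_alt φ τ I I' hRC x hx hX
  -- thresholds for the classes
  have h1 : ∀ i : ℕ, ∃ n0 : ℕ, ∀ n, n0 ≤ n →
      (IsPtP φ I' (x (k * n + i)) ∧ IsPtP φ I' (x (k * n + i + k))) ∨
      ∀ a b, x (k * n + i + k) a * x (k * n + i) b = x (k * n + i + k) b * x (k * n + i) a := by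
    intro i
    have hnext : ∀ n, k * n + i + k = k * (n + 1) + i := fun n => by ring
    rcases h i with ⟨c, hc, hcn⟩ | hZ
    · obtain ⟨n0, hn0⟩ := eventually_atTop.1 hcn
      refine ⟨n0, fun n hn => Or.inr fun a b => ?_⟩
      obtain ⟨s, hs⟩ := hn0 n hn
      obtain ⟨s', hs'⟩ := hn0 (n + 1) (by omega)
      apply τ.injective
      rw [map_mul, map_mul, hnext, hs' a, hs b, hs' b, hs a]
      ring
    · obtain ⟨n0, hn0⟩ := eventually_atTop.1 hZ
      refine ⟨n0, fun n hn => Or.inl ⟨hn0 n hn, ?_⟩⟩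
      rw [hnext]
      exact hn0 (n + 1) (by omega)
  choose n0 hn0 using h1
  let M : ℕ := (Finset.range k).sup n0
  refine ⟨k, k * (M + 1), hk, fun m hm => ?_⟩
  have h2 : k * (m / k) + m % k = m := Nat.div_add_mod m k
  have h3 : m % k < k := Nat.mod_lt _ hk
  have h4 : n0 (m % k) ≤ M := Finset.le_sup (f := n0) (Finset.mem_range.2 h3)
  have h5 : M + 1 ≤ m / k := (Nat.le_div_iff_mul_le hk).2 (by rw [mul_comm]; exact hm)
  have h6 := hn0 (m % k) (m / k) (by omega)
  rw [h2] at h6
  exact h6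

end Pool.Agent.T6.H45.Hol
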