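import Pool.Agent.T6.H45.Hol.Tow

/-!
Sequences given by nested linear recurrences.
-/

set_option autoImplicit false
set_option maxHeartbeats 400000

namespace Pool.Agent.T6.H45.Hol

open Filter

/-- The smallest class of sequences in the field `L` which contains the constant sequences, is closed
under eventual equality, sums, products and inverses of eventually nonvanishing sequences, and
contains the coordinates of the solutions of `y(n+1) = A(n) y(n)` for all square matrices `A` with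
entries in the class and `det A(n) ≠ 0` for all large `n`. -/
inductive Nested (L : Type) [Field L] : (ℕ → L) → Prop
  | const (c : L) : Nested L (fun _ => c)
  | congr {f g : ℕ → L} : Nested L f → (∀ᶠ n in atTop, f n = g n) → Nested L g
  | add {f g : ℕ → L} : Nested L f → Nested L g → Nested L (fun n => f n + g n)
  | mul {f g : ℕ → L} : Nested L f → Nested L g → Nested L (fun n => f n * g n)
  | inv {f : ℕ → L} : Nested L f → (∀ᶠ n in atTop, f n ≠ 0) → Nested L (fun n => (f n)⁻¹)
  | solve {r : ℕ} {A : ℕ → Matrix (Fin r) (Fin r) L} {y : ℕ → Fin r → L} :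
      (∀ i j, Nested L (fun n => A n i j)) → (∀ᶠ n in atTop, (A n).det ≠ 0) →
      (∀ᶠ n in atTop, y (n + 1) = (A n).mulVec (y n)) → ∀ i, Nested L (fun n => y n i)

/-- germs of matrices -/
noncomputable def gmM {r : ℕ} (M : ℕ → Matrix (Fin r) (Fin r) ℂ) : Matrix (Fin r) (Fin r) G :=
  fun i j => gm (fun n => M n i j)

theorem gmM_mul {r : ℕ} (M N : ℕ → Matrix (Fin r) (Fin r) ℂ) :
    gmM (fun n => M n * N n) = gmM M * gmM N := by
  ext i j
  rw [Matrix.mul_apply]
  unfold gmM
  have h1 : (fun n => (M n * N n) i j) = ∑ k, (fun n => M n i k) * fun n => N n k j := by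
    funext n
    rw [Matrix.mul_apply, Finset.sum_apply]
    rfl
  rw [h1, map_sum]
  refine Finset.sum_congr rfl fun k _ => ?_
  exact map_mul gm _ _

theorem gmM_congr {r : ℕ} {M N : ℕ → Matrix (Fin r) (Fin r) ℂ} (h : ∀ᶠ n in atTop, M n = N n) :
    gmM M = gmM N := by
  ext i j
  unfold gmM
  rw [gm_eq]
  filter_upwards [h] with n hn
  rw [hn]

theorem gmM_one {r : ℕ} : gmM (fun _ => (1 : Matrix (Fin r) (Fin r) ℂ)) = 1 := by
  ext i j
  unfold gmM
  rw [Matrix.one_apply]
  split_ifs with h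
  · have h1 : (fun _ : ℕ => (1 : Matrix (Fin r) (Fin r) ℂ) i j) = 1 := by
      funext n
      rw [Matrix.one_apply, if_pos h]
      rfl
    rw [h1, map_one]
  · have h1 : (fun _ : ℕ => (1 : Matrix (Fin r) (Fin r) ℂ) i j) = 0 := by
      funext n
      rw [Matrix.one_apply, if_neg h]
      rfl
    rw [h1, map_zero]

theorem sh_gmM {r : ℕ} (M : ℕ → Matrix (Fin r) (Fin r) ℂ) :
    sh.mapMatrix (gmM M) = gmM (fun n => M (n + 1)) := by
  ext i j
  exact sh_gm _

/-- the localisation at the units -/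
noncomputable def locU (T : Subalgebra ℂ G) : Subalgebra ℂ G where
  carrier := {x | ∃ u ∈ T, ∃ v : G, u * v = 1 ∧ u * x ∈ T}
  mul_mem' := by
    rintro x y ⟨u, hu, v, huv, hux⟩ ⟨u', hu', v', huv', huy⟩
    refine ⟨u * u', T.mul_mem hu hu', v * v', ?_, ?_⟩
    · calc u * u' * (v * v') = (u * v) * (u' * v') := by ring
        _ = 1 := by rw [huv, huv', one_mul]
    · have h1 : u * u' * (x * y) = (u * x) * (u' * y) := by ring
      rw [h1]
      exact T.mul_mem hux huy
  add_mem' := by
    rintro x y ⟨u, hu, v, huv, hux⟩ ⟨u', hu', v', huv', huy⟩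
    refine ⟨u * u', T.mul_mem hu hu', v * v', ?_, ?_⟩
    · calc u * u' * (v * v') = (u * v) * (u' * v') := by ring
        _ = 1 := by rw [huv, huv', one_mul]
    · have h1 : u * u' * (x + y) = u' * (u * x) + u * (u' * y) := by ring
      rw [h1]
      exact T.add_mem (T.mul_mem hu' hux) (T.mul_mem hu huy)
  algebraMap_mem' := by
    intro c
    exact ⟨1, T.one_mem, 1, one_mul 1, by
      rw [one_mul]
      exact T.algebraMap_mem c⟩

theorem le_locU (T : Subalgebra ℂ G) : T ≤ locU T := fun x hx =>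
  ⟨1, T.one_mem, 1, one_mul 1, by rwa [one_mul]⟩

theorem inv_locU {T : Subalgebra ℂ G} {u v : G} (hu : u ∈ T) (huv : u * v = 1) : v ∈ locU T :=
  ⟨u, hu, v, huv, by
    rw [huv]
    exact T.one_mem⟩

theorem tow_locU {T : Subalgebra ℂ G} (h : Tow T) : Tow (locU T) := by
  refine Tow.unit h (le_locU T) ?_ ?_
  · rintro k x ⟨u, hu, v, huv, hux⟩
    refine ⟨(sh ^ k) u, h.good.1 k u hu, (sh ^ k) v, ?_, ?_⟩
    · rw [← map_mul, huv, map_one]
    · rw [← map_mul]
      exact h.good.1 k _ hux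
  · rintro x ⟨u, hu, v, huv, hux⟩
    exact ⟨u, hu, v, inv_locU hu huv, huv, hux⟩

theorem fam {ι : Type} [Finite ι] (g : ι → G)
    (h : ∀ i, ∀ T, Tow T → ∃ T', Tow T' ∧ T ≤ T' ∧ g i ∈ T') :
    ∀ T, Tow T → ∃ T', Tow T' ∧ T ≤ T' ∧ ∀ i, g i ∈ T' := by
  classical
  have : Fintype ι := Fintype.ofFinite ι
  have key : ∀ s : Finset ι, ∀ T, Tow T → ∃ T', Tow T' ∧ T ≤ T' ∧ ∀ i ∈ s, g i ∈ T' := by
    intro s
    induction s using Finset.induction_on with
    | empty => exact fun T hT => ⟨T, hT, le_rfl, fun i hi => absurd hi (Finset.notMem_empty i)⟩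
    | insert a s _ ih =>
      intro T hT
      obtain ⟨T1, h1, h2, h3⟩ := ih T hT
      obtain ⟨T2, h4, h5, h6⟩ := h a T1 h1
      refine ⟨T2, h4, h2.trans h5, fun i hi => ?_⟩
      rcases Finset.mem_insert.1 hi with rfl | hi
      · exact h6
      · exact h5 (h3 i hi)
  intro T hT
  obtain ⟨T', h1, h2, h3⟩ := key Finset.univ T hT
  exact ⟨T', h1, h2, fun i => h3 i (Finset.mem_univ i)⟩

theorem inv_entry {R : Type} [CommRing R] {r : ℕ} {A B : Matrix (Fin r) (Fin r) R} {d : R}
    (hdA : d * A.det = 1) (hAB : A * B = 1) (i j : Fin r) : B i j = d * A.adjugate i j := by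
  have h1 : B = d • A.adjugate := by
    calc B = (d * A.det) • B := by rw [hdA, one_smul]
      _ = d • (A.adjugate * A * B) := by
        rw [Matrix.adjugate_mul, Matrix.smul_mul, Matrix.one_mul, smul_smul]
      _ = d • A.adjugate := by rw [Matrix.mul_assoc, hAB, Matrix.mul_one]
  rw [h1, Matrix.smul_apply, smul_eq_mul]

theorem adj_entry {R S : Type} [CommRing R] [CommRing S] (f : S →+* R) {r : ℕ}
    (A : Matrix (Fin r) (Fin r) S) (i j : Fin r) :
    (A.map f).adjugate i j = f (A.adjugate i j) := by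
  have h1 := f.map_adjugate A
  have h2 : (f.mapMatrix A).adjugate = f.mapMatrix A.adjugate := h1.symm
  rw [show A.map f = f.mapMatrix A from rfl, h2]
  rfl

theorem det_entry {R S : Type} [CommRing R] [CommRing S] (f : S →+* R) {r : ℕ}
    (A : Matrix (Fin r) (Fin r) S) : (A.map f).det = f A.det := (f.map_det A).symm

/-- matrices with entries in a ring whose determinant is a unit -/
theorem inv_mem {T : Subalgebra ℂ G} {r : ℕ} {A B : Matrix (Fin r) (Fin r) G} {d : G}
    (hA : ∀ i j, A i j ∈ T) (hd : d ∈ T) (hdA : d * A.det = 1) (hAB : A * B = 1) (i j : Fin r) :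
    B i j ∈ T := by
  rw [inv_entry hdA hAB]
  refine T.mul_mem hd ?_
  have h1 : A.adjugate i j = T.toSubring.subtype ((mT A hA).adjugate i j) :=
    adj_entry T.toSubring.subtype (mT A hA) i j
  rw [h1]
  exact ((mT A hA).adjugate i j).2

theorem det_mem {T : Subalgebra ℂ G} {r : ℕ} {A : Matrix (Fin r) (Fin r) G}
    (hA : ∀ i j, A i j ∈ T) : A.det ∈ T := by
  have h1 : A.det = T.toSubring.subtype (mT A hA).det := det_entry T.toSubring.subtype (mT A hA)
  rw [h1]
  exact (mT A hA).det.2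

theorem gmM_det {r : ℕ} (M : ℕ → Matrix (Fin r) (Fin r) ℂ) :
    (gmM M).det = gm (fun n => (M n).det) := by
  have h1 : (fun n => (M n).det) = Matrix.det (Matrix.of fun i j => fun n => M n i j) := by
    funext n
    have h3 := (Pi.evalRingHom (fun _ : ℕ => ℂ) n).map_det (Matrix.of fun i j => fun n => M n i j)
    exact h3.symm
  rw [h1]
  exact ((gm : (ℕ → ℂ) →+* G).map_det _).symm

/-- solutions of linear recurrences -/
theorem solve_tow {r : ℕ} {A : ℕ → Matrix (Fin r) (Fin r) ℂ} {y : ℕ → Fin r → ℂ}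
    (hdet : ∀ᶠ n in atTop, (A n).det ≠ 0)
    (hy : ∀ᶠ n in atTop, y (n + 1) = (A n).mulVec (y n))
    {T : Subalgebra ℂ G} (hT : Tow T) (hA : ∀ i j, gm (fun n => A n i j) ∈ T) :
    ∃ T', Tow T' ∧ T ≤ T' ∧ ∀ i, gm (fun n => y n i) ∈ T' := by
  classical
  obtain ⟨n0, hn0⟩ := eventually_atTop.1 (hdet.and hy)
  let W : ℕ → Matrix (Fin r) (Fin r) ℂ := fun k => Nat.rec 1 (fun k M => A (n0 + k) * M) k
  have hW0 : W 0 = 1 := rfl
  have hWs : ∀ k, W (k + 1) = A (n0 + k) * W k := fun _ => rfl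
  have hWd : ∀ k, (W k).det ≠ 0 := by
    intro k
    induction k with
    | zero =>
      rw [hW0, Matrix.det_one]
      exact one_ne_zero
    | succ k ih =>
      rw [hWs, Matrix.det_mul]
      exact mul_ne_zero (hn0 _ (Nat.le_add_right _ _)).1 ih
  have hWy : ∀ k, y (n0 + k) = (W k).mulVec (y n0) := by
    intro k
    induction k with
    | zero => rw [hW0, Matrix.one_mulVec, add_zero]
    | succ k ih =>
      rw [hWs, ← Matrix.mulVec_mulVec, ← ih, ← add_assoc]
      exact (hn0 _ (Nat.le_add_right _ _)).2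
  have hWi : ∀ k, W k * (W k)⁻¹ = 1 := fun k =>
    Matrix.mul_nonsing_inv _ (isUnit_iff_ne_zero.2 (hWd k))
  have hWi' : ∀ k, (W k)⁻¹ * W k = 1 := fun k =>
    Matrix.nonsing_inv_mul _ (isUnit_iff_ne_zero.2 (hWd k))
  set X : Matrix (Fin r) (Fin r) G := gmM (fun n => W (n - n0)) with hX
  set Y : Matrix (Fin r) (Fin r) G := gmM (fun n => (W (n - n0))⁻¹) with hY
  have hXY : X * Y = 1 := by
    rw [hX, hY, ← gmM_mul]
    simp only [hWi]
    exact gmM_one
  have hYX : Y * X = 1 := mul_eq_one_comm.1 hXY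
  have hsX : sh.mapMatrix X = gmM A * X := by
    rw [hX, sh_gmM, ← gmM_mul]
    apply gmM_congr
    filter_upwards [eventually_ge_atTop n0] with n hn
    have h1 : n + 1 - n0 = (n - n0) + 1 := by omega
    rw [h1, hWs, Nat.add_sub_cancel' hn]
  have ha : sh.mapMatrix X * Y = gmM A := by rw [hsX, Matrix.mul_assoc, hXY, Matrix.mul_one]
  have hA' : ∀ i j, gmM A i j ∈ T := hA
  have hsXY : sh.mapMatrix X * sh.mapMatrix Y = 1 := by rw [← map_mul, hXY, map_one]
  have hb : gmM A * (X * sh.mapMatrix Y) = 1 := by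
    rw [← Matrix.mul_assoc, ← hsX, hsXY]
  obtain ⟨d, hd⟩ : ∃ d : G, (gmM A).det * d = 1 := by
    refine ⟨gm (fun n => ((A n).det)⁻¹), ?_⟩
    rw [gmM_det, ← map_mul, ← map_one gm, gm_eq]
    filter_upwards [hdet] with n hn
    exact mul_inv_cancel₀ hn
  have hF : Fnd (locU T) X Y := by
    refine ⟨hXY, fun i j => ?_, fun i j => ?_⟩
    · rw [ha]
      exact le_locU T (hA' i j)
    · exact inv_mem (T := locU T) (fun i j => le_locU T (hA' i j))
        (inv_locU (det_mem hA') hd) (by rw [mul_comm]; exact hd) hb i j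
  refine ⟨matG (locU T) X Y, Tow.mat (tow_locU hT) hF, (le_locU T).trans le_matG, fun i => ?_⟩
  have h1 : gm (fun n => y n i) = ∑ j, X i j * algebraMap ℂ G (y n0 j) := by
    have h2 : ∑ j, X i j * algebraMap ℂ G (y n0 j) =
        gm (∑ j, (fun n => W (n - n0) i j) * fun _ => y n0 j) := by
      rw [map_sum]
      refine Finset.sum_congr rfl fun j _ => ?_
      rw [map_mul]
      rfl
    rw [h2, gm_eq]
    filter_upwards [eventually_ge_atTop n0] with n hn
    rw [Finset.sum_apply]
    have h3 := congrFun (hWy (n - n0)) i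
    rw [Nat.add_sub_cancel' hn] at h3
    rw [h3]
    rfl
  rw [h1]
  exact Subalgebra.sum_mem _ fun j _ =>
    Subalgebra.mul_mem _ (mem_X i j) (Subalgebra.algebraMap_mem _ _)

/-- **Nested sequences are in towers.** -/
theorem Nested.tow {L : Type} [Field L] (τ : L →+* ℂ) {f : ℕ → L} (h : Nested L f) :
    ∀ T, Tow T → ∃ T', Tow T' ∧ T ≤ T' ∧ gm (fun n => τ (f n)) ∈ T' := by
  induction h with
  | const c =>
    intro T hT
    refine ⟨T, hT, le_rfl, ?_⟩
    exact T.algebraMap_mem (τ c)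
  | @congr f g _ hfg ih =>
    intro T hT
    obtain ⟨T', h1, h2, h3⟩ := ih T hT
    refine ⟨T', h1, h2, ?_⟩
    have h4 : gm (fun n => τ (f n)) = gm (fun n => τ (g n)) := by
      rw [gm_eq]
      filter_upwards [hfg] with n hn
      rw [hn]
    rwa [← h4]
  | @add f g _ _ ihf ihg =>
    intro T hT
    obtain ⟨T1, h1, h2, h3⟩ := ihf T hT
    obtain ⟨T2, h4, h5, h6⟩ := ihg T1 h1
    refine ⟨T2, h4, h2.trans h5, ?_⟩
    have h7 : gm (fun n => τ (f n + g n)) = gm (fun n => τ (f n)) + gm (fun n => τ (g n)) := by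
      rw [← map_add]
      congr 1
      funext n
      exact map_add τ _ _
    rw [h7]
    exact T2.add_mem (h5 h3) h6
  | @mul f g _ _ ihf ihg =>
    intro T hT
    obtain ⟨T1, h1, h2, h3⟩ := ihf T hT
    obtain ⟨T2, h4, h5, h6⟩ := ihg T1 h1
    refine ⟨T2, h4, h2.trans h5, ?_⟩
    have h7 : gm (fun n => τ (f n * g n)) = gm (fun n => τ (f n)) * gm (fun n => τ (g n)) := by
      rw [← map_mul]
      congr 1
      funext n
      exact map_mul τ _ _
    rw [h7]
    exact T2.mul_mem (h5 h3) h6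
  | @inv f _ hf0 ih =>
    intro T hT
    obtain ⟨T1, h1, h2, h3⟩ := ih T hT
    refine ⟨locU T1, tow_locU h1, h2.trans (le_locU T1), inv_locU h3 ?_⟩
    rw [← map_mul, ← map_one gm, gm_eq]
    filter_upwards [hf0] with n hn
    change τ (f n) * τ (f n)⁻¹ = 1
    rw [← map_mul, mul_inv_cancel₀ hn, map_one]
  | @solve r A y _ hdet hy i ih =>
    intro T hT
    obtain ⟨T1, h1, h2, h3⟩ := fam (fun p : Fin r × Fin r => gm (fun n => τ (A n p.1 p.2)))
      (fun p => ih p.1 p.2) T hT
    obtain ⟨T2, h4, h5, h6⟩ := solve_tow (A := fun n => (A n).map τ) (y := fun n i => τ (y n i))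
      (by
        filter_upwards [hdet] with n hn
        have h7 : ((A n).map τ).det = τ (A n).det := (τ.map_det (A n)).symm
        rw [h7]
        exact fun h0 => hn ((map_eq_zero τ).1 h0))
      (by
        filter_upwards [hy] with n hn
        rw [hn]
        funext i
        rw [Matrix.mulVec, Matrix.mulVec, dotProduct, dotProduct, map_sum]
        refine Finset.sum_congr rfl fun j _ => ?_
        rw [map_mul]
        rfl) h1 (fun i j => h3 (i, j))
    exact ⟨T2, h4, h2.trans h5, h6 i⟩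

end Pool.Agent.T6.H45.Hol
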