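import Pool.Agent.T6.H45.Hol.Fld2
import Pool.Agent.T6.H45.Hol.Seq
import Pool.Agent.Y377.IL.Rc
import Pool.Agent.Y737.IL.Rc
import Pool.Agent.Y377.IR.All
import Pool.Agent.Y377.IL.All

/-!
Sequences of points with coordinates in towers of germs: each section along a suitable arithmetic
progression is eventually constant or its closure is covered by rational curves.
-/

set_option autoImplicit false
set_option maxHeartbeats 400000

namespace Pool.Agent.T6.H45.Hol

open Filter MvPolynomial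
open Pool.Agent.Y377.EL Pool.Agent.Y377.IL Pool.Agent.Y377.IR

variable {N : ℕ}

/-- the germ of a polynomial in sequences -/
theorem gm_poly (x : Fin (N + 1) → ℕ → ℂ) (F : MvPolynomial (Fin (N + 1)) ℂ) :
    gm (fun n => aeval (fun j => x j n) F) = aeval (fun j => gm (x j)) F := gm_aeval x F

/-- one section -/
theorem section_alt {T : Subalgebra ℂ G} (hT : Tow T)
    (hdom : ∀ a ∈ T, ∀ b ∈ T, a * b = 0 → a = 0 ∨ b = 0)
    (I : Ideal (MvPolynomial (Fin (N + 1)) ℂ)) (x : Fin (N + 1) → ℕ → ℂ)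
    (hx : ∀ j, gm (x j) ∈ T)
    (hX : ∀ F ∈ I, (∃ d, F.IsHomogeneous d) → ∀ᶠ n in atTop, aeval (fun j => x j n) F = 0) :
    (∃ c : Fin (N + 1) → ℂ, c ≠ 0 ∧ ∀ᶠ n in atTop, ∃ s : ℂ, ∀ j, x j n = s * c j) ∨
    ∀ F' : MvPolynomial (Fin (N + 1)) ℂ, (∃ d, F'.IsHomogeneous d) →
      (∀ p : Fin (N + 1) → Polynomial ℂ,
        (∀ F ∈ I, (∃ d, F.IsHomogeneous d) → aeval p F = 0) →
        (∃ j k, Polynomial.derivative (p j) * p k ≠ p j * Polynomial.derivative (p k)) →
          aeval p F' = 0) → ∀ᶠ n in atTop, aeval (fun j => x j n) F' = 0 := by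
  classical
  have hnz : NoZeroDivisors T := ⟨fun {a b} hab => by
    rcases hdom a a.2 b b.2 (congrArg Subtype.val hab) with h | h
    · exact Or.inl (Subtype.ext h)
    · exact Or.inr (Subtype.ext h)⟩
  have hD : IsDomain T := NoZeroDivisors.to_isDomain T
  let X : Fin (N + 1) → T := fun j => ⟨gm (x j), hx j⟩
  by_cases hall : ∀ j, X j = 0
  · left
    refine ⟨1, one_ne_zero, ?_⟩
    have h1 : ∀ᶠ n in atTop, ∀ j, x j n = 0 := by
      rw [eventually_all]
      intro j
      rw [← gm_eq_zero]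
      exact congrArg Subtype.val (hall j)
    filter_upwards [h1] with n hn
    exact ⟨0, fun j => by rw [hn j, zero_mul]⟩
  push Not at hall
  obtain ⟨l, hl⟩ := hall
  let z : Fin (N + 1) → FractionRing T := fun j => io (X j)
  have hzl : z l ≠ 0 := fun h0 => hl (io_inj (by
    change io (X l) = _
    rw [io_zero]
    exact h0))
  -- values of forms
  have hval : ∀ F : MvPolynomial (Fin (N + 1)) ℂ,
      aeval z F = 0 ↔ ∀ᶠ n in atTop, aeval (fun j => x j n) F = 0 := by
    intro F
    rw [← gm_eq_zero, gm_poly]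
    have e1 : aeval z F = io (aeval X F) :=
      (MvPolynomial.comp_aeval_apply (f := X) (IsScalarTower.toAlgHom ℂ T (FractionRing T)) F).symm
    have e2 : ((aeval X F : T) : G) = aeval (fun j => gm (x j)) F :=
      MvPolynomial.comp_aeval_apply (f := X) T.val F
    rw [e1, ← e2]
    constructor
    · intro h
      rw [io_inj (h.trans io_zero.symm)]
      rfl
    · intro h
      have h1 : (aeval X F : T) = 0 := Subtype.ext h
      rw [h1, io_zero]
  by_cases hc : ∀ j, ∃ c : ℂ, z j / z l = algebraMap ℂ (FractionRing T) c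
  · left
    choose c hc using hc
    have hcl : c l = 1 := by
      have h1 := hc l
      rw [div_self hzl] at h1
      apply (algebraMap ℂ (FractionRing T)).injective
      rw [← h1, map_one]
    refine ⟨c, fun h0 => ?_, ?_⟩
    · rw [h0] at hcl
      exact zero_ne_one hcl
    · have h1 : ∀ᶠ n in atTop, ∀ j, x j n = c j * x l n := by
        rw [eventually_all]
        intro j
        have h2 := hc j
        rw [div_eq_iff hzl] at h2
        have h3 : io (X j) = io (algebraMap ℂ T (c j) * X l) := by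
          rw [io_mul, io_C]
          exact h2
        have h4 : gm (x j) = algebraMap ℂ G (c j) * gm (x l) := congrArg Subtype.val (io_inj h3)
        have h5 : algebraMap ℂ G (c j) * gm (x l) = gm (fun n => c j * x l n) := by
          have h6 : algebraMap ℂ G (c j) = gm (fun _ => c j) := rfl
          rw [h6, ← map_mul]
          rfl
        rw [h5] at h4
        exact gm_eq.1 h4
      filter_upwards [h1] with n hn
      exact ⟨x l n, fun j => by rw [hn j, mul_comm]⟩
  · right
    push Not at hc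
    obtain ⟨j0, hj0⟩ := hc
    intro F' hF' hcur
    let t : Finset (FractionRing T) := Finset.univ.image fun j => z j / z l
    have ht : ∀ j, z j / z l ∈ t := fun j => Finset.mem_image_of_mem _ (Finset.mem_univ j)
    have ht' : ∀ a ∈ t, ∃ j, a = z j / z l := by
      intro a ha
      obtain ⟨j, -, rfl⟩ := Finset.mem_image.1 ha
      exact ⟨j, rfl⟩
    obtain ⟨S, hS⟩ := ratFam_of_tow hT hyp ghyp t ⟨_, ht j0, hj0⟩
    rw [← hval]
    exact hS.rc Pool.Agent.Y737.IL.t_RC hF' hcur hzl ht ht' fun F hF hFh => (hval F).2 (hX F hF hFh)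

/-- **The alternative for the sections of a sequence of points.** -/
theorem alternative (I : Ideal (MvPolynomial (Fin (N + 1)) ℂ)) (x : Fin (N + 1) → ℕ → ℂ)
    (hx : ∀ j, ∀ T, Tow T → ∃ T', Tow T' ∧ T ≤ T' ∧ gm (x j) ∈ T')
    (hX : ∀ F ∈ I, (∃ d, F.IsHomogeneous d) → ∀ᶠ n in atTop, aeval (fun j => x j n) F = 0) :
    ∃ m : ℕ, 0 < m ∧ ∀ i : ℕ,
      (∃ c : Fin (N + 1) → ℂ, c ≠ 0 ∧ ∀ᶠ n in atTop, ∃ s : ℂ, ∀ j, x j (m * n + i) = s * c j) ∨
      ∀ F' : MvPolynomial (Fin (N + 1)) ℂ, (∃ d, F'.IsHomogeneous d) →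
        (∀ p : Fin (N + 1) → Polynomial ℂ,
          (∀ F ∈ I, (∃ d, F.IsHomogeneous d) → aeval p F = 0) →
          (∃ j k, Polynomial.derivative (p j) * p k ≠ p j * Polynomial.derivative (p k)) →
            aeval p F' = 0) → ∀ᶠ n in atTop, aeval (fun j => x j (m * n + i)) F' = 0 := by
  obtain ⟨T, hT, -, hxT⟩ := fam (fun j => gm (x j)) hx ⊥ Tow.base
  obtain ⟨m, hm, hdom⟩ := exists_dom hT.good.1 hT.good.2.1 hT.good.2.2
  refine ⟨m, hm, fun i => ?_⟩
  refine section_alt (hT.sec hm i) ?_ I (fun j n => x j (m * n + i)) (fun j => ?_) ?_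
  · rintro _ ⟨a, ha, rfl⟩ _ ⟨b, hb, rfl⟩ hab
    exact hdom i a ha b hb hab
  · exact ⟨gm (x j), hxT j, sec_gm hm i (x j)⟩
  · intro F hF hFh
    exact (tend_sec hm i).eventually (hX F hF hFh)

end Pool.Agent.T6.H45.Hol
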