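import Pool.Agent.T6.H45.Hol.Tow

/-!
Sections of simple noetherian rings of germs which are domains.
-/

set_option autoImplicit false
set_option maxHeartbeats 400000

namespace Pool.Agent.T6.H45.Hol

open Filter

variable {T : Subalgebra ℂ G}

/-- the annihilator -/
def ann (T : Subalgebra ℂ G) (f : G) : Ideal T where
  carrier := {x | (x : G) * f = 0}
  add_mem' := by
    intro a b ha hb
    change ((a : G) + b) * f = 0
    rw [add_mul, (ha : (a : G) * f = 0), (hb : (b : G) * f = 0), add_zero]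
  zero_mem' := zero_mul f
  smul_mem' := by
    intro c a ha
    change ((c : G) * a) * f = 0
    rw [mul_assoc, (ha : (a : G) * f = 0), mul_zero]

theorem exists_max (hN : IsNoetherianRing T) :
    ∃ f ∈ T, f ≠ 0 ∧ ∀ g ∈ T, g ≠ 0 → (∀ x ∈ T, x * f = 0 → x * g = 0) →
      ∀ x ∈ T, x * g = 0 → x * f = 0 := by
  let S : Set (Ideal T) := {I | ∃ f ∈ T, f ≠ 0 ∧ I = ann T f}
  have hS : S.Nonempty := ⟨ann T 1, 1, T.one_mem, one_ne_zero, rfl⟩
  obtain ⟨I, ⟨f, hf, hf0, rfl⟩, hmax⟩ := set_has_maximal_iff_noetherian.2 hN S hS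
  refine ⟨f, hf, hf0, fun g hg hg0 hfg x hx hxg => ?_⟩
  have h1 : ¬ ann T f < ann T g := hmax _ ⟨g, hg, hg0, rfl⟩
  have h2 : ann T f ≤ ann T g := fun y hy => hfg y y.2 hy
  have h3 : ann T g ≤ ann T f := by
    by_contra h4
    exact h1 (lt_of_le_not_ge h2 h4)
  exact h3 (show (⟨x, hx⟩ : T) ∈ ann T g from hxg)

theorem zadd_apply (k l : ℤ) (x : G) : (sh ^ (k + l)) x = (sh ^ k) ((sh ^ l) x) := by
  rw [zpow_add, AlgEquiv.mul_apply]

theorem zneg_apply (k : ℤ) (x : G) : (sh ^ k) ((sh ^ (-k)) x) = x := by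
  rw [← zadd_apply, add_neg_cancel, zpow_zero]
  rfl

theorem zneg_apply' (k : ℤ) (x : G) : (sh ^ (-k)) ((sh ^ k) x) = x := by
  rw [← zadd_apply, neg_add_cancel, zpow_zero]
  rfl

theorem z_eq_zero {k : ℤ} {x : G} : (sh ^ k) x = 0 ↔ x = 0 :=
  map_eq_zero_iff _ (sh ^ k).injective

theorem span_all (hs : Smp T) (hT : Stb T) {f : G} (hf : f ∈ T) (hf0 : f ≠ 0) :
    (1 : G) ∈ Submodule.span T (Set.range fun k : ℤ => (sh ^ k) f) := by
  apply hs
  · intro x hx
    refine Submodule.span_induction (p := fun x _ => x ∈ T) ?_ T.zero_mem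
      (fun _ _ _ _ => T.add_mem) ?_ hx
    · rintro _ ⟨k, rfl⟩
      exact hT k f hf
    · intro c x _ hx
      exact T.mul_mem c.2 hx
  · intro k x hx
    refine Submodule.span_induction (p := fun x _ => (sh ^ k) x ∈
      Submodule.span T (Set.range fun k : ℤ => (sh ^ k) f)) ?_ ?_ ?_ ?_ hx
    · rintro _ ⟨j, rfl⟩
      apply Submodule.subset_span
      exact ⟨k + j, zadd_apply k j f⟩
    · rw [map_zero]
      exact Submodule.zero_mem _
    · intro x y _ _ hx hy
      rw [map_add]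
      exact Submodule.add_mem _ hx hy
    · intro c x _ hx
      have h1 : (sh ^ k) (c • x) = (⟨(sh ^ k) (c : G), hT k _ c.2⟩ : T) • (sh ^ k) x := by
        change (sh ^ k) ((c : G) * x) = (sh ^ k) (c : G) * (sh ^ k) x
        rw [map_mul]
      rw [h1]
      exact Submodule.smul_mem _ _ hx
  · refine ⟨f, Submodule.subset_span ⟨0, ?_⟩, hf0⟩
    change (sh ^ (0 : ℤ)) f = f
    rw [zpow_zero]
    rfl

theorem mul_eq_zero_of_span {s : Set G} {y z : G} (h : ∀ x ∈ s, x * y = 0)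
    (hz : z ∈ Submodule.span T s) : z * y = 0 := by
  refine Submodule.span_induction (p := fun z _ => z * y = 0) h (zero_mul y) ?_ ?_ hz
  · intro a b _ _ ha hb
    rw [add_mul, ha, hb, add_zero]
  · intro c a _ ha
    change ((c : G) * a) * y = 0
    rw [mul_assoc, ha, mul_zero]

/-- the idempotent -/
theorem exists_idem (hT : Stb T) (hs : Smp T) (hN : IsNoetherianRing T) :
    ∃ (m : ℕ) (_ : 0 < m) (e : G), e ∈ T ∧ e * e = e ∧ (sh ^ (m : ℤ)) e = e ∧
      (∀ k : ℤ, ¬ (m : ℤ) ∣ k → (sh ^ k) e * e = 0) ∧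
      (∀ a ∈ T, ∀ b ∈ T, a * b * e = 0 → a * e = 0 ∨ b * e = 0) ∧
      ∃ f : G, (∀ y : G, (∀ j : ℤ, (sh ^ j) f * y = 0) → y = 0) ∧
        (∀ j : ℤ, ¬ (m : ℤ) ∣ j → (sh ^ j) f * e = 0) ∧
        ∀ j : ℤ, (m : ℤ) ∣ j → (sh ^ j) f * e = (sh ^ j) f := by
  classical
  obtain ⟨f, hf, hf0, hmax⟩ := exists_max hN
  have hsq : ∀ x : G, x * x = 0 → x = 0 := fun x hx => by
    have h1 : x ^ 2 = 0 := by rw [sq]; exact hx
    exact pow_eq_zero_iff (two_ne_zero) |>.1 h1
  have hprime : ∀ a ∈ T, ∀ b ∈ T, a * b * f = 0 → a * f = 0 ∨ b * f = 0 := by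
    intro a ha b hb hab
    by_cases haf : a * f = 0
    · exact Or.inl haf
    · refine Or.inr (hmax (a * f) (T.mul_mem ha hf) haf (fun x _ hx => ?_) b hb ?_)
      · rw [mul_left_comm, hx, mul_zero]
      · rw [← hab]
        ring
  have K1 : ∀ k : ℤ, f * (sh ^ k) f ≠ 0 → ∀ x ∈ T, x * (sh ^ k) f = 0 → x * f = 0 := by
    intro k hk x hx hxk
    refine hmax (f * (sh ^ k) f) (T.mul_mem hf (hT k f hf)) hk (fun y _ hy => ?_) x hx ?_
    · rw [← mul_assoc, hy, zero_mul]
    · rw [mul_left_comm, hxk, mul_zero]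
  have K2 : ∀ k : ℤ, f * (sh ^ k) f ≠ 0 → ∀ x ∈ T, x * f = 0 → x * (sh ^ k) f = 0 := by
    intro k hk x hx hxf
    have h1 : f * (sh ^ (-k)) f ≠ 0 := by
      intro h0
      apply hk
      have h2 := congrArg (sh ^ k) h0
      rw [map_mul, zneg_apply, map_zero, mul_comm] at h2
      exact h2
    have h2 := K1 (-k) h1 ((sh ^ (-k)) x) (hT _ _ hx) (by rw [← map_mul, hxf, map_zero])
    have h3 := congrArg (sh ^ k) h2
    rwa [map_mul, zneg_apply, map_zero] at h3
  let S : AddSubgroup ℤ :=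
    { carrier := {k | f * (sh ^ k) f ≠ 0}
      zero_mem' := by
        change f * (sh ^ (0 : ℤ)) f ≠ 0
        rw [zpow_zero]
        intro h0
        exact hf0 (hsq f h0)
      add_mem' := by
        intro a b ha hb h0
        -- `σ^{a+b} f * f = 0`
        apply ha
        have h1 := K1 b hb ((sh ^ (-a)) f) (hT _ _ hf) (by
          have h2 := congrArg (sh ^ (-a)) h0
          rw [map_mul, map_zero, zadd_apply, zneg_apply'] at h2
          exact h2)
        have h2 := congrArg (sh ^ a) h1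
        rwa [map_mul, zneg_apply, map_zero] at h2
      neg_mem' := by
        intro a ha h0
        apply ha
        have h2 := congrArg (sh ^ a) h0
        rw [map_mul, zneg_apply, map_zero, mul_comm] at h2
        exact h2 }
  have hSm : ∀ k : ℤ, k ∈ S ↔ f * (sh ^ k) f ≠ 0 := fun k => Iff.rfl
  obtain ⟨a, ha⟩ := Int.subgroup_cyclic S
  have hSa : ∀ k : ℤ, k ∈ S ↔ ((a.natAbs : ℕ) : ℤ) ∣ k := by
    intro k
    rw [ha, AddSubgroup.mem_closure_singleton, Int.natAbs_dvd]
    constructor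
    · rintro ⟨n, hn⟩
      exact ⟨n, by rw [← hn, smul_eq_mul, mul_comm]⟩
    · rintro ⟨n, hn⟩
      exact ⟨n, by rw [hn, smul_eq_mul, mul_comm]⟩
  -- the generator is not zero
  have ha0 : 0 < a.natAbs := by
    rw [Nat.pos_iff_ne_zero]
    intro h0
    have h1 : ∀ k : ℤ, k ≠ 0 → f * (sh ^ k) f = 0 := by
      intro k hk
      by_contra h2
      have h3 := (hSa k).1 ((hSm k).2 h2)
      rw [h0, Nat.cast_zero, zero_dvd_iff] at h3
      exact hk h3
    let fT : ℤ → T := fun k => ⟨(sh ^ k) f, hT k f hf⟩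
    have hmono : Monotone (fun n : ℕ => Ideal.span (fT '' {i : ℤ | 0 ≤ i ∧ i < n})) := by
      intro n n' hn
      apply Ideal.span_mono
      apply Set.image_mono
      rintro i ⟨hi1, hi2⟩
      exact ⟨hi1, by omega⟩
    obtain ⟨n, hn⟩ := monotone_stabilizes_iff_noetherian.2 hN ⟨_, hmono⟩
    have h2 : fT n ∈ Ideal.span (fT '' {i : ℤ | 0 ≤ i ∧ i < n}) := by
      have h3 := hn (n + 1) (Nat.le_succ n)
      change Ideal.span (fT '' {i : ℤ | 0 ≤ i ∧ i < n}) =
        Ideal.span (fT '' {i : ℤ | 0 ≤ i ∧ i < (n + 1 : ℕ)}) at h3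
      rw [h3]
      exact Ideal.subset_span ⟨n, ⟨by omega, by push_cast; omega⟩, rfl⟩
    have h3 : fT n * fT n = 0 := by
      refine Submodule.span_induction (p := fun x _ => x * fT n = 0) ?_ ?_ ?_ ?_ h2
      · rintro _ ⟨i, ⟨hi1, hi2⟩, rfl⟩
        apply Subtype.ext
        change (sh ^ i) f * (sh ^ (n : ℤ)) f = 0
        have h4 := congrArg (sh ^ i) (h1 (n - i) (by omega))
        rw [map_mul, map_zero, ← zadd_apply] at h4
        rwa [show i + ((n : ℤ) - i) = n by ring] at h4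
      · exact zero_mul _
      · intro x y _ _ hx hy
        rw [add_mul, hx, hy, add_zero]
      · intro c x _ hx
        rw [smul_eq_mul, mul_assoc, hx, mul_zero]
    have h4 : (sh ^ (n : ℤ)) f * (sh ^ (n : ℤ)) f = 0 := congrArg Subtype.val h3
    exact hf0 (z_eq_zero.1 (hsq _ h4))
  set m := a.natAbs with hm
  have hor : ∀ j k : ℤ, ¬ (m : ℤ) ∣ (k - j) → (sh ^ j) f * (sh ^ k) f = 0 := by
    intro j k hjk
    have h1 : f * (sh ^ (k - j)) f = 0 := by
      by_contra h2
      exact hjk ((hSa _).1 ((hSm _).2 h2))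
    have h2 := congrArg (sh ^ j) h1
    rw [map_mul, map_zero, ← zadd_apply] at h2
    rwa [show j + (k - j) = k by ring] at h2
  have h1 := span_all hs hT hf hf0
  have hsplit : (Set.range fun k : ℤ => (sh ^ k) f) =
      ((fun k : ℤ => (sh ^ k) f) '' {k | (m : ℤ) ∣ k}) ∪
        ((fun k : ℤ => (sh ^ k) f) '' {k | ¬ (m : ℤ) ∣ k}) := by
    rw [← Set.image_union, ← Set.image_univ]
    congr 1
    ext k
    simp only [Set.mem_univ, Set.mem_union, Set.mem_ofPred_eq, true_iff]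
    exact em _
  have h1' := h1
  rw [hsplit, Submodule.span_union, Submodule.mem_sup] at h1'
  obtain ⟨e, he, e', he', hee⟩ := h1'
  have heT : e ∈ T := by
    refine Submodule.span_induction (p := fun x _ => x ∈ T) ?_ T.zero_mem
      (fun _ _ _ _ => T.add_mem) ?_ he
    · rintro _ ⟨k, -, rfl⟩
      exact hT k f hf
    · intro c x _ hx
      exact T.mul_mem c.2 hx
  have E0 : ∀ j : ℤ, ¬ (m : ℤ) ∣ j → (sh ^ j) f * e = 0 := by
    intro j hj
    rw [mul_comm]
    refine mul_eq_zero_of_span ?_ he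
    rintro _ ⟨k, hk, rfl⟩
    apply hor
    intro h2
    exact hj ((dvd_iff_dvd_of_dvd_sub h2).2 hk)
  have E1 : ∀ j : ℤ, (m : ℤ) ∣ j → (sh ^ j) f * e = (sh ^ j) f := by
    intro j hj
    have h2 : e' * (sh ^ j) f = 0 := by
      refine mul_eq_zero_of_span ?_ he'
      rintro _ ⟨k, hk, rfl⟩
      apply hor
      intro h2
      exact hk ((dvd_iff_dvd_of_dvd_sub h2).1 hj)
    calc (sh ^ j) f * e = (sh ^ j) f * (e + e') - e' * (sh ^ j) f := by ring
      _ = (sh ^ j) f := by rw [hee, h2, mul_one, sub_zero]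
  have U : ∀ y : G, (∀ j : ℤ, (sh ^ j) f * y = 0) → y = 0 := by
    intro y hy
    have h2 : (1 : G) * y = 0 := mul_eq_zero_of_span (by
      rintro _ ⟨k, rfl⟩
      exact hy k) h1
    rwa [one_mul] at h2
  refine ⟨m, ha0, e, heT, ?_, ?_, ?_, ?_, f, U, E0, E1⟩
  · rw [← sub_eq_zero]
    apply U
    intro j
    by_cases hj : (m : ℤ) ∣ j
    · rw [mul_sub, ← mul_assoc, E1 j hj, E1 j hj, sub_self]
    · rw [mul_sub, ← mul_assoc, E0 j hj, zero_mul, sub_zero]
  · rw [← sub_eq_zero]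
    apply U
    intro j
    have h2 : (sh ^ j) f * (sh ^ (m : ℤ)) e = (sh ^ (m : ℤ)) ((sh ^ (j - m)) f * e) := by
      rw [map_mul, ← zadd_apply, add_sub_cancel]
    rw [mul_sub, h2]
    by_cases hj : (m : ℤ) ∣ j
    · rw [E1 j hj, E1 (j - m) (dvd_sub_self_right.2 hj), ← zadd_apply, add_sub_cancel, sub_self]
    · rw [E0 j hj, E0 (j - m) (fun h3 => hj (dvd_sub_self_right.1 h3)), map_zero, sub_zero]
  · intro k hk
    apply U
    intro j
    by_cases hj : (m : ℤ) ∣ j
    · have h2 : (sh ^ j) f * ((sh ^ k) e * e) = (sh ^ j) f * e * (sh ^ k) e := by ring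
      have h3 : (sh ^ j) f * (sh ^ k) e = (sh ^ k) ((sh ^ (j - k)) f * e) := by
        rw [map_mul, ← zadd_apply, add_sub_cancel]
      rw [h2, E1 j hj, h3, E0, map_zero]
      intro h4
      exact hk ((dvd_iff_dvd_of_dvd_sub h4).1 hj)
    · have h2 : (sh ^ j) f * ((sh ^ k) e * e) = (sh ^ j) f * e * (sh ^ k) e := by ring
      rw [h2, E0 j hj, zero_mul]
  · have hef : ∀ x ∈ T, x * e = 0 ↔ x * f = 0 := by
      intro x hx
      constructor
      · intro h2
        have h3 := E1 0 (dvd_zero _)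
        rw [zpow_zero] at h3
        have h4 : f * e = f := h3
        rw [← h4]
        calc x * (f * e) = (x * e) * f := by ring
          _ = 0 := by rw [h2, zero_mul]
      · intro h2
        rw [mul_comm]
        refine mul_eq_zero_of_span ?_ he
        rintro _ ⟨k, hk, rfl⟩
        change (sh ^ k) f * x = 0
        rw [mul_comm]
        exact K2 k ((hSm k).1 ((hSa k).2 hk)) x hx h2
    intro a ha b hb hab
    rw [hef a ha, hef b hb]
    exact hprime a ha b hb ((hef _ (T.mul_mem ha hb)).1 hab)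

end Pool.Agent.T6.H45.Hol
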