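import Pool.Agent.T6.H45.Hol.Dom

/-!
Sections of simple noetherian rings of germs are domains.
-/

set_option autoImplicit false
set_option maxHeartbeats 400000

namespace Pool.Agent.T6.H45.Hol

open Filter

variable {T : Subalgebra ℂ G}

/-- **Sections of simple noetherian rings are domains.** -/
theorem exists_dom (hT : Stb T) (hs : Smp T) (hN : IsNoetherianRing T) :
    ∃ (m : ℕ) (hm : 0 < m), ∀ i : ℕ, ∀ a ∈ T, ∀ b ∈ T, sec hm i a * sec hm i b = 0 →
      sec hm i a = 0 ∨ sec hm i b = 0 := by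
  classical
  obtain ⟨m, hm, e, heT, hee, hme, hke, hpr, f, U, E0, E1⟩ := exists_idem hT hs hN
  refine ⟨m, hm, fun i => ?_⟩
  have hdv : ∀ k : ℤ, (m : ℤ) ∣ k → (sh ^ k) e = e := by
    rintro k ⟨l, rfl⟩
    induction l using Int.induction_on with
    | zero =>
      rw [mul_zero, zpow_zero]
      rfl
    | succ l ih => rw [mul_add, mul_one, zadd_apply, hme, ih]
    | pred l ih =>
      rw [mul_sub, mul_one, sub_eq_add_neg, zadd_apply]
      have h1 : (sh ^ (-(m : ℤ))) e = e := by
        conv_lhs => rw [← hme, zneg_apply']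
      rw [h1, ih]
  -- the sum of the translates
  have hsum : ∑ r ∈ Finset.range m, (sh ^ (r : ℤ)) e = 1 := by
    rw [← sub_eq_zero]
    apply U
    intro j
    rw [mul_sub, mul_one, Finset.mul_sum]
    have h1 : ∀ r : ℕ, (sh ^ j) f * (sh ^ (r : ℤ)) e = (sh ^ (r : ℤ)) ((sh ^ (j - r)) f * e) := by
      intro r
      rw [map_mul, ← zadd_apply, add_sub_cancel]
    have hmz : (0 : ℤ) < m := by exact_mod_cast hm
    have h2 : (((j % m).toNat : ℕ) : ℤ) = j % m := Int.toNat_of_nonneg (Int.emod_nonneg _ hmz.ne')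
    rw [Finset.sum_eq_single (j % m).toNat]
    · rw [h1, h2, E1, ← zadd_apply, add_sub_cancel, sub_self]
      exact Int.dvd_self_sub_emod
    · intro r hr hne
      rw [h1, E0, map_zero]
      intro h3
      apply hne
      have h4 : (r : ℤ) = j % m := by
        have h5 : (r : ℤ) % m = j % m := Int.modEq_iff_dvd.2 h3
        rw [← h5, Int.emod_eq_of_lt (by omega) (by exact_mod_cast Finset.mem_range.1 hr)]
      omega
    · intro h3
      exfalso
      apply h3
      rw [Finset.mem_range]
      have h4 := Int.emod_lt_of_pos j hmz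
      omega
  -- a translate with value one on the section
  obtain ⟨r, hr⟩ : ∃ r : ℕ, sec hm i ((sh ^ (r : ℤ)) e) = 1 := by
    have h1 : ∀ r : ℕ, sec hm i ((sh ^ (r : ℤ)) e) = 0 ∨ sec hm i ((sh ^ (r : ℤ)) e) = 1 := by
      intro r
      have h2 : sh (sec hm i ((sh ^ (r : ℤ)) e)) = sec hm i ((sh ^ (r : ℤ)) e) := by
        rw [← sec_sh, ← zpow_natCast, ← zadd_apply, add_comm, zadd_apply, hme]
      obtain ⟨c, hc⟩ := sh_const h2
      have h3 : sec hm i ((sh ^ (r : ℤ)) e) * sec hm i ((sh ^ (r : ℤ)) e) =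
          sec hm i ((sh ^ (r : ℤ)) e) := by
        rw [← map_mul, ← map_mul, hee]
      rw [hc, ← map_mul] at h3
      have h4 := algebraMap_inj h3
      rw [hc]
      have h4' : c * (c - 1) = 0 := by linear_combination h4
      rcases mul_eq_zero.1 h4' with h5 | h5
      · left
        rw [h5, map_zero]
      · right
        rw [sub_eq_zero.1 h5, map_one]
    by_contra hcon
    push Not at hcon
    have h2 : ∀ r : ℕ, sec hm i ((sh ^ (r : ℤ)) e) = 0 := fun r => (h1 r).resolve_right (hcon r)
    have h3 := congrArg (sec hm i) hsum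
    rw [map_sum, map_one] at h3
    rw [Finset.sum_eq_zero (fun r _ => h2 r)] at h3
    exact zero_ne_one h3
  set g := (sh ^ (r : ℤ)) e with hg
  have hgT : g ∈ T := hT _ _ heT
  have hgp : ∀ a ∈ T, ∀ b ∈ T, a * b * g = 0 → a * g = 0 ∨ b * g = 0 := by
    intro a ha b hb hab
    have hsh : ∀ x : G, (sh ^ (-(r : ℤ))) (x * g) = (sh ^ (-(r : ℤ))) x * e := by
      intro x
      rw [map_mul, hg, zneg_apply']
    have h1 := congrArg (sh ^ (-(r : ℤ))) hab
    rw [hsh, map_zero, map_mul] at h1
    rcases hpr _ (hT _ _ ha) _ (hT _ _ hb) h1 with h2 | h2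
    · left
      rw [← hsh, z_eq_zero] at h2
      exact h2
    · right
      rw [← hsh, z_eq_zero] at h2
      exact h2
  have hgk : ∀ k : ℤ, ¬ (m : ℤ) ∣ k → (sh ^ k) g * g = 0 := by
    intro k hk
    have h1 := congrArg (sh ^ (r : ℤ)) (hke k hk)
    rw [map_mul, map_zero, ← zadd_apply, add_comm, zadd_apply] at h1
    exact h1
  have hgd : ∀ k : ℤ, (m : ℤ) ∣ k → (sh ^ k) g = g := by
    intro k hk
    rw [hg, ← zadd_apply, add_comm, zadd_apply, hdv k hk]
  have hker : ∀ x ∈ T, sec hm i x = 0 → x * g = 0 := by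
    intro x hx hx0
    by_contra hne
    have h1 := span_all hs hT (T.mul_mem hx hgT) hne
    have h2 : sec hm i (1 * g) = 0 := by
      refine Submodule.span_induction (p := fun z _ => sec hm i (z * g) = 0) ?_ ?_ ?_ ?_ h1
      · rintro _ ⟨k, rfl⟩
        change sec hm i ((sh ^ k) (x * g) * g) = 0
        by_cases hk : (m : ℤ) ∣ k
        · obtain ⟨l, rfl⟩ := hk
          rw [map_mul, map_mul, map_mul, sec_sh_zpow, hx0, map_zero, zero_mul, zero_mul]
        · rw [show (sh ^ k) (x * g) * g = (sh ^ k) x * ((sh ^ k) g * g) by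
            rw [map_mul, mul_assoc], hgk k hk, mul_zero, map_zero]
      · rw [zero_mul, map_zero]
      · intro y z _ _ hy hz
        rw [add_mul, map_add, hy, hz, add_zero]
      · intro c y _ hy
        change sec hm i (((c : G) * y) * g) = 0
        rw [mul_assoc, map_mul, hy, mul_zero]
    rw [one_mul, hr] at h2
    exact one_ne_zero h2
  have hback : ∀ x : G, x * g = 0 → sec hm i x = 0 := by
    intro x hx
    have h1 := congrArg (sec hm i) hx
    rwa [map_mul, hr, mul_one, map_zero] at h1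
  intro a ha b hb hab
  rw [← map_mul] at hab
  rcases hgp a ha b hb (hker _ (T.mul_mem ha hb) hab) with h1 | h1
  · exact Or.inl (hback a h1)
  · exact Or.inr (hback b h1)

end Pool.Agent.T6.H45.Hol
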