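import Pool.Agent.T6.H45.Hol.Germ

/-!
Evaluation of the germs in a finitely generated algebra at all large integers.
-/

set_option autoImplicit false

namespace Pool.Agent.T6.H45.Hol

open Filter MvPolynomial

theorem gm_aeval {ι : Type} (r : ι → ℕ → ℂ) (p : MvPolynomial ι ℂ) :
    gm (fun n => aeval (fun i => r i n) p) = aeval (fun i => gm (r i)) p := by
  have h1 : (fun n => aeval (fun i => r i n) p) = aeval r p := by
    funext n
    have h2 := MvPolynomial.comp_aeval_apply (f := r) (Pi.evalAlgHom ℂ (fun _ : ℕ => ℂ) n) p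
    exact h2.symm
  rw [h1]
  exact MvPolynomial.comp_aeval_apply (f := r) gm p

/-- evaluation of the elements of a finitely generated algebra of germs -/
theorem exists_eval (C : Subalgebra ℂ G) (hC : C.FG) :
    ∃ e : ℕ → (C →ₐ[ℂ] ℂ), ∀ c : C, gm (fun n => e n c) = c := by
  classical
  have hft : Algebra.FiniteType ℂ C := (Subalgebra.fg_iff_finiteType C).1 hC
  obtain ⟨s, Φ, hΦ⟩ := Algebra.FiniteType.iff_quotient_mvPolynomial''.mp hft
  choose r hr using fun i : Fin s => gm_surj ((Φ (X i) : C) : G)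
  let a : ℕ → (MvPolynomial (Fin s) ℂ →ₐ[ℂ] ℂ) := fun n => aeval (fun i => r i n)
  have ha : ∀ p, gm (fun n => a n p) = (Φ p : G) := by
    intro p
    have h1 := gm_aeval r p
    have h2 : (fun i => gm (r i)) = fun i => ((Φ (X i) : C) : G) := funext hr
    rw [h2] at h1
    refine h1.trans ?_
    have h3 : (aeval (fun i => ((Φ (X i) : C) : G)) : MvPolynomial (Fin s) ℂ →ₐ[ℂ] G) =
        C.val.comp Φ := by
      refine MvPolynomial.algHom_ext fun i => ?_
      rw [aeval_X]
      rfl
    rw [h3]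
    rfl
  obtain ⟨S, hS⟩ : (RingHom.ker Φ.toRingHom).FG := IsNoetherian.noetherian _
  have hev : ∀ᶠ n in atTop, ∀ g ∈ S, a n g = 0 := by
    rw [Filter.eventually_all_finset]
    intro g hg
    have h1 : g ∈ RingHom.ker Φ.toRingHom := hS ▸ Submodule.subset_span hg
    have h2 : Φ g = 0 := h1
    rw [← gm_eq_zero, ha, h2]
    rfl
  obtain ⟨N, hN⟩ := eventually_atTop.1 hev
  have hker : ∀ n, N ≤ n → ∀ p, Φ p = 0 → a n p = 0 := by
    intro n hn p hp
    have h1 : p ∈ Ideal.span (S : Set (MvPolynomial (Fin s) ℂ)) := by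
      have h2 : p ∈ RingHom.ker Φ.toRingHom := hp
      rwa [← hS] at h2
    have h2 : Ideal.span (S : Set (MvPolynomial (Fin s) ℂ)) ≤ RingHom.ker (a n).toRingHom := by
      rw [Ideal.span_le]
      intro g hg
      exact hN n hn g hg
    exact h2 h1
  refine ⟨fun n => AlgHom.liftOfSurjective Φ hΦ (a (max n N)) fun p hp =>
    hker _ (le_max_right _ _) p hp, fun c => ?_⟩
  obtain ⟨p, rfl⟩ := hΦ c
  rw [← ha p, gm_eq]
  filter_upwards [eventually_ge_atTop N] with n hn
  rw [AlgHom.liftOfSurjective_apply, max_eq_left hn]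

end Pool.Agent.T6.H45.Hol
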