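import Pool.Agent.T6.H45.Hol.Noe
import Pool.Agent.Y377.IR.Asm

/-!
The induction over towers of fields generated by fundamental matrices.
-/

set_option autoImplicit false
set_option maxHeartbeats 400000

namespace Pool.Agent.T6.H45.Hol

open Pool.Agent.Y377.EL Pool.Agent.Y377.IL Pool.Agent.Y377.IR

variable {K : Type} [Field K] [Algebra ℂ K] {Γ : Subgroup (K ≃ₐ[ℂ] K)}

/-- towers of fields generated by fundamental matrices -/
inductive FTow (Γ : Subgroup (K ≃ₐ[ℂ] K)) : IntermediateField ℂ K → Prop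
  | base : FTow Γ ⊥
  | step {F : IntermediateField ℂ K} {n : ℕ} {X Y : Matrix (Fin n) (Fin n) K} :
      FTow Γ F → FundG Γ F.toSubalgebra X Y → GSimple Γ (mat F.toSubalgebra X Y) →
        FTow Γ (frac (mat F.toSubalgebra X Y))

theorem FTow.stab {F : IntermediateField ℂ K} (h : FTow Γ F) : StabG Γ F.toSubalgebra := by
  induction h with
  | base =>
    rw [IntermediateField.bot_toSubalgebra]
    exact stabG_bot
  | step _ hF _ ih => exact fun γ hγ x hx => stabG_frac (stabG_mat ih hF) hγ hx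

theorem gSimple_field (F : IntermediateField ℂ K) : GSimple Γ F.toSubalgebra := by
  intro I hI _ ⟨x, hx, hx0⟩
  have h1 := I.smul_mem (⟨x⁻¹, F.inv_mem (hI x hx)⟩ : F.toSubalgebra) hx
  rw [Algebra.smul_def] at h1
  have h2 : x⁻¹ * x ∈ I := h1
  rwa [inv_mul_cancel₀ hx0] at h2

theorem noeth_field (F : IntermediateField ℂ K) : IsNoetherianRing F.toSubalgebra := by
  have e : F ≃+* F.toSubalgebra :=
    { toFun := fun x => ⟨x, x.2⟩
      invFun := fun x => ⟨x, x.2⟩
      left_inv := fun _ => rfl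
      right_inv := fun _ => rfl
      map_mul' := fun _ _ => rfl
      map_add' := fun _ _ => rfl }
  exact isNoetherianRing_of_ringEquiv F e

/-- the action on polynomials -/
theorem stab_aux {R : Subalgebra ℂ K} (hR : StabG Γ R) {γ : K ≃ₐ[ℂ] K} (hγ : γ ∈ Γ) :
    ∃ φ : R →+* R, Function.Injective φ ∧ ∀ (P : Polynomial R) (x : K),
      Polynomial.aeval (γ x) (P.map φ) = γ (Polynomial.aeval x P) := by
  have hγR : ∀ r : R, γ (r : K) ∈ R := fun r => hR γ hγ r r.2
  let φ : R →+* R :=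
    { toFun := fun r => ⟨γ (r : K), hγR r⟩
      map_one' := Subtype.ext (map_one γ)
      map_mul' := fun a b => Subtype.ext (map_mul γ (a : K) b)
      map_zero' := Subtype.ext (map_zero γ)
      map_add' := fun a b => Subtype.ext (map_add γ (a : K) b) }
  refine ⟨φ, fun a b hab => Subtype.ext (γ.injective (congrArg Subtype.val hab)),
    fun P x => ?_⟩
  rw [Polynomial.aeval_def, Polynomial.eval₂_map]
  have h6 : (algebraMap R K).comp φ = (γ : K →+* K).comp (algebraMap R K) := by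
    ext r
    rfl
  rw [h6]
  exact (Polynomial.hom_eval₂ P (algebraMap R K) (γ : K →+* K) x).symm

theorem stab_alg {R : Subalgebra ℂ K} (hR : StabG Γ R) {γ : K ≃ₐ[ℂ] K} (hγ : γ ∈ Γ) {x : K}
    (hx : IsAlgebraic R x) : IsAlgebraic R (γ x) := by
  obtain ⟨φ, hφ, h⟩ := stab_aux hR hγ
  obtain ⟨P, hP0, hP⟩ := hx
  exact ⟨P.map φ, (Polynomial.map_ne_zero_iff hφ).2 hP0, by rw [h, hP, map_zero]⟩

theorem stab_int {R : Subalgebra ℂ K} (hR : StabG Γ R) {γ : K ≃ₐ[ℂ] K} (hγ : γ ∈ Γ) {x : K}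
    (hx : IsIntegral R x) : IsIntegral R (γ x) := by
  obtain ⟨φ, hφ, h⟩ := stab_aux hR hγ
  obtain ⟨P, hP0, hP⟩ := hx
  refine ⟨P.map φ, hP0.map φ, ?_⟩
  have h1 := h P x
  rw [Polynomial.aeval_def, Polynomial.aeval_def, hP, map_zero] at h1
  exact h1

theorem int_of_alg {F : IntermediateField ℂ K} {x : K} (hx : IsAlgebraic F.toSubalgebra x) :
    IsIntegral F.toSubalgebra x := by
  obtain ⟨y, hy0, hy⟩ := hx.exists_integral_multiple
  have hy0' : (y : K) ≠ 0 := fun h => hy0 (Subtype.ext h)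
  have h1 : x = ((⟨(y : K)⁻¹, F.inv_mem y.2⟩ : F.toSubalgebra) : K) * (y • x) := by
    rw [Algebra.smul_def]
    change x = (y : K)⁻¹ * ((y : K) * x)
    rw [inv_mul_cancel_left₀ hy0']
  rw [h1]
  exact (isIntegral_algebraMap (R := F.toSubalgebra) (A := K)
    (x := (⟨(y : K)⁻¹, F.inv_mem y.2⟩ : F.toSubalgebra))).mul hy

/-- **The induction over towers of fields.** -/
theorem FTow.main (H : Hyp) (GG : GHyp) (hC : CstG Γ) {F : IntermediateField ℂ K}
    (h : FTow Γ F) : ∀ E : IntermediateField ℂ K, F ≤ E → StabG Γ E.toSubalgebra →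
      FGmod F.toSubalgebra E.toSubalgebra → ∀ t : Finset K, (∀ x ∈ t, x ∈ E) →
        (∃ x ∈ t, ¬ IsAlgebraic (⊥ : Subalgebra ℂ K) x) → ∃ S : Subalgebra ℂ K, RatFam S t := by
  classical
  induction h with
  | base =>
    intro E hFE hS hfg t ht ⟨x, hx, hxc⟩
    rw [IntermediateField.bot_toSubalgebra] at hfg
    exact absurd (fgmod_alg bot_le hfg (ht x hx)).isAlgebraic hxc
  | @step F n X Y hR hF hs ih =>
    intro E hFE hE hfg t ht hne
    have hRst := hR.stab
    have hBst : StabG Γ (mat F.toSubalgebra X Y) := stabG_mat hRst hF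
    have hBE : mat F.toSubalgebra X Y ≤ E.toSubalgebra := fun x hx => hFE (le_frac _ hx)
    have hfgS := fgmod_closure hBE hfg
    set S : Subalgebra ℂ K := E.toSubalgebra ⊓ icl (mat F.toSubalgebra X Y) with hS
    have hBS : mat F.toSubalgebra X Y ≤ S := le_inf hBE (le_icl _)
    have hSst : StabG Γ S := fun γ hγ x hx => ⟨hE γ hγ x hx.1, stab_int hBst hγ hx.2⟩
    have hSint : ∀ x ∈ S, IsIntegral (mat F.toSubalgebra X Y) x := fun x hx => hx.2
    have hEalg : ∀ x ∈ E, IsAlgebraic (mat F.toSubalgebra X Y) x := fun x hx =>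
      alg_trans (fun y hy => le_frac _ hy) (fun y hy => frac_alg (fun z hz => alg_of_mem hz) hy)
        (fgmod_alg hFE hfg hx).isAlgebraic
    have htS : ∀ x ∈ t, x ∈ frac S := by
      intro x hx
      obtain ⟨y, hy0, hy⟩ := (hEalg x (ht x hx)).exists_integral_multiple
      refine ⟨y, hBS y.2, fun h0 => hy0 (Subtype.ext h0), ?_, ?_⟩
      · exact E.mul_mem (hBE y.2) (ht x hx)
      · rw [Algebra.smul_def] at hy
        exact hy
    have hSsim : GSimple Γ S := hs.alg hBS hBst fun x hx => (hSint x hx).isAlgebraic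
    by_cases hall : ∀ x ∈ t, IsAlgebraic F.toSubalgebra x
    · -- everything is algebraic over the previous field
      have hfg1 : FGmod F.toSubalgebra (S ⊓ algC F.toSubalgebra) :=
        GG.fb K Γ F.toSubalgebra (mat F.toSubalgebra X Y) S (le_mat _ X Y) hBS hRst hBst hSst hs
          (noeth_field F) (GG.fa K Γ F.toSubalgebra hRst (gSimple_field F) (noeth_field F) n X Y hF)
          hfgS
      set U : Subalgebra ℂ K := S ⊓ algC F.toSubalgebra with hU
      have hFU : F.toSubalgebra ≤ U := le_inf ((le_mat _ X Y).trans hBS) fun x hx => alg_of_mem hx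
      have hUinv : ∀ x ∈ U, x⁻¹ ∈ U := by
        intro x hx
        by_cases hx0 : x = 0
        · rw [hx0, inv_zero]
          exact U.zero_mem
        obtain ⟨c, hc, hc0, P, hP⟩ := exists_base hx.2 hx0
        have h1 : Polynomial.aeval x P ∈ U := by
          rw [Polynomial.aeval_eq_sum_range]
          refine U.sum_mem fun i _ => ?_
          rw [Algebra.smul_def]
          exact U.mul_mem (hFU (P.coeff i).2) (U.pow_mem hx i)
        have h2 : x⁻¹ = c⁻¹ * Polynomial.aeval x P := by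
          rw [eq_inv_mul_iff_mul_eq₀ hc0, hP]
          field_simp
        rw [h2]
        exact U.mul_mem (hFU (F.inv_mem hc)) h1
      have hUE : (frac U).toSubalgebra = U := by
        apply le_antisymm
        · rintro x ⟨r, hr, hr0, hrx⟩
          have h1 : x = r⁻¹ * (r * x) := by rw [← mul_assoc, inv_mul_cancel₀ hr0, one_mul]
          rw [h1]
          exact U.mul_mem (hUinv r hr) hrx
        · exact fun x hx => le_frac U hx
      have hUst : StabG Γ U := fun γ hγ x hx => ⟨hSst γ hγ x hx.1, stab_alg hRst hγ hx.2⟩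
      refine ih (frac U) (fun x hx => le_frac U (hFU hx)) ?_ ?_ t (fun x hx => ?_) hne
      · rw [hUE]
        exact hUst
      · rw [hUE]
        exact hfg1
      · apply le_frac U
        have h1 := hall x hx
        exact ⟨⟨ht x hx, int_mono (le_mat _ X Y) (int_of_alg h1)⟩, h1⟩
    · push Not at hall
      obtain ⟨x, hx, hxt⟩ := hall
      have hxa : IsAlgebraic (mat F.toSubalgebra X Y) x := hEalg x (ht x hx)
      obtain ⟨δ, ξ, hδ1, hδ2, hδ3⟩ := GG.der K Γ hC F.toSubalgebra hRst n X Y hF x hxa hxt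
      obtain ⟨-, -, -, hN4⟩ := H.noe K 0 F.toSubalgebra n X Y 0 hF.toFund
      obtain ⟨hY, hst, -⟩ := hN4 δ hδ1 ξ hδ3
      have hge := H.ge K δ F.toSubalgebra n X Y ξ hδ1 hδ3 hY
      obtain ⟨δ', hst', hcom', hx', hor⟩ := GG.sp K Γ δ (mat F.toSubalgebra X Y) hBst hst
        (comm_mat H.noe hRst hF hδ1 hδ3) hge x hxa hδ2
      obtain ⟨hstS, -⟩ := GG.com K Γ δ' (mat F.toSubalgebra X Y) S hBS hBst hSst hSsim hfgS hst'
        hcom'
      rcases hor with hnil | hss
      · obtain ⟨M0, i1, i2, φ, h1, h2⟩ := H.cn K δ' S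
          (H.apn K δ' (mat F.toSubalgebra X Y) S hBS hfgS hst' hstS hnil)
        refine ⟨S, S, M0, i1, i2, φ, le_rfl, htS, fun y _ hy => hy, ⟨⟨x, htS x hx⟩, hx, fun c hc =>
          hx' (h1 ⟨x, htS x hx⟩ c hc)⟩, fun y hy => ?_⟩
        obtain ⟨p, hp⟩ := h2 y hy
        exact ⟨p, 0, by rw [pow_zero, mul_one, hp]⟩
      · obtain ⟨S0, M0, i1, i2, φ, h1, h2, h3, h4, h5⟩ := H.ce K δ' S
          (H.ape K δ' (mat F.toSubalgebra X Y) S hBS hfgS hst' hstS hss) t htS
        exact ⟨S, S0, M0, i1, i2, φ, h1, h2, h3, ⟨⟨x, h2 x hx⟩, hx, fun c hc =>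
          hx' (h4 ⟨x, h2 x hx⟩ c hc)⟩, h5⟩

end Pool.Agent.T6.H45.Hol
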