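import Pool.Agent.T6.H45.Hol.Dom2
import Pool.Agent.T6.H45.Hol.FTow

/-!
The fraction field of a tower of germs.
-/

set_option autoImplicit false
set_option maxHeartbeats 400000

namespace Pool.Agent.T6.H45.Hol

open Pool.Agent.Y377.EL Pool.Agent.Y377.IL Pool.Agent.Y377.IR

variable {T : Subalgebra ℂ G}

/-- the shift on a stable ring -/
noncomputable def shE (hT : Stb T) : T ≃ₐ[ℂ] T where
  toFun x := ⟨sh x, hT.one x.2⟩
  invFun x := ⟨sh⁻¹ x, hT.neg x.2⟩
  left_inv x := Subtype.ext (sh.symm_apply_apply (x : G))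
  right_inv x := Subtype.ext (sh.apply_symm_apply (x : G))
  map_mul' x y := Subtype.ext (map_mul sh (x : G) y)
  map_add' x y := Subtype.ext (map_add sh (x : G) y)
  commutes' c := Subtype.ext (sh.commutes c)

variable [IsDomain T]

/-- the shift on the fraction field -/
noncomputable def gam (hT : Stb T) : FractionRing T ≃ₐ[ℂ] FractionRing T :=
  IsFractionRing.algEquivOfAlgEquiv (shE hT)

/-- the inclusion -/
noncomputable def io (x : T) : FractionRing T := algebraMap T (FractionRing T) x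

theorem io_inj : Function.Injective (io : T → FractionRing T) :=
  IsFractionRing.injective T (FractionRing T)

theorem io_add (x y : T) : io (x + y) = io x + io y := map_add _ _ _
theorem io_mul (x y : T) : io (x * y) = io x * io y := map_mul _ _ _
theorem io_zero : io (0 : T) = 0 := map_zero _
theorem io_one : io (1 : T) = 1 := map_one _
theorem io_C (c : ℂ) : io (algebraMap ℂ T c) = algebraMap ℂ (FractionRing T) c :=
  (IsScalarTower.algebraMap_apply ℂ T (FractionRing T) c).symm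

theorem io_div (x : FractionRing T) : ∃ a b : T, b ≠ 0 ∧ x = io a / io b := by
  obtain ⟨a, b, hb, h⟩ := IsFractionRing.div_surjective T x
  exact ⟨a, b, nonZeroDivisors.ne_zero hb, h.symm⟩

theorem gam_io (hT : Stb T) (x : T) : gam hT (io x) = io (shE hT x) :=
  IsFractionRing.algEquivOfAlgEquiv_algebraMap (shE hT) x

theorem gam_zpow (hT : Stb T) (k : ℤ) (x : T) :
    (gam hT ^ k) (io x) = io ⟨(sh ^ k) (x : G), hT k x x.2⟩ := by
  induction k using Int.induction_on generalizing x with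
  | zero => rfl
  | succ k ih =>
    rw [zpow_add, zpow_one, AlgEquiv.mul_apply, gam_io, ih]
    exact congrArg io (Subtype.ext (zadd_apply _ 1 _).symm)
  | pred k ih =>
    have h1 : (gam hT)⁻¹ (io x) = io ((shE hT).symm x) := by
      change (gam hT).symm (io x) = _
      rw [AlgEquiv.symm_apply_eq, gam_io, AlgEquiv.apply_symm_apply]
    rw [zpow_sub, zpow_one, AlgEquiv.mul_apply, h1, ih]
    exact congrArg io (Subtype.ext (zadd_apply _ (-1) _).symm)

/-- the group generated by the shift -/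
noncomputable def Gam (hT : Stb T) : Subgroup (FractionRing T ≃ₐ[ℂ] FractionRing T) :=
  Subgroup.zpowers (gam hT)

/-- the image of a subring -/
noncomputable def im (R : Subalgebra ℂ G) : Subalgebra ℂ (FractionRing T) :=
  (R.comap T.val).map (IsScalarTower.toAlgHom ℂ T (FractionRing T))

theorem mem_im {R : Subalgebra ℂ G} {x : FractionRing T} :
    x ∈ im (T := T) R ↔ ∃ f : T, (f : G) ∈ R ∧ io f = x := Iff.rfl

theorem stabG_im (hT : Stb T) {R : Subalgebra ℂ G} (hR : Stb R) :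
    StabG (Gam hT) (im (T := T) R) := by
  rintro _ ⟨k, rfl⟩ _ ⟨f, hf, rfl⟩
  exact ⟨⟨(sh ^ k) (f : G), hT k f f.2⟩, hR k _ hf, (gam_zpow hT k f).symm⟩

theorem gSimple_im (hT : Stb T) {R : Subalgebra ℂ G} (hRT : R ≤ T) (hR : Stb R) (hs : Smp R) :
    GSimple (Gam hT) (im (T := T) R) := by
  intro I hI hIk ⟨x, hx, hx0⟩
  obtain ⟨f, hf, rfl⟩ := hI x hx
  let J : Submodule R G :=
    { carrier := {f | ∃ hf : f ∈ R, io (⟨f, hRT hf⟩ : T) ∈ I}
      add_mem' := by
        rintro a b ⟨ha, ha'⟩ ⟨hb, hb'⟩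
        refine ⟨R.add_mem ha hb, ?_⟩
        have h1 : io (⟨a + b, hRT (R.add_mem ha hb)⟩ : T) = io (⟨a, hRT ha⟩ : T) +
            io (⟨b, hRT hb⟩ : T) := io_add ⟨a, hRT ha⟩ ⟨b, hRT hb⟩
        rw [h1]
        exact I.add_mem ha' hb'
      zero_mem' := ⟨R.zero_mem, by
        have h1 : (⟨0, hRT R.zero_mem⟩ : T) = 0 := rfl
        rw [h1, io_zero]
        exact I.zero_mem⟩
      smul_mem' := by
        rintro c a ⟨ha, ha'⟩
        refine ⟨R.mul_mem c.2 ha, ?_⟩
        have h1 : (io (⟨c • a, hRT (R.mul_mem c.2 ha)⟩ : T)) =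
            (⟨io (⟨c, hRT c.2⟩ : T), ⟨⟨c, hRT c.2⟩, c.2, rfl⟩⟩ : im (T := T) R) •
              io (⟨a, hRT ha⟩ : T) := by
          rw [Algebra.smul_def]
          exact io_mul (⟨c, hRT c.2⟩ : T) ⟨a, hRT ha⟩
        change io (⟨c • a, _⟩ : T) ∈ I
        rw [h1]
        exact I.smul_mem _ ha' }
  obtain ⟨h1, h2⟩ := hs J (fun f hf => hf.1) (by
    rintro k g ⟨hg, hg'⟩
    refine ⟨hR k g hg, ?_⟩
    have h3 := hIk (gam hT ^ k) ⟨k, rfl⟩ _ hg'
    rw [gam_zpow] at h3
    exact h3) ⟨f, ⟨hf, hx⟩, fun h0 => hx0 (by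
      have h3 : f = 0 := Subtype.ext h0
      change io f = 0
      rw [h3, io_zero])⟩
  have h3 : (⟨1, hRT h1⟩ : T) = 1 := rfl
  rw [h3, io_one] at h2
  exact h2

/-- the invariants are constants -/
theorem cstG (hT : Stb T) (hs : Smp T) : CstG (Gam hT) := by
  intro x hx
  have hx1 : ∀ k : ℤ, (gam hT ^ k) x = x := fun k => hx _ ⟨k, rfl⟩
  let J : Submodule T G :=
    { carrier := {f | ∃ hf : f ∈ T, io (⟨f, hf⟩ : T) * x ∈ im (T := T) T}
      add_mem' := by
        rintro a b ⟨ha, ha'⟩ ⟨hb, hb'⟩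
        refine ⟨T.add_mem ha hb, ?_⟩
        have h1 : io (⟨a + b, T.add_mem ha hb⟩ : T) = io (⟨a, ha⟩ : T) + io (⟨b, hb⟩ : T) :=
          io_add ⟨a, ha⟩ ⟨b, hb⟩
        rw [h1, add_mul]
        exact (im (T := T) T).add_mem ha' hb'
      zero_mem' := ⟨T.zero_mem, by
        have h1 : (⟨0, T.zero_mem⟩ : T) = 0 := rfl
        rw [h1, io_zero, zero_mul]
        exact (im (T := T) T).zero_mem⟩
      smul_mem' := by
        rintro c a ⟨ha, ha'⟩
        refine ⟨T.mul_mem c.2 ha, ?_⟩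
        have h1 : io (⟨c • a, T.mul_mem c.2 ha⟩ : T) = io c * io (⟨a, ha⟩ : T) :=
          io_mul c ⟨a, ha⟩
        rw [h1, mul_assoc]
        exact (im (T := T) T).mul_mem ⟨c, c.2, rfl⟩ ha' }
  obtain ⟨a, b, hb, hab⟩ := io_div x
  have hb0 : io b ≠ 0 := fun h0 => hb (io_inj (by rw [h0, io_zero]))
  obtain ⟨h1, h2⟩ := hs J (fun f hf => hf.1) (by
    rintro k g ⟨hg, f, hf, hgf⟩
    refine ⟨hT k g hg, ⟨(sh ^ k) (f : G), hT k f f.2⟩, hT k _ hf, ?_⟩
    have e1 : io f = io (⟨g, hg⟩ : T) * x := hgf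
    have e2 := congrArg (gam hT ^ k) e1
    rw [gam_zpow, map_mul, hx1, gam_zpow] at e2
    exact e2) ⟨b, ⟨b.2, a, a.2, by
      rw [hab, mul_div_cancel₀ _ hb0]
      rfl⟩, fun h0 => hb (Subtype.ext h0)⟩
  have h3 : (⟨1, h1⟩ : T) = 1 := rfl
  rw [h3, io_one, one_mul] at h2
  obtain ⟨f, -, rfl⟩ := h2
  have h4 := hx1 1
  change (gam hT ^ (1 : ℤ)) (io f) = io f at h4
  rw [gam_zpow] at h4
  have h5 : (sh ^ (1 : ℤ)) (f : G) = f := congrArg Subtype.val (io_inj h4)
  rw [zpow_one] at h5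
  obtain ⟨c, hc⟩ := sh_const h5
  refine ⟨c, ?_⟩
  rw [← io_C]
  have h6 : f = algebraMap ℂ T c := Subtype.ext hc
  rw [h6]
  rfl

end Pool.Agent.T6.H45.Hol
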