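import Pool.Agent.T6.H45.Hol.Fld

/-!
The fraction field of a tower of germs is a tower of fields.
-/

set_option autoImplicit false
set_option maxHeartbeats 400000

namespace Pool.Agent.T6.H45.Hol

open Pool.Agent.Y377.EL Pool.Agent.Y377.IL Pool.Agent.Y377.IR

section field

variable {K : Type} [Field K] [Algebra ℂ K] {Γ : Subgroup (K ≃ₐ[ℂ] K)}

/-- fraction fields and matrices -/
theorem mat_frac (R : Subalgebra ℂ K) {n : ℕ} (X Y : Matrix (Fin n) (Fin n) K) :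
    mat (frac R).toSubalgebra X Y = loc R (mat R X Y) (le_mat R X Y) := by
  apply le_antisymm
  · refine sup_le (fun x hx => frac_le_loc _ hx) (Algebra.adjoin_le ?_)
    rintro x ⟨i, j, rfl | rfl⟩
    · exact le_loc _ (mem_mat_left R X Y i j)
    · exact le_loc _ (mem_mat_right R X Y i j)
  · rintro x ⟨r, hr, hr0, hx⟩
    have h1 : mat R X Y ≤ mat (frac R).toSubalgebra X Y :=
      sup_le_sup (fun x hx => le_frac R hx) le_rfl
    have h2 : x = r⁻¹ * (r * x) := by rw [← mul_assoc, inv_mul_cancel₀ hr0, one_mul]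
    rw [h2]
    refine Subalgebra.mul_mem _ (le_mat _ X Y ?_) (h1 hx)
    exact (frac R).inv_mem (le_frac R hr)

theorem frac_loc (R S : Subalgebra ℂ K) (h : R ≤ S) : frac (loc R S h) = frac S := by
  apply le_antisymm
  · rintro x ⟨a, ⟨r, hr, hr0, hra⟩, ha0, ⟨s, hs, hs0, hsx⟩⟩
    refine ⟨r * s * a, ?_, mul_ne_zero (mul_ne_zero hr0 hs0) ha0, ?_⟩
    · have h1 : r * s * a = s * (r * a) := by ring
      rw [h1]
      exact S.mul_mem (h hs) hra
    · have h1 : r * s * a * x = r * (s * (a * x)) := by ring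
      rw [h1]
      exact S.mul_mem (h hr) hsx
  · exact fun x hx => frac_mono (le_loc h) hx

theorem frac_bot : frac (⊥ : Subalgebra ℂ K) = ⊥ := by
  apply le_antisymm
  · rintro x ⟨r, hr, hr0, hx⟩
    obtain ⟨c, rfl⟩ := Algebra.mem_bot.1 hr
    obtain ⟨d, hd⟩ := Algebra.mem_bot.1 hx
    rw [IntermediateField.mem_bot]
    refine ⟨c⁻¹ * d, ?_⟩
    rw [map_mul, map_inv₀, hd, inv_mul_cancel_left₀ hr0]
  · exact bot_le

/-- one step -/
theorem FTow.step' {R : Subalgebra ℂ K} (hR : FTow Γ (frac R)) {n : ℕ}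
    {X Y : Matrix (Fin n) (Fin n) K} (hF : FundG Γ R X Y)
    (hst : StabG Γ (mat R X Y)) (hs : GSimple Γ (mat R X Y)) : FTow Γ (frac (mat R X Y)) := by
  have h1 : FundG Γ (frac R).toSubalgebra X Y :=
    ⟨hF.inv, fun γ hγ i j => le_frac R (hF.coc γ hγ i j)⟩
  have h2 : GSimple Γ (mat (frac R).toSubalgebra X Y) := by
    rw [mat_frac]
    exact GSimple.loc _ hs hst
  have h3 := FTow.step hR h1 h2
  rwa [mat_frac, frac_loc] at h3

theorem frac_unit {R R' : Subalgebra ℂ K} (hle : R ≤ R')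
    (h2 : ∀ x ∈ R', ∃ u ∈ R, u ≠ 0 ∧ u * x ∈ R) : frac R' = frac R := by
  apply le_antisymm
  · rintro x ⟨r, hr, hr0, hx⟩
    obtain ⟨u, hu1, hu0, hur⟩ := h2 r hr
    obtain ⟨w, hw1, hw0, hwr⟩ := h2 _ hx
    refine ⟨w * (u * r), Subalgebra.mul_mem _ hw1 hur, mul_ne_zero hw0 (mul_ne_zero hu0 hr0), ?_⟩
    have h3 : w * (u * r) * x = u * (w * (r * x)) := by ring
    rw [h3]
    exact Subalgebra.mul_mem _ hu1 hwr
  · exact fun x hx => frac_mono hle hx

end field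

variable {T : Subalgebra ℂ G} [IsDomain T]

/-- the matrices over the fraction field -/
noncomputable def iM {n : ℕ} (X : Matrix (Fin n) (Fin n) G) (hX : ∀ i j, X i j ∈ T) :
    Matrix (Fin n) (Fin n) (FractionRing T) := fun i j => io ⟨X i j, hX i j⟩

omit [IsDomain T] in
theorem iM_mul {n : ℕ} {X Y Z : Matrix (Fin n) (Fin n) G} (hX : ∀ i j, X i j ∈ T)
    (hY : ∀ i j, Y i j ∈ T) (hZ : ∀ i j, Z i j ∈ T) (h : Z = X * Y) :
    iM Z hZ = iM X hX * iM Y hY := by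
  subst h
  ext i j
  rw [Matrix.mul_apply]
  unfold iM
  have h1 : (⟨(X * Y) i j, hZ i j⟩ : T) = ∑ k, (⟨X i k, hX i k⟩ : T) * ⟨Y k j, hY k j⟩ := by
    apply Subtype.ext
    rw [AddSubmonoidClass.coe_finsetSum]
    rfl
  rw [h1]
  unfold io
  rw [map_sum]
  refine Finset.sum_congr rfl fun k _ => ?_
  exact map_mul _ _ _

theorem im_mono {R S : Subalgebra ℂ G} (h : R ≤ S) : im (T := T) R ≤ im S := by
  rintro _ ⟨f, hf, rfl⟩
  exact ⟨f, h hf, rfl⟩

theorem im_matG {R : Subalgebra ℂ G} {n : ℕ} {X Y : Matrix (Fin n) (Fin n) G}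
    (hle : matG R X Y ≤ T) (hX : ∀ i j, X i j ∈ T) (hY : ∀ i j, Y i j ∈ T) :
    im (T := T) (matG R X Y) = mat (im R) (iM X hX) (iM Y hY) := by
  apply le_antisymm
  · let A : Subalgebra ℂ G :=
      { carrier := {f | ∃ hf : f ∈ T, io (⟨f, hf⟩ : T) ∈ mat (im R) (iM X hX) (iM Y hY)}
        mul_mem' := by
          rintro a b ⟨ha, ha'⟩ ⟨hb, hb'⟩
          refine ⟨T.mul_mem ha hb, ?_⟩
          have h1 : io (⟨a * b, T.mul_mem ha hb⟩ : T) = io (⟨a, ha⟩ : T) * io (⟨b, hb⟩ : T) :=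
            io_mul ⟨a, ha⟩ ⟨b, hb⟩
          rw [h1]
          exact Subalgebra.mul_mem _ ha' hb'
        add_mem' := by
          rintro a b ⟨ha, ha'⟩ ⟨hb, hb'⟩
          refine ⟨T.add_mem ha hb, ?_⟩
          have h1 : io (⟨a + b, T.add_mem ha hb⟩ : T) = io (⟨a, ha⟩ : T) + io (⟨b, hb⟩ : T) :=
            io_add ⟨a, ha⟩ ⟨b, hb⟩
          rw [h1]
          exact Subalgebra.add_mem _ ha' hb'
        algebraMap_mem' := by
          intro c
          refine ⟨T.algebraMap_mem c, ?_⟩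
          have h1 : io (⟨algebraMap ℂ G c, T.algebraMap_mem c⟩ : T) =
            algebraMap ℂ (FractionRing T) c := io_C c
          rw [h1]
          exact Subalgebra.algebraMap_mem _ c }
    have hRT : R ≤ T := le_matG.trans hle
    have h1 : matG R X Y ≤ A := by
      refine matG_le (fun f hf => ⟨hRT hf, le_mat _ _ _ ⟨⟨f, hRT hf⟩, hf, rfl⟩⟩)
        (fun i j => ⟨hX i j, ?_⟩) (fun i j => ⟨hY i j, ?_⟩)
      · exact mem_mat_left _ (iM X hX) (iM Y hY) i j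
      · exact mem_mat_right _ (iM X hX) (iM Y hY) i j
    rintro _ ⟨f, hf, rfl⟩
    obtain ⟨hf', h2⟩ := h1 hf
    exact h2
  · refine sup_le (im_mono le_matG) (Algebra.adjoin_le ?_)
    rintro x ⟨i, j, rfl | rfl⟩
    · exact ⟨⟨X i j, hX i j⟩, mem_X i j, rfl⟩
    · exact ⟨⟨Y i j, hY i j⟩, mem_Y i j, rfl⟩

/-- inverse matrices -/
theorem iM_inv {n : ℕ} {X Y : Matrix (Fin n) (Fin n) G} (hX : ∀ i j, X i j ∈ T)
    (hY : ∀ i j, Y i j ∈ T) (h : X * Y = 1) : iM X hX * iM Y hY = 1 := by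
  have h1 : ∀ i j, (1 : Matrix (Fin n) (Fin n) G) i j ∈ T := by
    intro i j
    rw [← h]
    exact mm_mem hX hY i j
  rw [← iM_mul hX hY h1 h.symm]
  ext i j
  by_cases hij : i = j
  · have h2 : (⟨(1 : Matrix (Fin n) (Fin n) G) i j, h1 i j⟩ : T) = 1 :=
      Subtype.ext (by rw [hij]; exact Matrix.one_apply_eq j)
    change io (⟨(1 : Matrix (Fin n) (Fin n) G) i j, h1 i j⟩ : T) = _
    rw [h2, io_one, hij, Matrix.one_apply_eq]
  · have h2 : (⟨(1 : Matrix (Fin n) (Fin n) G) i j, h1 i j⟩ : T) = 0 :=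
      Subtype.ext (Matrix.one_apply_ne hij)
    change io (⟨(1 : Matrix (Fin n) (Fin n) G) i j, h1 i j⟩ : T) = _
    rw [h2, io_zero, Matrix.one_apply_ne hij]

/-- the fundamental matrix over the fraction field -/
theorem fundG_im (hT : Stb T) {R : Subalgebra ℂ G} (hRT : R ≤ T) (hR : Stb R) {n : ℕ}
    {X Y : Matrix (Fin n) (Fin n) G} (hF : Fnd R X Y) (hX : ∀ i j, X i j ∈ T)
    (hY : ∀ i j, Y i j ∈ T) : FundG (Gam hT) (im (T := T) R) (iM X hX) (iM Y hY) := by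
  refine ⟨iM_inv hX hY hF.inv, ?_⟩
  rintro _ ⟨k, rfl⟩ i j
  obtain ⟨M, hM, hMX⟩ := hF.cocX hR k
  have hM' : ∀ i j, M i j ∈ T := fun i j => hRT (hM i j)
  have h3 : ∀ i j, ((sh ^ k).mapMatrix X) i j ∈ T := fun i j => hT k _ (hX i j)
  have e0 := iM_mul hM' hX h3 hMX
  have e1 : ∀ i l, (gam hT ^ k) (iM X hX i l) = (iM M hM' * iM X hX) i l := by
    intro i l
    rw [← e0]
    exact gam_zpow hT k _
  have e3 : ∑ l, (gam hT ^ k) (iM X hX i l) * iM Y hY l j = iM M hM' i j := by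
    simp only [e1]
    rw [← Matrix.mul_apply, Matrix.mul_assoc, iM_inv hX hY hF.inv, Matrix.mul_one]
  change ∑ l, (gam hT ^ k) (iM X hX i l) * iM Y hY l j ∈ im (T := T) R
  rw [e3]
  exact ⟨⟨M i j, hM' i j⟩, hM i j, rfl⟩

theorem frac_im_unit {R R' : Subalgebra ℂ G} (hle : R ≤ R') (hRT : R' ≤ T)
    (hu : ∀ x ∈ R', ∃ u ∈ R, ∃ v ∈ R', u * v = 1 ∧ u * x ∈ R) :
    frac (im (T := T) R') = frac (im (T := T) R) := by
  have h2 : ∀ x ∈ im (T := T) R', ∃ u ∈ im (T := T) R, u ≠ 0 ∧ u * x ∈ im (T := T) R := by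
    rintro _ ⟨f, hf, rfl⟩
    obtain ⟨u, hu1, v, hv, huv, huf⟩ := hu _ hf
    refine ⟨io ⟨u, hRT (hle hu1)⟩, ⟨⟨u, hRT (hle hu1)⟩, hu1, rfl⟩, fun h0 => ?_,
      ⟨⟨u, hRT (hle hu1)⟩ * f, huf, io_mul _ _⟩⟩
    have h3 : (⟨u, hRT (hle hu1)⟩ : T) = 0 := io_inj (by rw [h0, io_zero])
    have h4 : u = 0 := congrArg Subtype.val h3
    rw [h4, zero_mul] at huv
    exact zero_ne_one huv
  exact frac_unit (im_mono hle) h2

theorem im_bot : im (T := T) ⊥ = ⊥ := by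
  apply le_antisymm
  · rintro _ ⟨f, hf, rfl⟩
    obtain ⟨c, hc⟩ := Algebra.mem_bot.1 hf
    have h2 : f = algebraMap ℂ T c := Subtype.ext hc.symm
    rw [h2]
    exact Algebra.mem_bot.2 ⟨c, (io_C c).symm⟩
  · exact bot_le

/-- **The fraction field of a tower of germs is a tower.** -/
theorem fTow_im (hT : Stb T) {R : Subalgebra ℂ G} (h : Tow R) :
    R ≤ T → FTow (Gam hT) (frac (im (T := T) R)) := by
  induction h with
  | base =>
    intro _
    rw [im_bot, frac_bot]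
    exact FTow.base
  | @unit R R' hR hle hst hu ih =>
    intro hRT
    rw [frac_im_unit hle hRT hu]
    exact ih (hle.trans hRT)
  | @mat R n X Y hR hF ih =>
    intro hRT
    have hX : ∀ i j, X i j ∈ T := fun i j => hRT (mem_X i j)
    have hY : ∀ i j, Y i j ∈ T := fun i j => hRT (mem_Y i j)
    have hg := hR.good
    have hg' := (Tow.mat hR hF).good
    have hle : R ≤ T := le_matG.trans hRT
    have h1 := stabG_im hT hg'.1
    have h2 := gSimple_im hT hRT hg'.1 hg'.2.1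
    rw [im_matG hRT hX hY] at h1 h2 ⊢
    exact FTow.step' (ih hle) (fundG_im hT hle hg.1 hF hX hY) h1 h2

/-- **Rational families from towers of germs.** -/
theorem ratFam_of_tow (hT : Tow T) (H : Hyp) (GG : GHyp) (t : Finset (FractionRing T))
    (hne : ∃ x ∈ t, ∀ c : ℂ, x ≠ algebraMap ℂ (FractionRing T) c) :
    ∃ S : Subalgebra ℂ (FractionRing T), RatFam S t := by
  have hg := hT.good
  have h1 := fTow_im hg.1 hT le_rfl
  refine h1.main H GG (cstG hg.1 hg.2.1) (frac (im T)) le_rfl ?_ (fgmod_self _) t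
    (fun x _ => ?_) ?_
  · exact fun γ hγ x hx => stabG_frac (stabG_im hg.1 hg.1) hγ hx
  · obtain ⟨a, b, hb, rfl⟩ := io_div x
    have hb0 : io b ≠ 0 := fun h0 => hb (io_inj (by rw [h0, io_zero]))
    refine ⟨io b, ⟨b, b.2, rfl⟩, hb0, ?_⟩
    rw [mul_div_cancel₀ _ hb0]
    exact ⟨a, a.2, rfl⟩
  · obtain ⟨x, hx, hxc⟩ := hne
    refine ⟨x, hx, fun hal => ?_⟩
    obtain ⟨c, hc⟩ := const_of_alg hal
    exact hxc c hc

end Pool.Agent.T6.H45.Hol
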