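import Mathlib

/-!
The ring of germs at infinity of sequences of complex numbers, and its shift.
-/

set_option autoImplicit false

namespace Pool.Agent.T6.H45.Hol

open Filter

/-- the ideal of the sequences which vanish for all large `n` -/
def evZero : Ideal (ℕ → ℂ) where
  carrier := {f | ∀ᶠ n in atTop, f n = 0}
  add_mem' := by
    intro a b ha hb
    filter_upwards [ha, hb] with n h1 h2
    rw [Pi.add_apply, h1, h2, add_zero]
  zero_mem' := Eventually.of_forall fun _ => rfl
  smul_mem' := by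
    intro c a ha
    filter_upwards [ha] with n h1
    rw [smul_eq_mul, Pi.mul_apply, h1, mul_zero]

/-- the ring of germs -/
abbrev G : Type := (ℕ → ℂ) ⧸ evZero

/-- the germ of a sequence -/
noncomputable def gm : (ℕ → ℂ) →ₐ[ℂ] G := Ideal.Quotient.mkₐ ℂ evZero

theorem gm_surj : Function.Surjective gm := Ideal.Quotient.mk_surjective

theorem gm_eq {f g : ℕ → ℂ} : gm f = gm g ↔ ∀ᶠ n in atTop, f n = g n := by
  have h1 : gm f = gm g ↔ f - g ∈ evZero := Ideal.Quotient.eq
  rw [h1]
  constructor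
  · intro h
    filter_upwards [(h : ∀ᶠ n in atTop, (f - g) n = 0)] with n hn
    exact sub_eq_zero.1 hn
  · intro h
    change ∀ᶠ n in atTop, (f - g) n = 0
    filter_upwards [h] with n hn
    exact sub_eq_zero.2 hn

theorem gm_eq_zero {f : ℕ → ℂ} : gm f = 0 ↔ ∀ᶠ n in atTop, f n = 0 := by
  rw [← map_zero gm, gm_eq]
  rfl

instance : Nontrivial G := by
  refine ⟨⟨gm 1, gm 0, fun h => ?_⟩⟩
  obtain ⟨n, hn⟩ := (gm_eq.1 h).exists
  exact one_ne_zero (α := ℂ) hn

instance : IsReduced G := by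
  refine isReduced_iff_pow_one_lt 2 one_lt_two |>.2 fun x hx => ?_
  obtain ⟨f, rfl⟩ := gm_surj x
  rw [← map_pow, gm_eq_zero] at hx
  rw [gm_eq_zero]
  filter_upwards [hx] with n hn
  exact pow_eq_zero_iff (two_ne_zero) |>.1 hn

/-- pull back along a map which tends to infinity -/
noncomputable def pull (τ : ℕ → ℕ) (hτ : Tendsto τ atTop atTop) : G →ₐ[ℂ] G :=
  Ideal.Quotient.liftₐ evZero (gm.comp
    { toFun := fun f => f ∘ τ
      map_one' := rfl
      map_mul' := fun _ _ => rfl
      map_zero' := rfl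
      map_add' := fun _ _ => rfl
      commutes' := fun _ => rfl }) (by
    intro a ha
    change gm (a ∘ τ) = 0
    rw [gm_eq_zero]
    exact hτ.eventually (ha : ∀ᶠ n in atTop, a n = 0))

theorem pull_gm (τ : ℕ → ℕ) (hτ : Tendsto τ atTop atTop) (f : ℕ → ℂ) :
    pull τ hτ (gm f) = gm (f ∘ τ) := rfl

theorem pull_pull (τ τ' : ℕ → ℕ) (hτ : Tendsto τ atTop atTop) (hτ' : Tendsto τ' atTop atTop)
    (x : G) : pull τ hτ (pull τ' hτ' x) = pull (τ' ∘ τ) (hτ'.comp hτ) x := by
  obtain ⟨f, rfl⟩ := gm_surj x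
  rfl

theorem pull_congr (τ τ' : ℕ → ℕ) (hτ : Tendsto τ atTop atTop) (hτ' : Tendsto τ' atTop atTop)
    (h : ∀ᶠ n in atTop, τ n = τ' n) (x : G) : pull τ hτ x = pull τ' hτ' x := by
  obtain ⟨f, rfl⟩ := gm_surj x
  rw [pull_gm, pull_gm, gm_eq]
  filter_upwards [h] with n hn
  simp only [Function.comp_apply, hn]

theorem pull_id (x : G) : pull id tendsto_id x = x := by
  obtain ⟨f, rfl⟩ := gm_surj x
  rfl

theorem tend_add (k : ℕ) : Tendsto (fun n : ℕ => n + k) atTop atTop :=
  tendsto_atTop_mono (fun n => Nat.le_add_right n k) tendsto_id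

theorem tend_sub (k : ℕ) : Tendsto (fun n : ℕ => n - k) atTop atTop := tendsto_sub_atTop_nat k

/-- the shift -/
noncomputable def sh : G ≃ₐ[ℂ] G :=
  AlgEquiv.ofAlgHom (pull (fun n => n + 1) (tend_add 1)) (pull (fun n => n - 1) (tend_sub 1))
    (by
      refine AlgHom.ext fun x => ?_
      rw [AlgHom.comp_apply, pull_pull, AlgHom.id_apply]
      rw [pull_congr _ id _ tendsto_id (Eventually.of_forall fun n => ?_), pull_id]
      simp)
    (by
      refine AlgHom.ext fun x => ?_
      rw [AlgHom.comp_apply, pull_pull, AlgHom.id_apply]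
      rw [pull_congr _ id _ tendsto_id ?_, pull_id]
      filter_upwards [eventually_ge_atTop 1] with n hn
      simp only [Function.comp_apply, id]
      omega)

theorem sh_gm (f : ℕ → ℂ) : sh (gm f) = gm (fun n => f (n + 1)) := rfl

/-- the invariants of the shift are the constants -/
theorem sh_const {x : G} (h : sh x = x) : ∃ c : ℂ, x = algebraMap ℂ G c := by
  obtain ⟨f, rfl⟩ := gm_surj x
  rw [sh_gm, gm_eq] at h
  obtain ⟨N, hN⟩ := eventually_atTop.1 h
  refine ⟨f N, ?_⟩
  have h1 : ∀ n, N ≤ n → f n = f N := by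
    intro n hn
    induction n, hn using Nat.le_induction with
    | base => rfl
    | succ n hn ih => rw [hN n hn, ih]
  have h2 : algebraMap ℂ G (f N) = gm (fun _ => f N) := rfl
  rw [h2, gm_eq]
  filter_upwards [eventually_ge_atTop N] with n hn
  exact h1 n hn

theorem algebraMap_inj : Function.Injective (algebraMap ℂ G) := (algebraMap ℂ G).injective

theorem tend_sec {m : ℕ} (hm : 0 < m) (i : ℕ) : Tendsto (fun n : ℕ => m * n + i) atTop atTop :=
  tendsto_atTop_mono (fun n => (Nat.le_mul_of_pos_left n hm).trans (Nat.le_add_right _ _)) tendsto_id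

/-- the section of a germ along an arithmetic progression -/
noncomputable def sec {m : ℕ} (hm : 0 < m) (i : ℕ) : G →ₐ[ℂ] G :=
  pull (fun n => m * n + i) (tend_sec hm i)

theorem sec_gm {m : ℕ} (hm : 0 < m) (i : ℕ) (f : ℕ → ℂ) :
    sec hm i (gm f) = gm (fun n => f (m * n + i)) := rfl

theorem sh_pow_gm (m : ℕ) (f : ℕ → ℂ) : (sh ^ m) (gm f) = gm (fun n => f (n + m)) := by
  induction m generalizing f with
  | zero => rfl
  | succ m ih =>
    rw [pow_succ, AlgEquiv.mul_apply, sh_gm, ih]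
    rfl

theorem sec_sh {m : ℕ} (hm : 0 < m) (i : ℕ) (x : G) :
    sec hm i ((sh ^ m) x) = sh (sec hm i x) := by
  obtain ⟨f, rfl⟩ := gm_surj x
  rw [sh_pow_gm, sec_gm, sec_gm, sh_gm]
  congr 1
  funext n
  congr 1
  ring

theorem sec_sh_zpow {m : ℕ} (hm : 0 < m) (i : ℕ) (k : ℤ) (x : G) :
    sec hm i ((sh ^ (m * k : ℤ)) x) = (sh ^ k) (sec hm i x) := by
  induction k using Int.induction_on generalizing x with
  | zero => simp
  | succ k ih =>
    have h1 : (m * ((k : ℤ) + 1) : ℤ) = m * k + m := by ring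
    rw [h1, zpow_add, zpow_natCast, AlgEquiv.mul_apply, ih, sec_sh, zpow_add, zpow_one,
      AlgEquiv.mul_apply]
  | pred k ih =>
    have h1 : (m * (-(k : ℤ) - 1) : ℤ) = m * (-k) + (-(m : ℤ)) := by ring
    have h2 : sh (sec hm i ((sh ^ (-(m : ℤ))) x)) = sec hm i x := by
      rw [← sec_sh, ← AlgEquiv.mul_apply, ← zpow_natCast, ← zpow_add, add_neg_cancel, zpow_zero]
      rfl
    rw [h1, zpow_add, AlgEquiv.mul_apply, ih, zpow_sub, zpow_one, AlgEquiv.mul_apply]
    congr 1
    have h3 : sh⁻¹ (sec hm i x) = sh.symm (sec hm i x) := rfl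
    rw [h3, ← h2, AlgEquiv.symm_apply_apply]

end Pool.Agent.T6.H45.Hol
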