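import Pool.Agent.Y377.IL.Asm

/-!
Finiteness of the integral closure of finitely generated algebras over a subfield.
-/

set_option autoImplicit false
set_option maxHeartbeats 400000

namespace Pool.Agent.T6.H45.Hol

open Pool.Agent.Y377.EL Pool.Agent.Y377.IL

variable {K : Type} [Field K] [Algebra ℂ K]

theorem fgmod_gens {R S : Subalgebra ℂ K} (h : FGmod R S) :
    ∃ s : Finset K, ∀ x, x ∈ Submodule.span R (s : Set K) ↔ x ∈ S := by
  obtain ⟨N, ⟨s, rfl⟩, h⟩ := h
  exact ⟨s, h⟩

theorem fgmod_of {R S : Subalgebra ℂ K} {s : Set K} (hs : s.Finite)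
    (h : ∀ x, x ∈ Submodule.span R s ↔ x ∈ S) : FGmod R S :=
  ⟨Submodule.span R s, Submodule.fg_span hs, h⟩

theorem span_le_sub {R S : Subalgebra ℂ K} (hRS : R ≤ S) {s : Set K} (hs : s ⊆ S) {x : K}
    (hx : x ∈ Submodule.span R s) : x ∈ S := by
  refine Submodule.span_induction (p := fun x _ => x ∈ S) (fun y hy => hs hy) S.zero_mem
    (fun _ _ _ _ => S.add_mem) (fun c y _ hy => ?_) hx
  rw [Algebra.smul_def]
  exact S.mul_mem (hRS c.2) hy

theorem fgmod_trans {R S U : Subalgebra ℂ K} (hRS : R ≤ S) (hSU : S ≤ U) (h1 : FGmod R S)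
    (h2 : FGmod S U) : FGmod R U := by
  classical
  obtain ⟨s, hs⟩ := fgmod_gens h1
  obtain ⟨u, hu⟩ := fgmod_gens h2
  refine ⟨Submodule.span R (s : Set K) * Submodule.span R (u : Set K),
    Submodule.FG.mul ⟨s, rfl⟩ ⟨u, rfl⟩, fun x => ⟨fun hx => ?_, fun hx => ?_⟩⟩
  · refine Submodule.mul_induction_on hx (fun a ha b hb => ?_) (fun a b ha hb => U.add_mem ha hb)
    refine U.mul_mem (hSU ((hs a).1 ha)) ?_
    exact span_le_sub (hRS.trans hSU) (fun y hy => (hu y).1 (Submodule.subset_span hy)) hb
  · rw [← hu] at hx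
    refine Submodule.span_induction (p := fun x _ => x ∈ Submodule.span R (s : Set K) *
      Submodule.span R (u : Set K)) (fun y hy => ?_) (Submodule.zero_mem _)
      (fun _ _ _ _ => Submodule.add_mem _) (fun c y _ hy => ?_) hx
    · have h3 := Submodule.mul_mem_mul ((hs 1).2 S.one_mem)
        (Submodule.subset_span (R := R) (show y ∈ (u : Set K) from hy))
      rwa [one_mul] at h3
    · rw [Algebra.smul_def]
      have h3 := Submodule.mul_mem_mul ((hs (c : K)).2 c.2) hy
      rw [← mul_assoc] at h3
      refine (mul_le_mul' (Submodule.mul_le.2 fun a ha b hb => ?_) le_rfl :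
        Submodule.span R (s : Set K) * Submodule.span R (s : Set K) * Submodule.span R (u : Set K) ≤
          Submodule.span R (s : Set K) * Submodule.span R (u : Set K)) ?_
      · exact (hs _).2 (S.mul_mem ((hs a).1 ha) ((hs b).1 hb))
      · exact h3

theorem fgmod_mono {R S U : Subalgebra ℂ K} (hRS : R ≤ S) (hSU : S ≤ U) (h : FGmod R U) :
    FGmod S U := by
  obtain ⟨s, hs⟩ := fgmod_gens h
  refine fgmod_of (s := (s : Set K)) s.finite_toSet fun x => ⟨fun hx => ?_, fun hx => ?_⟩
  · exact span_le_sub hSU (fun y hy => (hs y).1 (Submodule.subset_span hy)) hx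
  · rw [← hs] at hx
    refine Submodule.span_induction (p := fun x _ => x ∈ Submodule.span S (s : Set K))
      (fun y hy => Submodule.subset_span hy) (Submodule.zero_mem _)
      (fun _ _ _ _ => Submodule.add_mem _) (fun c y _ hy => ?_) hx
    exact Submodule.smul_mem _ (⟨c, hRS c.2⟩ : S) hy

theorem fgmod_frac {A B : Subalgebra ℂ K} (hAB : A ≤ B) (h : FGmod A B) :
    FGmod (frac A).toSubalgebra (frac B).toSubalgebra := by
  obtain ⟨s, hs⟩ := fgmod_gens h
  refine fgmod_of (s := (s : Set K)) s.finite_toSet fun x => ⟨fun hx => ?_, fun hx => ?_⟩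
  · exact span_le_sub (fun y hy => frac_mono hAB hy)
      (fun y hy => le_frac B ((hs y).1 (Submodule.subset_span hy))) hx
  · obtain ⟨r, hr, hr0, hrx⟩ := hx
    obtain ⟨c, hc, hc0, P, hP⟩ := exists_base (fgmod_alg hAB h hr).isAlgebraic hr0
    have h1 : Polynomial.aeval r P ∈ B := by
      rw [Polynomial.aeval_eq_sum_range]
      refine B.sum_mem fun i _ => ?_
      rw [Algebra.smul_def]
      exact B.mul_mem (hAB (P.coeff i).2) (B.pow_mem hr i)
    have h2 : (r * x) * Polynomial.aeval r P ∈ B := B.mul_mem hrx h1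
    have h3 : x = c⁻¹ * ((r * x) * Polynomial.aeval r P) := by
      rw [eq_inv_mul_iff_mul_eq₀ hc0, hP]
      ring
    have h4 : ((r * x) * Polynomial.aeval r P) ∈
        Submodule.span (frac A).toSubalgebra (s : Set K) := by
      have h5 := (hs _).2 h2
      refine Submodule.span_induction (p := fun x _ => x ∈
        Submodule.span (frac A).toSubalgebra (s : Set K))
        (fun y hy => Submodule.subset_span hy) (Submodule.zero_mem _)
        (fun _ _ _ _ => Submodule.add_mem _) (fun c y _ hy => ?_) h5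
      exact Submodule.smul_mem _ (⟨c, le_frac A c.2⟩ : (frac A).toSubalgebra) hy
    rw [h3]
    exact Submodule.smul_mem _ (⟨c⁻¹, (frac A).inv_mem (le_frac A hc)⟩ :
      (frac A).toSubalgebra) h4

/-- the elements which are integral over a subring -/
noncomputable def icl (A : Subalgebra ℂ K) : Subalgebra ℂ K :=
  (integralClosure A K).restrictScalars ℂ

theorem mem_icl {A : Subalgebra ℂ K} {x : K} : x ∈ icl A ↔ IsIntegral A x := Iff.rfl

theorem le_icl (A : Subalgebra ℂ K) : A ≤ icl A := fun x hx =>
  mem_icl.2 (isIntegral_algebraMap (R := A) (x := ⟨x, hx⟩))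

theorem int_trans {A B : Subalgebra ℂ K} (h : A ≤ B) (hB : ∀ x ∈ B, IsIntegral A x) {x : K}
    (hx : IsIntegral B x) : IsIntegral A x := by
  let _ : Algebra A B := (Subalgebra.inclusion h).toRingHom.toAlgebra
  have h1 : IsScalarTower A B K := IsScalarTower.of_algebraMap_eq fun x => rfl
  have h2 : Algebra.IsIntegral A B := ⟨fun x => by
    have h3 := hB x x.2
    exact (isIntegral_algebraMap_iff (R := A) (A := B) (B := K) Subtype.val_injective).1 h3⟩
  exact isIntegral_trans x hx

theorem int_mono {A B : Subalgebra ℂ K} (h : A ≤ B) {x : K} (hx : IsIntegral A x) :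
    IsIntegral B x := by
  let _ : Algebra A B := (Subalgebra.inclusion h).toRingHom.toAlgebra
  have h1 : IsScalarTower A B K := IsScalarTower.of_algebraMap_eq fun x => rfl
  exact hx.tower_top

/-- **finiteness of the integral closure of a normal ring** -/
theorem fgmod_icl (A : Subalgebra ℂ K) (hic : IsIntegrallyClosed A) (hno : IsNoetherianRing A)
    (E : IntermediateField ℂ K) (hAE : A ≤ E.toSubalgebra)
    (hfg : FGmod (frac A).toSubalgebra E.toSubalgebra) : FGmod A (E.toSubalgebra ⊓ icl A) := by
  classical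
  have hFE : ∀ x ∈ frac A, x ∈ E := by
    rintro x ⟨r, hr, hr0, hx⟩
    have h1 : x = r⁻¹ * (r * x) := by rw [← mul_assoc, inv_mul_cancel₀ hr0, one_mul]
    rw [h1]
    exact E.mul_mem (E.inv_mem (hAE hr)) (hAE hx)
  let f1 : A →+* frac A :=
    { toFun := fun x => ⟨x, le_frac A x.2⟩
      map_one' := rfl
      map_mul' := fun _ _ => rfl
      map_zero' := rfl
      map_add' := fun _ _ => rfl }
  let f2 : frac A →+* E :=
    { toFun := fun x => ⟨x, hFE x x.2⟩
      map_one' := rfl
      map_mul' := fun _ _ => rfl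
      map_zero' := rfl
      map_add' := fun _ _ => rfl }
  let a1 : Algebra A (frac A) := f1.toAlgebra
  let a2 : Algebra (frac A) E := f2.toAlgebra
  let a3 : Algebra A E := (f2.comp f1).toAlgebra
  have t1 : IsScalarTower A (frac A) E := IsScalarTower.of_algebraMap_eq fun x => rfl
  have t2 : IsScalarTower A E K := IsScalarTower.of_algebraMap_eq fun x => rfl
  have hff : FaithfulSMul A (frac A) := by
    rw [faithfulSMul_iff_algebraMap_injective]
    intro a b hab
    exact Subtype.ext (congrArg (fun z : frac A => (z : K)) hab)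
  have fr : IsFractionRing A (frac A) := by
    refine IsFractionRing.of_field A (frac A) fun z => ?_
    obtain ⟨r, hr, hr0, hrz⟩ := z.2
    refine ⟨⟨r * z, hrz⟩, ⟨r, hr⟩, ?_⟩
    have h1 : algebraMap A (frac A) ⟨r, hr⟩ ≠ 0 := fun h0 => hr0 (congrArg Subtype.val h0)
    rw [eq_div_iff h1]
    exact Subtype.ext (mul_comm _ _)
  have fin : Module.Finite (frac A) E := by
    obtain ⟨s, hs⟩ := fgmod_gens hfg
    have hsE : ∀ y ∈ s, y ∈ E := fun y hy => (hs y).1 (Submodule.subset_span hy)
    refine ⟨⟨s.attach.image (fun y => ⟨y.1, hsE y.1 y.2⟩), ?_⟩⟩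
    rw [eq_top_iff]
    rintro ⟨x, hx⟩ -
    have h1 := (hs x).2 hx
    have h2 : ∀ y (hy : y ∈ Submodule.span (frac A).toSubalgebra (s : Set K)) (hyE : y ∈ E),
        (⟨y, hyE⟩ : E) ∈ Submodule.span (frac A)
          ((s.attach.image (fun y => (⟨y.1, hsE y.1 y.2⟩ : E)) : Finset E) : Set E) := by
      intro y hy
      refine Submodule.span_induction (p := fun y _ => ∀ hyE : y ∈ E,
        (⟨y, hyE⟩ : E) ∈ Submodule.span (frac A)
          ((s.attach.image (fun y => (⟨y.1, hsE y.1 y.2⟩ : E)) : Finset E) : Set E))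
        ?_ ?_ ?_ ?_ hy
      · intro z hz hzE
        apply Submodule.subset_span
        rw [Finset.mem_coe, Finset.mem_image]
        exact ⟨⟨z, hz⟩, Finset.mem_attach _ _, rfl⟩
      · intro h0
        exact Submodule.zero_mem _
      · intro a b ha hb iha ihb hab
        have haE : a ∈ E := (hs a).1 ha
        have hbE : b ∈ E := (hs b).1 hb
        exact Submodule.add_mem _ (iha haE) (ihb hbE)
      · intro c a ha iha hca
        have haE : a ∈ E := (hs a).1 ha
        exact Submodule.smul_mem _ (⟨c, c.2⟩ : frac A) (iha haE)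
    exact h2 x h1 hx
  have cz : CharZero (frac A) :=
    charZero_of_injective_algebraMap (algebraMap ℂ (frac A)).injective
  have h1 := IsIntegralClosure.finite A (frac A) E (integralClosure A E)
  obtain ⟨⟨s, hs⟩⟩ := h1
  refine fgmod_of (s := ((s.image (fun y : integralClosure A E => ((y : E) : K)) : Finset K) :
    Set K)) (Finset.finite_toSet _) fun x => ⟨fun hx => ?_, fun hx => ?_⟩
  · refine span_le_sub (le_inf hAE (le_icl A)) ?_ hx
    intro y hy
    rw [Finset.mem_coe, Finset.mem_image] at hy
    obtain ⟨z, -, rfl⟩ := hy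
    refine ⟨(z : E).2, ?_⟩
    have h2 : IsIntegral A (z : E) := z.2
    have h3 := h2.map (IsScalarTower.toAlgHom A E K)
    exact h3
  · obtain ⟨hxE, hxi⟩ := hx
    have h2 : IsIntegral A (⟨x, hxE⟩ : E) :=
      (isIntegral_algebraMap_iff (R := A) (A := E) (B := K) Subtype.val_injective).1 hxi
    have h3 : (⟨⟨x, hxE⟩, h2⟩ : integralClosure A E) ∈ Submodule.span A (s : Set _) := by
      rw [hs]
      trivial
    have h4 : ∀ z : integralClosure A E, z ∈ Submodule.span A (s : Set (integralClosure A E)) →
        ((z : E) : K) ∈ Submodule.span A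
      ((s.image (fun y : integralClosure A E => ((y : E) : K)) : Finset K) : Set K) := by
      intro z hz
      induction hz using Submodule.span_induction with
      | mem y hy =>
        apply Submodule.subset_span
        rw [Finset.mem_coe, Finset.mem_image]
        exact ⟨y, hy, rfl⟩
      | zero => exact Submodule.zero_mem _
      | add a b _ _ ha hb => exact Submodule.add_mem _ ha hb
      | smul c a _ ha =>
        have h5 : (((c • a : integralClosure A E) : E) : K) = c • ((a : E) : K) := by
          rw [Algebra.smul_def, Algebra.smul_def]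
          rfl
        rw [h5]
        exact Submodule.smul_mem _ c ha
    exact h4 _ h3

end Pool.Agent.T6.H45.Hol
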