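import Pool.Agent.T6.H45.Hol.Eval
import Pool.Agent.Y401.IR.Sim
import Pool.Agent.Y68.IR.Lift

/-!
Rings of germs generated by fundamental matrices.
-/

set_option autoImplicit false

namespace Pool.Agent.T6.H45.Hol

open Filter MvPolynomial
open Pool.Agent.Y377.IL (Sg pt)

/-- stable under the shift and its inverse -/
def Stb (T : Subalgebra ℂ G) : Prop := ∀ k : ℤ, ∀ x ∈ T, (sh ^ k) x ∈ T

/-- no proper nonzero ideals stable under the shift and its inverse -/
def Smp (T : Subalgebra ℂ G) : Prop :=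
  ∀ I : Submodule T G, (∀ x ∈ I, x ∈ T) → (∀ k : ℤ, ∀ x ∈ I, (sh ^ k) x ∈ I) →
    (∃ x ∈ I, x ≠ 0) → (1 : G) ∈ I

/-- the ring generated by the entries of two matrices -/
noncomputable def matG (T : Subalgebra ℂ G) {n : ℕ} (X Y : Matrix (Fin n) (Fin n) G) :
    Subalgebra ℂ G :=
  T ⊔ Algebra.adjoin ℂ {x | ∃ i j, x = X i j ∨ x = Y i j}

/-- `X` is an invertible matrix, with inverse `Y`, and `A = σ(X) Y` and its inverse have entries
in `T` -/
structure Fnd (T : Subalgebra ℂ G) {n : ℕ} (X Y : Matrix (Fin n) (Fin n) G) : Prop where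
  inv : X * Y = 1
  a : ∀ i j, (sh.mapMatrix X * Y) i j ∈ T
  b : ∀ i j, (X * sh.mapMatrix Y) i j ∈ T

variable {T : Subalgebra ℂ G} {n : ℕ} {X Y : Matrix (Fin n) (Fin n) G}

theorem le_matG : T ≤ matG T X Y := le_sup_left

theorem mem_X (i j : Fin n) : X i j ∈ matG T X Y :=
  (le_sup_right : _ ≤ matG T X Y) (Algebra.subset_adjoin ⟨i, j, Or.inl rfl⟩)

theorem mem_Y (i j : Fin n) : Y i j ∈ matG T X Y :=
  (le_sup_right : _ ≤ matG T X Y) (Algebra.subset_adjoin ⟨i, j, Or.inr rfl⟩)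

theorem matG_le {A : Subalgebra ℂ G} (h1 : T ≤ A) (h2 : ∀ i j, X i j ∈ A)
    (h3 : ∀ i j, Y i j ∈ A) : matG T X Y ≤ A := by
  refine sup_le h1 (Algebra.adjoin_le ?_)
  rintro x ⟨i, j, rfl | rfl⟩
  · exact h2 i j
  · exact h3 i j

theorem mm_mem {A B : Matrix (Fin n) (Fin n) G} (hA : ∀ i j, A i j ∈ T) (hB : ∀ i j, B i j ∈ T)
    (i j : Fin n) : (A * B) i j ∈ T := by
  rw [Matrix.mul_apply]
  exact T.sum_mem fun k _ => T.mul_mem (hA i k) (hB k j)

theorem Fnd.yx (h : Fnd T X Y) : Y * X = 1 := mul_eq_one_comm.1 h.inv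

/-- stable if stable under the shift and its inverse -/
theorem stb_of (h1 : ∀ x ∈ T, sh x ∈ T) (h2 : ∀ x ∈ T, sh⁻¹ x ∈ T) : Stb T := by
  intro k
  induction k using Int.induction_on with
  | zero =>
    intro x hx
    rw [zpow_zero]
    exact hx
  | succ k ih =>
    intro x hx
    rw [zpow_add, zpow_one, AlgEquiv.mul_apply]
    exact ih _ (h1 x hx)
  | pred k ih =>
    intro x hx
    rw [zpow_sub, zpow_one, AlgEquiv.mul_apply]
    exact ih _ (h2 x hx)

theorem Stb.one (h : Stb T) {x : G} (hx : x ∈ T) : sh x ∈ T := by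
  have := h 1 x hx
  rwa [zpow_one] at this

theorem Stb.neg (h : Stb T) {x : G} (hx : x ∈ T) : sh⁻¹ x ∈ T := by
  have := h (-1) x hx
  rwa [zpow_neg, zpow_one] at this

theorem Fnd.eX (h : Fnd T X Y) : sh.mapMatrix X = (sh.mapMatrix X * Y) * X := by
  rw [Matrix.mul_assoc, h.yx, Matrix.mul_one]

theorem Fnd.eY (h : Fnd T X Y) : sh.mapMatrix Y = Y * (X * sh.mapMatrix Y) := by
  rw [← Matrix.mul_assoc, h.yx, Matrix.one_mul]

theorem Fnd.sxy (h : Fnd T X Y) : sh.mapMatrix X * sh.mapMatrix Y = 1 := by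
  rw [← map_mul, h.inv, map_one]

theorem Fnd.syx (h : Fnd T X Y) : sh.mapMatrix Y * sh.mapMatrix X = 1 := by
  rw [← map_mul, h.yx, map_one]

theorem Fnd.ba (h : Fnd T X Y) : (X * sh.mapMatrix Y) * (sh.mapMatrix X * Y) = 1 := by
  calc X * sh.mapMatrix Y * (sh.mapMatrix X * Y)
      = X * (sh.mapMatrix Y * sh.mapMatrix X) * Y := by simp only [Matrix.mul_assoc]
    _ = 1 := by rw [h.syx, Matrix.mul_one, h.inv]

/-- the inverse shift of the matrices -/
theorem Fnd.shift_back (hT : Stb T) (h : Fnd T X Y) :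
    (∃ M : Matrix (Fin n) (Fin n) G, (∀ i j, M i j ∈ T) ∧
      (sh⁻¹ : G ≃ₐ[ℂ] G).mapMatrix X = M * X) ∧
    ∃ M : Matrix (Fin n) (Fin n) G, (∀ i j, M i j ∈ T) ∧
      (sh⁻¹ : G ≃ₐ[ℂ] G).mapMatrix Y = Y * M := by
  have hback : ∀ M : Matrix (Fin n) (Fin n) G,
      (sh⁻¹ : G ≃ₐ[ℂ] G).mapMatrix (sh.mapMatrix M) = M := by
    intro M
    ext i j
    exact sh.symm_apply_apply (M i j)
  have hba := h.ba
  refine ⟨⟨(sh⁻¹ : G ≃ₐ[ℂ] G).mapMatrix (X * sh.mapMatrix Y), fun i j => hT.neg (h.b i j), ?_⟩,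
    ⟨(sh⁻¹ : G ≃ₐ[ℂ] G).mapMatrix (sh.mapMatrix X * Y), fun i j => hT.neg (h.a i j), ?_⟩⟩
  · rw [map_mul, hback, Matrix.mul_assoc, h.yx, Matrix.mul_one]
  · rw [map_mul, hback, ← Matrix.mul_assoc, h.yx, Matrix.one_mul]

theorem stb_matG (hT : Stb T) (h : Fnd T X Y) : Stb (matG T X Y) := by
  refine stb_of ?_ ?_
  · have h1 : matG T X Y ≤ (matG T X Y).comap (sh : G →ₐ[ℂ] G) := by
      refine matG_le (fun x hx => le_matG (hT.one hx)) (fun i j => ?_) (fun i j => ?_)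
      · change sh (X i j) ∈ matG T X Y
        have e1 : sh (X i j) = ((sh.mapMatrix X * Y) * X) i j := by rw [← h.eX]; rfl
        rw [e1]
        exact mm_mem (fun i j => le_matG (h.a i j)) mem_X i j
      · change sh (Y i j) ∈ matG T X Y
        have e1 : sh (Y i j) = (Y * (X * sh.mapMatrix Y)) i j := by rw [← h.eY]; rfl
        rw [e1]
        exact mm_mem mem_Y (fun i j => le_matG (h.b i j)) i j
    exact fun x hx => h1 hx
  · obtain ⟨⟨M, hM, hMX⟩, ⟨M', hM', hMY⟩⟩ := h.shift_back hT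
    have h1 : matG T X Y ≤ (matG T X Y).comap ((sh⁻¹ : G ≃ₐ[ℂ] G) : G →ₐ[ℂ] G) := by
      refine matG_le (fun x hx => le_matG (hT.neg hx)) (fun i j => ?_) (fun i j => ?_)
      · change sh⁻¹ (X i j) ∈ matG T X Y
        have e1 : sh⁻¹ (X i j) = (M * X) i j := by rw [← hMX]; rfl
        rw [e1]
        exact mm_mem (fun i j => le_matG (hM i j)) mem_X i j
      · change sh⁻¹ (Y i j) ∈ matG T X Y
        have e1 : sh⁻¹ (Y i j) = (Y * M') i j := by rw [← hMY]; rfl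
        rw [e1]
        exact mm_mem mem_Y (fun i j => le_matG (hM' i j)) i j
    exact fun x hx => h1 hx

/-- evaluation at the entries -/
noncomputable def ev (T : Subalgebra ℂ G) {n : ℕ} (z : Sg n → G) :
    MvPolynomial (Sg n) T →ₐ[T] G := aeval z

theorem ev_mem {S : Subalgebra ℂ G} (hTS : T ≤ S) {z : Sg n → G} (hz : ∀ s, z s ∈ S)
    (p : MvPolynomial (Sg n) T) : ev T z p ∈ S := by
  unfold ev
  induction p using MvPolynomial.induction_on with
  | C a =>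
    rw [aeval_C]
    exact hTS a.2
  | add p q hp hq =>
    rw [map_add]
    exact S.add_mem hp hq
  | mul_X p s hp =>
    rw [map_mul, aeval_X]
    exact S.mul_mem hp (hz s)

theorem pt_mem (s : Sg n) : pt X Y s ∈ matG T X Y := by
  rcases s with ⟨i, j⟩ | ⟨i, j⟩
  · exact mem_X i j
  · exact mem_Y i j

theorem ev_surj {x : G} (hx : x ∈ matG T X Y) : ∃ p, ev T (pt X Y) p = x := by
  have h1 : matG T X Y ≤ ((ev T (pt X Y)).restrictScalars ℂ).range := by
    refine matG_le (fun x hx => ⟨C ⟨x, hx⟩, ?_⟩) (fun i j => ⟨MvPolynomial.X (Sum.inl (i, j)), ?_⟩)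
      (fun i j => ⟨MvPolynomial.X (Sum.inr (i, j)), ?_⟩)
    · change ev T (pt X Y) _ = _
      unfold ev
      rw [aeval_C]
      rfl
    · change ev T (pt _ _) _ = _
      unfold ev
      rw [aeval_X]
      rfl
    · change ev T (pt _ _) _ = _
      unfold ev
      rw [aeval_X]
      rfl
  obtain ⟨p, hp⟩ := h1 hx
  exact ⟨p, hp⟩

/-- noetherian -/
theorem noeth_matG (hN : IsNoetherianRing T) : IsNoetherianRing (matG T X Y) := by
  let f : MvPolynomial (Sg n) T →+* matG T X Y :=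
    ((ev T (pt X Y)).restrictScalars ℂ).toRingHom.codRestrict (matG T X Y).toSubring
      (fun p => ev_mem le_matG pt_mem p)
  refine isNoetherianRing_of_surjective _ _ f ?_
  rintro ⟨x, hx⟩
  obtain ⟨p, hp⟩ := ev_surj hx
  exact ⟨p, Subtype.ext hp⟩

end Pool.Agent.T6.H45.Hol
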