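import Pool.Agent.T6.H45.Hol.Icl

/-!
Finiteness of the integral closure of finitely generated algebras over a subfield.
-/

set_option autoImplicit false
set_option maxHeartbeats 400000

namespace Pool.Agent.T6.H45.Hol

open Pool.Agent.Y377.EL Pool.Agent.Y377.IL

variable {K : Type} [Field K] [Algebra ℂ K]

theorem fgmod_of_finite {A0 B0 : Type} [CommRing A0] [CommRing B0] (A B : Subalgebra ℂ K)
    (φ : A0 →+* K) (hA : ∀ x, x ∈ A ↔ ∃ a, φ a = x) (ψ : B0 →+* K)
    (hB : ∀ x, x ∈ B ↔ ∃ b, ψ b = x) (g : A0 →+* B0) (hg : ∀ a, ψ (g a) = φ a)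
    (hfin : g.Finite) : FGmod A B := by
  classical
  let _ : Algebra A0 B0 := g.toAlgebra
  obtain ⟨⟨t, ht⟩⟩ : Module.Finite A0 B0 := hfin
  have hAB : A ≤ B := by
    intro x hx
    obtain ⟨a, rfl⟩ := (hA x).1 hx
    exact (hB _).2 ⟨g a, hg a⟩
  refine fgmod_of (s := ψ '' (t : Set B0)) (t.finite_toSet.image _) fun x =>
    ⟨fun hx => ?_, fun hx => ?_⟩
  · refine span_le_sub hAB ?_ hx
    rintro _ ⟨z, -, rfl⟩
    exact (hB _).2 ⟨z, rfl⟩
  · obtain ⟨b, rfl⟩ := (hB x).1 hx
    have h3 : b ∈ Submodule.span A0 (t : Set B0) := by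
      rw [ht]
      trivial
    induction h3 using Submodule.span_induction with
    | mem y hy => exact Submodule.subset_span ⟨y, hy, rfl⟩
    | zero =>
      rw [map_zero]
      exact Submodule.zero_mem _
    | add a b _ _ ha hb =>
      rw [map_add]
      exact Submodule.add_mem _ (ha ((hB _).2 ⟨a, rfl⟩)) (hb ((hB _).2 ⟨b, rfl⟩))
    | smul c a _ ha =>
      have h5 : ψ (c • a) = (⟨φ c, (hA _).2 ⟨c, rfl⟩⟩ : A) • ψ a := by
        rw [Algebra.smul_def, Algebra.smul_def, map_mul]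
        congr 1
        exact hg c
      rw [h5]
      exact Submodule.smul_mem _ _ (ha ((hB _).2 ⟨a, rfl⟩))

/-- Noether normalisation -/
theorem noether (F : IntermediateField ℂ K) {n : ℕ} (X Y : Matrix (Fin n) (Fin n) K) :
    ∃ A : Subalgebra ℂ K, A ≤ mat F.toSubalgebra X Y ∧ IsIntegrallyClosed A ∧
      IsNoetherianRing A ∧ FGmod A (mat F.toSubalgebra X Y) := by
  classical
  let gen : Set K := {x | ∃ i j, x = X i j ∨ x = Y i j}
  have hgen : gen.Finite := by
    refine ((Set.finite_range fun p : Fin n × Fin n => X p.1 p.2).union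
      (Set.finite_range fun p : Fin n × Fin n => Y p.1 p.2)).subset ?_
    rintro x ⟨i, j, rfl | rfl⟩
    · exact Or.inl ⟨(i, j), rfl⟩
    · exact Or.inr ⟨(i, j), rfl⟩
  let B' : Subalgebra F K := Algebra.adjoin F gen
  have hB1 : ∀ x ∈ B', x ∈ mat F.toSubalgebra X Y := by
    intro x hx
    induction hx using Algebra.adjoin_induction with
    | mem x hx =>
      obtain ⟨i, j, rfl | rfl⟩ := hx
      · exact mem_mat_left _ X Y i j
      · exact mem_mat_right _ X Y i j
    | algebraMap r => exact le_mat _ X Y r.2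
    | add x y _ _ hx hy => exact Subalgebra.add_mem _ hx hy
    | mul x y _ _ hx hy => exact Subalgebra.mul_mem _ hx hy
  have hB2 : ∀ x ∈ mat F.toSubalgebra X Y, x ∈ B' := by
    have h1 : mat F.toSubalgebra X Y ≤ B'.restrictScalars ℂ := by
      refine sup_le (fun x hx => ?_) (Algebra.adjoin_le fun x hx => ?_)
      · exact B'.algebraMap_mem (⟨x, hx⟩ : F)
      · exact Algebra.subset_adjoin hx
    exact fun x hx => h1 hx
  have hft : Algebra.FiniteType F B' :=
    (Subalgebra.fg_iff_finiteType _).1 (Subalgebra.fg_def.2 ⟨gen, hgen, rfl⟩)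
  obtain ⟨s, g, ginj, gfin⟩ := exists_finite_inj_algHom_of_fg F B'
  let φ : MvPolynomial (Fin s) F →ₐ[ℂ] K := (B'.val.comp g).restrictScalars ℂ
  have hφ : Function.Injective φ := by
    intro a b hab
    exact ginj (Subtype.ext hab)
  have e : MvPolynomial (Fin s) F ≃+* φ.range := (AlgEquiv.ofInjective φ hφ).toRingEquiv
  have hA1 : φ.range ≤ mat F.toSubalgebra X Y := by
    rintro _ ⟨p, rfl⟩
    exact hB1 _ (g p).2
  refine ⟨φ.range, hA1, ?_, ?_, ?_⟩
  · have h1 : IsIntegrallyClosed (MvPolynomial (Fin s) F) := inferInstance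
    exact h1.of_equiv e
  · exact isNoetherianRing_of_ringEquiv _ e
  · exact fgmod_of_finite φ.range (mat F.toSubalgebra X Y) φ.toRingHom (fun x => Iff.rfl)
      B'.val.toRingHom (fun x => ⟨fun hx => ⟨⟨x, hB2 x hx⟩, rfl⟩, by
        rintro ⟨b, rfl⟩
        exact hB1 _ b.2⟩) g.toRingHom (fun _ => rfl) gfin

/-- **finiteness of the integral closure** -/
theorem fgmod_closure {F E : IntermediateField ℂ K} {n : ℕ} {X Y : Matrix (Fin n) (Fin n) K}
    (hBE : mat F.toSubalgebra X Y ≤ E.toSubalgebra)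
    (hfg : FGmod (frac (mat F.toSubalgebra X Y)).toSubalgebra E.toSubalgebra) :
    FGmod (mat F.toSubalgebra X Y) (E.toSubalgebra ⊓ icl (mat F.toSubalgebra X Y)) := by
  obtain ⟨A, hAB, hic, hno, hAfg⟩ := noether F X Y
  have hFE : (frac (mat F.toSubalgebra X Y)).toSubalgebra ≤ E.toSubalgebra := by
    rintro x ⟨r, hr, hr0, hx⟩
    have h1 : x = r⁻¹ * (r * x) := by rw [← mul_assoc, inv_mul_cancel₀ hr0, one_mul]
    rw [h1]
    exact E.mul_mem (E.inv_mem (hBE hr)) (hBE hx)
  have h1 : FGmod (frac A).toSubalgebra E.toSubalgebra :=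
    fgmod_trans (fun x hx => frac_mono hAB hx) hFE (fgmod_frac hAB hAfg) hfg
  have h2 := fgmod_icl A hic hno E (hAB.trans hBE) h1
  have h3 : icl A = icl (mat F.toSubalgebra X Y) := by
    apply le_antisymm
    · exact fun x hx => int_mono hAB hx
    · exact fun x hx => int_trans hAB (fun y hy => fgmod_alg hAB hAfg hy) hx
  rw [h3] at h2
  exact fgmod_mono hAB (le_inf hBE (le_icl _)) h2

end Pool.Agent.T6.H45.Hol
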