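import Pool.Agent.T6.H45.Hol.Zer

/-!
The ring generated over a simple ring of germs by a fundamental matrix is simple.
-/

set_option autoImplicit false

namespace Pool.Agent.T6.H45.Hol

open Filter MvPolynomial
open Pool.Agent.Y377.IL (Sg pt)

variable {T : Subalgebra ℂ G} {n : ℕ} {X Y : Matrix (Fin n) (Fin n) G}

/-- the shift on a stable ring -/
noncomputable def shT (hT : Stb T) : T →+* T :=
  ((sh : G →+* G).comp T.toSubring.subtype).codRestrict T.toSubring fun x => hT.one x.2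

theorem shT_coe (hT : Stb T) (x : T) : (shT hT x : G) = sh x := rfl

/-- matrices over the subring -/
def mT (A : Matrix (Fin n) (Fin n) G) (hA : ∀ i j, A i j ∈ T) : Matrix (Fin n) (Fin n) T :=
  fun i j => ⟨A i j, hA i j⟩

theorem ev_sb (hT : Stb T) (h : Fnd T X Y) (p : MvPolynomial (Sg n) T) :
    ev T (pt X Y) (sb (mT _ h.a) (mT _ h.b) (MvPolynomial.map (shT hT) p)) =
      sh (ev T (pt X Y) p) := by
  unfold ev
  induction p using MvPolynomial.induction_on with
  | C a =>
    rw [MvPolynomial.map_C]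
    have h1 : sb (mT _ h.a) (mT _ h.b) (C (shT hT a)) = C (shT hT a) :=
      (sb (mT _ h.a) (mT _ h.b)).commutes _
    rw [h1, aeval_C, aeval_C]
    rfl
  | add p q hp hq => rw [map_add, map_add, map_add, hp, hq, map_add, map_add]
  | mul_X p s hp =>
    rw [map_mul, map_mul, map_mul, hp, map_mul, map_mul, MvPolynomial.map_X, aeval_X]
    congr 1
    rcases s with ⟨i, j⟩ | ⟨i, j⟩
    · rw [sb_inl, map_sum]
      have e1 : sh (pt X Y (Sum.inl (i, j))) = ((sh.mapMatrix X * Y) * X) i j := by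
        rw [← h.eX]
        rfl
      rw [e1, Matrix.mul_apply]
      refine Finset.sum_congr rfl fun k _ => ?_
      rw [map_mul, aeval_C, aeval_X]
      rfl
    · rw [sb_inr, map_sum]
      have e1 : sh (pt X Y (Sum.inr (i, j))) = (Y * (X * sh.mapMatrix Y)) i j := by
        rw [← h.eY]
        rfl
      rw [e1, Matrix.mul_apply]
      refine Finset.sum_congr rfl fun k _ => ?_
      rw [map_mul, aeval_C, aeval_X]
      rfl

/-- the coefficients -/
def co (p : MvPolynomial (Sg n) T) : Set G := (fun m => ((coeff m p : T) : G)) '' p.support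

theorem co_fin (p : MvPolynomial (Sg n) T) : (co p).Finite := p.support.finite_toSet.image _

theorem co_le (p : MvPolynomial (Sg n) T) : co p ⊆ T := by
  rintro _ ⟨m, -, rfl⟩
  exact (coeff m p).2

theorem mem_of_co {C : Subalgebra ℂ G} {p : MvPolynomial (Sg n) T} (h : co p ⊆ C)
    (m : Sg n →₀ ℕ) : ((coeff m p : T) : G) ∈ C := by
  by_cases hm : m ∈ p.support
  · exact h ⟨m, hm, rfl⟩
  · rw [notMem_support_iff] at hm
    rw [hm]
    exact C.zero_mem

theorem lift_poly {C : Subalgebra ℂ G} (hCT : C ≤ T) {p : MvPolynomial (Sg n) T}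
    (h : co p ⊆ C) :
    ∃ q : MvPolynomial (Sg n) C,
      MvPolynomial.map ((Subalgebra.inclusion hCT : C →ₐ[ℂ] T) : C →+* T) q = p := by
  have h1 : p ∈ Set.range (MvPolynomial.map (σ := Sg n)
      ((Subalgebra.inclusion hCT : C →ₐ[ℂ] T) : C →+* T)) := by
    rw [mem_range_map_iff_coeffs_subset]
    intro a ha
    obtain ⟨m, -, rfl⟩ := mem_coeffs_iff.1 ha
    exact ⟨⟨(coeff m p : T), mem_of_co h m⟩, Subtype.ext rfl⟩
  obtain ⟨q, hq⟩ := h1
  exact ⟨q, hq⟩

theorem ev_map {C : Subalgebra ℂ G} (hCT : C ≤ T) (Z : Sg n → G) (q : MvPolynomial (Sg n) C) :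
    ev T Z (MvPolynomial.map ((Subalgebra.inclusion hCT : C →ₐ[ℂ] T) : C →+* T) q) =
      aeval Z q := by
  unfold ev
  rw [aeval_def, aeval_def, eval₂_map]
  rfl

theorem map_incl_inj {C : Subalgebra ℂ G} (hCT : C ≤ T) : Function.Injective
    (MvPolynomial.map (σ := Sg n) ((Subalgebra.inclusion hCT : C →ₐ[ℂ] T) : C →+* T)) :=
  MvPolynomial.map_injective _ (Subalgebra.inclusion_injective hCT)

/-- solutions killed by an ideal of relations -/
theorem exists_sol (hT : Stb T) (hN : IsNoetherianRing T) (h : Fnd T X Y)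
    (J : Ideal (MvPolynomial (Sg n) T))
    (hJs : ∀ p ∈ J, sb (mT _ h.a) (mT _ h.b) (MvPolynomial.map (shT hT) p) ∈ J)
    (hJT : ∀ r : T, C r ∈ J → r = 0) :
    ∃ Z : Sg n → G, (∀ p ∈ J, ev T Z p = 0) ∧
      (∀ i j, sh (Z (Sum.inl (i, j))) = ∑ k, (sh.mapMatrix X * Y) i k * Z (Sum.inl (k, j))) ∧
      ∀ i j, sh (Z (Sum.inr (i, j))) = ∑ k, Z (Sum.inr (i, k)) * (X * sh.mapMatrix Y) k j := by
  classical
  have hnP : IsNoetherianRing (MvPolynomial (Sg n) T) := inferInstance
  obtain ⟨Fs, hFs⟩ : J.FG := IsNoetherian.noetherian J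
  have hFJ : ∀ f ∈ Fs, f ∈ J := fun f hf => hFs ▸ Submodule.subset_span hf
  have h1 : ∀ f ∈ Fs, ∃ c : MvPolynomial (Sg n) T → MvPolynomial (Sg n) T,
      ∑ g ∈ Fs, c g * g = sb (mT _ h.a) (mT _ h.b) (MvPolynomial.map (shT hT) f) := by
    intro f hf
    have h2 := hJs f (hFJ f hf)
    rw [← hFs] at h2
    obtain ⟨c, -, hc⟩ := Submodule.mem_span_finset.1 h2
    exact ⟨c, by simpa only [smul_eq_mul] using hc⟩
  choose! c hc using h1
  -- the finitely generated subalgebra
  let PP : Finset (MvPolynomial (Sg n) T) := Fs ∪ Fs.image (MvPolynomial.map (shT hT)) ∪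
    (Fs ×ˢ Fs).image (fun p => c p.1 p.2) ∪
    Finset.univ.image (fun p : Fin n × Fin n => C (mT _ h.a p.1 p.2)) ∪
    Finset.univ.image (fun p : Fin n × Fin n => C (mT _ h.b p.1 p.2))
  let E : Set G := ⋃ p ∈ PP, co p
  have hE : E.Finite := PP.finite_toSet.biUnion fun p _ => co_fin p
  have hET : E ⊆ T := Set.iUnion₂_subset fun p _ => co_le p
  let D : Subalgebra ℂ G := Algebra.adjoin ℂ E
  have hDT : D ≤ T := Algebra.adjoin_le hET
  have hD : D.FG := Subalgebra.fg_def.2 ⟨E, hE, rfl⟩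
  have hPD : ∀ p ∈ PP, co p ⊆ D := fun p hp =>
    (Set.subset_biUnion_of_mem (u := fun p => co p) hp).trans Algebra.subset_adjoin
  let ι : D →+* T := ((Subalgebra.inclusion hDT : D →ₐ[ℂ] T) : D →+* T)
  have hl : ∀ p ∈ PP, ∃ q : MvPolynomial (Sg n) D, MvPolynomial.map ι q = p := fun p hp =>
    lift_poly hDT (hPD p hp)
  choose! l hl using hl
  have m1 : ∀ f ∈ Fs, f ∈ PP := fun f hf => by
    simp only [PP, Finset.mem_union]
    exact Or.inl (Or.inl (Or.inl (Or.inl hf)))
  have m2 : ∀ f ∈ Fs, MvPolynomial.map (shT hT) f ∈ PP := fun f hf => by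
    simp only [PP, Finset.mem_union]
    exact Or.inl (Or.inl (Or.inl (Or.inr (Finset.mem_image_of_mem _ hf))))
  have m3 : ∀ f ∈ Fs, ∀ g ∈ Fs, c f g ∈ PP := fun f hf g hg => by
    simp only [PP, Finset.mem_union]
    exact Or.inl (Or.inl (Or.inr (Finset.mem_image.2 ⟨(f, g), Finset.mk_mem_product hf hg, rfl⟩)))
  have m4 : ∀ i j, C (mT _ h.a i j) ∈ PP := fun i j => by
    simp only [PP, Finset.mem_union]
    exact Or.inl (Or.inr (Finset.mem_image.2 ⟨(i, j), Finset.mem_univ _, rfl⟩))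
  have m5 : ∀ i j, C (mT _ h.b i j) ∈ PP := fun i j => by
    simp only [PP, Finset.mem_union]
    exact Or.inr (Finset.mem_image.2 ⟨(i, j), Finset.mem_univ _, rfl⟩)
  have hA : ∀ i j, (sh.mapMatrix X * Y) i j ∈ D := by
    intro i j
    have h2 := mem_of_co (hPD _ (m4 i j)) 0
    rw [coeff_C, if_pos rfl] at h2
    exact h2
  have hB : ∀ i j, (X * sh.mapMatrix Y) i j ∈ D := by
    intro i j
    have h2 := mem_of_co (hPD _ (m5 i j)) 0
    rw [coeff_C, if_pos rfl] at h2
    exact h2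
  have hAm : (mT _ hA).map ι = mT (T := T) _ h.a := rfl
  have hBm : (mT _ hB).map ι = mT (T := T) _ h.b := rfl
  obtain ⟨Z, hZ1, hZ2⟩ := exists_Z D hD (mT _ hA) (mT _ hB) (ι := Fs) (fun f => l f)
    (fun f => l (MvPolynomial.map (shT hT) f)) (fun f m => by
      have e1 : ((coeff m (l (MvPolynomial.map (shT hT) f)) : D) : G) =
          ((coeff m (MvPolynomial.map (shT hT) (f : MvPolynomial (Sg n) T)) : T) : G) := by
        conv_rhs => rw [← hl _ (m2 f f.2), coeff_map]
        rfl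
      have e2 : ((coeff m (l f) : D) : G) =
          ((coeff m (f : MvPolynomial (Sg n) T) : T) : G) := by
        conv_rhs => rw [← hl _ (m1 f f.2), coeff_map]
        rfl
      rw [e1, e2, coeff_map]
      rfl)
    (fun f g => l (c f g)) (fun f => by
      apply map_incl_inj hDT
      change MvPolynomial.map ι _ = MvPolynomial.map ι _
      rw [map_sb, hAm, hBm, hl _ (m2 f f.2), ← hc f f.2, map_sum]
      rw [← Finset.sum_coe_sort Fs (fun g => c f g * g)]
      refine Finset.sum_congr rfl fun g _ => ?_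
      rw [map_mul, hl _ (m3 f f.2 g g.2), hl _ (m1 g g.2)])
    (fun r hr => by
      have h2 : Ideal.span (Set.range fun f : Fs => l f) ≤ J.comap (MvPolynomial.map ι) := by
        rw [Ideal.span_le]
        rintro _ ⟨f, rfl⟩
        change MvPolynomial.map ι (l f) ∈ J
        rw [hl _ (m1 f f.2)]
        exact hFJ f f.2
      have h3 := h2 hr
      rw [Ideal.mem_comap, MvPolynomial.map_C] at h3
      have h4 := hJT _ h3
      exact Subtype.ext (congrArg (fun x : T => (x : G)) h4))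
  refine ⟨Z, fun p hp => ?_, fun i j => ?_, fun i j => ?_⟩
  · have h2 : J ≤ RingHom.ker (ev T Z).toRingHom := by
      rw [← hFs, Ideal.span_le]
      intro f hf
      change ev T Z f = 0
      rw [← hl _ (m1 f hf), ev_map, hZ1 ⟨f, hf⟩]
    exact h2 hp
  · rw [hZ2, sb_inl, map_sum]
    refine Finset.sum_congr rfl fun k _ => ?_
    rw [map_mul, aeval_C, aeval_X]
    rfl
  · rw [hZ2, sb_inr, map_sum]
    refine Finset.sum_congr rfl fun k _ => ?_
    rw [map_mul, aeval_C, aeval_X]
    rfl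

end Pool.Agent.T6.H45.Hol
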