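import Pool.Agent.T6.H45.Hol.Sim

/-!
The ring generated over a simple ring of germs by a fundamental matrix is simple.
-/

set_option autoImplicit false
set_option maxHeartbeats 400000

namespace Pool.Agent.T6.H45.Hol

open Filter MvPolynomial
open Pool.Agent.Y377.IL (Sg pt)

variable {T : Subalgebra ℂ G} {n : ℕ} {X Y : Matrix (Fin n) (Fin n) G}

theorem genG (B : Subalgebra ℂ (matG T X Y))
    (h1 : ∀ r (hr : r ∈ T), (⟨r, le_matG hr⟩ : matG T X Y) ∈ B)
    (h2 : ∀ i j, (⟨X i j, mem_X i j⟩ : matG T X Y) ∈ B)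
    (h3 : ∀ i j, (⟨Y i j, mem_Y i j⟩ : matG T X Y) ∈ B) : B = ⊤ := by
  have h : matG T X Y ≤ B.map (matG T X Y).val :=
    matG_le (fun f hf => ⟨_, h1 f hf, rfl⟩) (fun i j => ⟨_, h2 i j, rfl⟩)
      (fun i j => ⟨_, h3 i j, rfl⟩)
  rw [eq_top_iff]
  intro x _
  obtain ⟨y, hy, hxy⟩ := h x.2
  have : y = x := Subtype.ext hxy
  rw [← this]
  exact hy

theorem exists_Theta (Z : Sg n → G)
    (hker : ∀ p : MvPolynomial (Sg n) T, ev T (pt X Y) p = 0 → ev T Z p = 0) :
    ∃ Θ : matG T X Y →ₐ[ℂ] G, ∀ (p : MvPolynomial (Sg n) T) (f : matG T X Y),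
      (f : G) = ev T (pt X Y) p → Θ f = ev T Z p := by
  have hc : ∀ f : matG T X Y, ∃ p, ev T (pt X Y) p = (f : G) := fun f => ev_surj f.2
  choose c hc using hc
  have hΘ : ∀ (p : MvPolynomial (Sg n) T) (f : matG T X Y),
      (f : G) = ev T (pt X Y) p → ev T Z (c f) = ev T Z p := by
    intro p f hf
    have h1 := hker (c f - p) (by rw [map_sub, hc, hf, sub_self])
    rwa [map_sub, sub_eq_zero] at h1
  refine ⟨AlgHom.mk' (R := ℂ)
    { toFun := fun f => ev T Z (c f)
      map_one' := ?_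
      map_mul' := fun a b => ?_
      map_zero' := ?_
      map_add' := fun a b => ?_ } (fun r x => ?_), hΘ⟩
  · rw [hΘ 1 1 (by rw [map_one]; rfl), map_one]
  · rw [hΘ (c a * c b) (a * b) (by rw [map_mul, hc, hc]; rfl), map_mul]
  · rw [hΘ 0 0 (by rw [map_zero]; rfl), map_zero]
  · rw [hΘ (c a + c b) (a + b) (by rw [map_add, hc, hc]; rfl), map_add]
  · change ev T Z (c (r • x)) = r • ev T Z (c x)
    have h1 : ∀ (z : Sg n → G) (q : MvPolynomial (Sg n) T), ev T z (r • q) = r • ev T z q := by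
      intro z q
      exact ((ev T z).restrictScalars ℂ).toLinearMap.map_smul r q
    rw [hΘ (r • c x) (r • x) (by rw [h1, hc]; rfl), h1]

theorem Theta_spec {Z : Sg n → G} {Θ : matG T X Y →ₐ[ℂ] G}
    (hΘ : ∀ (p : MvPolynomial (Sg n) T) (f : matG T X Y),
      (f : G) = ev T (pt X Y) p → Θ f = ev T Z p) :
    (∀ r (hr : r ∈ T), Θ ⟨r, le_matG hr⟩ = r) ∧
    (∀ i j, Θ ⟨X i j, mem_X i j⟩ = Z (Sum.inl (i, j))) ∧
    ∀ i j, Θ ⟨Y i j, mem_Y i j⟩ = Z (Sum.inr (i, j)) := by
  refine ⟨fun r hr => ?_, fun i j => ?_, fun i j => ?_⟩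
  · rw [hΘ (C ⟨r, hr⟩) _ (by unfold ev; rw [aeval_C]; rfl)]
    unfold ev
    rw [aeval_C]
    rfl
  · rw [hΘ (MvPolynomial.X (Sum.inl (i, j))) _ (by unfold ev; rw [aeval_X]; rfl)]
    unfold ev
    rw [aeval_X]
  · rw [hΘ (MvPolynomial.X (Sum.inr (i, j))) _ (by unfold ev; rw [aeval_X]; rfl)]
    unfold ev
    rw [aeval_X]

/-- endomorphisms given by constant matrices -/
theorem endo_inj (hN : IsNoetherianRing T) (Θ : matG T X Y →ₐ[ℂ] G) {P Q : Matrix (Fin n) (Fin n) G}
    (ΘT : ∀ r (hr : r ∈ T), Θ ⟨r, le_matG hr⟩ = r)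
    (ΘX : ∀ i j, Θ ⟨X i j, mem_X i j⟩ = P i j) (ΘY : ∀ i j, Θ ⟨Y i j, mem_Y i j⟩ = Q i j)
    {cC cD : Matrix (Fin n) (Fin n) ℂ}
    (eP : P = X * cC.map (algebraMap ℂ G)) (eQ : Q = cD.map (algebraMap ℂ G) * Y)
    (eX : X = P * cD.map (algebraMap ℂ G)) (eY : Y = cC.map (algebraMap ℂ G) * Q)
    {f : matG T X Y} (hf : Θ f = 0) : f = 0 := by
  have hrange : ∀ f, Θ f ∈ matG T X Y := by
    have h2 : (matG T X Y).comap Θ = ⊤ := by
      apply genG
      · intro r hr
        rw [Subalgebra.mem_comap, ΘT r hr]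
        exact le_matG hr
      · intro i j
        rw [Subalgebra.mem_comap, ΘX, eP, Matrix.mul_apply]
        exact sum_mem fun k _ => mul_mem (mem_X i k) (Subalgebra.algebraMap_mem _ _)
      · intro i j
        rw [Subalgebra.mem_comap, ΘY, eQ, Matrix.mul_apply]
        exact sum_mem fun k _ => mul_mem (Subalgebra.algebraMap_mem _ _) (mem_Y k j)
    intro f
    have : f ∈ (matG T X Y).comap Θ := by rw [h2]; trivial
    exact this
  have hsurj : Function.Surjective (Θ.codRestrict _ hrange) := by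
    rw [← AlgHom.range_eq_top]
    apply genG
    · intro r hr
      exact ⟨⟨r, le_matG hr⟩, Subtype.ext (ΘT r hr)⟩
    · intro i j
      refine ⟨∑ k, ⟨X i k, mem_X i k⟩ * algebraMap ℂ _ (cD k j), Subtype.ext ?_⟩
      change Θ (∑ k, (⟨X i k, mem_X i k⟩ : matG T X Y) * algebraMap ℂ _ (cD k j)) = X i j
      rw [map_sum]
      conv_rhs => rw [eX, Matrix.mul_apply]
      refine Finset.sum_congr rfl fun k _ => ?_
      rw [map_mul, AlgHom.commutes, ΘX]
      rfl
    · intro i j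
      refine ⟨∑ k, algebraMap ℂ _ (cC i k) * ⟨Y k j, mem_Y k j⟩, Subtype.ext ?_⟩
      change Θ (∑ k, algebraMap ℂ _ (cC i k) * (⟨Y k j, mem_Y k j⟩ : matG T X Y)) = Y i j
      rw [map_sum]
      conv_rhs => rw [eY, Matrix.mul_apply]
      refine Finset.sum_congr rfl fun k _ => ?_
      rw [map_mul, AlgHom.commutes, ΘY]
      rfl
  have hNS : IsNoetherianRing (matG T X Y) := noeth_matG hN
  have hinj : Function.Injective (Θ.codRestrict _ hrange).toRingHom :=
    Pool.Agent.Y401.IR.noeth_inj _ hsurj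
  apply hinj
  rw [map_zero]
  exact Subtype.ext hf

/-- **The extension by a fundamental matrix is simple.** -/
theorem smp_matG (hT : Stb T) (hs : Smp T) (hN : IsNoetherianRing T) (h : Fnd T X Y) :
    Smp (matG T X Y) := by
  classical
  intro I hI hIk ⟨x0, hx0, hx00⟩
  by_contra h1
  have hIT : ∀ r ∈ T, r ∈ I → r = 0 := by
    intro r hr hrI
    by_contra hr0
    let J : Submodule T G :=
      { carrier := {f | f ∈ T ∧ f ∈ I}
        add_mem' := fun ha hb => ⟨add_mem ha.1 hb.1, add_mem ha.2 hb.2⟩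
        zero_mem' := ⟨zero_mem _, zero_mem _⟩
        smul_mem' := fun c f hf => ⟨mul_mem c.2 hf.1,
          I.smul_mem (⟨c.1, le_matG c.2⟩ : matG T X Y) hf.2⟩ }
    exact h1 (hs J (fun f hf => hf.1) (fun k f hf => ⟨hT k f hf.1, hIk k f hf.2⟩)
      ⟨r, ⟨hr, hrI⟩, hr0⟩).2
  let J : Ideal (MvPolynomial (Sg n) T) :=
    { carrier := {p | ev T (pt X Y) p ∈ I}
      add_mem' := by
        intro a b ha hb
        change ev T (pt X Y) (a + b) ∈ I
        rw [map_add]
        exact I.add_mem ha hb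
      zero_mem' := by
        change ev T (pt X Y) 0 ∈ I
        rw [map_zero]
        exact I.zero_mem
      smul_mem' := by
        intro c p hp
        change ev T (pt X Y) (c * p) ∈ I
        rw [map_mul]
        exact I.smul_mem (⟨_, ev_mem le_matG pt_mem c⟩ : matG T X Y) hp }
  have hJm : ∀ p, p ∈ J ↔ ev T (pt X Y) p ∈ I := fun p => Iff.rfl
  obtain ⟨Z, hZ1, hZ2, hZ3⟩ := exists_sol hT hN h J (fun p hp => by
    rw [hJm, ev_sb hT h]
    have := hIk 1 _ hp
    rwa [zpow_one] at this) (fun r hr => by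
    rw [hJm] at hr
    unfold ev at hr
    rw [aeval_C] at hr
    exact Subtype.ext (hIT _ r.2 hr))
  let P : Matrix (Fin n) (Fin n) G := fun i j => Z (Sum.inl (i, j))
  let Q : Matrix (Fin n) (Fin n) G := fun i j => Z (Sum.inr (i, j))
  have hPQ : P * Q = 1 := by
    ext i j
    have h2 : (∑ k, MvPolynomial.X (Sum.inl (i, k)) * MvPolynomial.X (Sum.inr (k, j)) -
        C ((1 : Matrix (Fin n) (Fin n) T) i j) : MvPolynomial (Sg n) T) ∈ J := by
      rw [hJm]
      unfold ev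
      rw [map_sub, map_sum, aeval_C]
      have e1 : ∑ k, aeval (pt X Y) (MvPolynomial.X (Sum.inl (i, k)) *
          MvPolynomial.X (Sum.inr (k, j)) : MvPolynomial (Sg n) T) = (X * Y) i j := by
        rw [Matrix.mul_apply]
        refine Finset.sum_congr rfl fun k _ => ?_
        rw [map_mul, aeval_X, aeval_X]
        rfl
      rw [e1, h.inv]
      have e2 : algebraMap T G ((1 : Matrix (Fin n) (Fin n) T) i j) =
          (1 : Matrix (Fin n) (Fin n) G) i j := by
        rw [Matrix.one_apply, Matrix.one_apply]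
        split_ifs
        · exact map_one _
        · exact map_zero _
      rw [e2, sub_self]
      exact I.zero_mem
    have h3 := hZ1 _ h2
    unfold ev at h3
    rw [map_sub, map_sum, aeval_C, sub_eq_zero] at h3
    have e2 : algebraMap T G ((1 : Matrix (Fin n) (Fin n) T) i j) =
        (1 : Matrix (Fin n) (Fin n) G) i j := by
      rw [Matrix.one_apply, Matrix.one_apply]
      split_ifs
      · exact map_one _
      · exact map_zero _
    rw [e2] at h3
    rw [← h3, Matrix.mul_apply]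
    refine Finset.sum_congr rfl fun k _ => ?_
    rw [map_mul, aeval_X, aeval_X]
  have sP : sh.mapMatrix P = (sh.mapMatrix X * Y) * P := by
    ext i j
    rw [Matrix.mul_apply]
    exact hZ2 i j
  have sQ : sh.mapMatrix Q = Q * (X * sh.mapMatrix Y) := by
    ext i j
    rw [Matrix.mul_apply]
    exact hZ3 i j
  set C0 := Y * P with hC0
  set D0 := Q * X with hD0
  have tC : sh.mapMatrix C0 = C0 := by
    rw [hC0, map_mul, h.eY, sP]
    calc Y * (X * sh.mapMatrix Y) * (sh.mapMatrix X * Y * P)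
        = Y * ((X * sh.mapMatrix Y) * (sh.mapMatrix X * Y)) * P := by simp only [Matrix.mul_assoc]
      _ = Y * P := by rw [h.ba, Matrix.mul_one]
  have tD : sh.mapMatrix D0 = D0 := by
    rw [hD0, map_mul, sQ]
    conv_lhs => rw [h.eX]
    calc Q * (X * sh.mapMatrix Y) * (sh.mapMatrix X * Y * X)
        = Q * ((X * sh.mapMatrix Y) * (sh.mapMatrix X * Y)) * X := by simp only [Matrix.mul_assoc]
      _ = Q * X := by rw [h.ba, Matrix.mul_one]
  have hcst : ∀ A : Matrix (Fin n) (Fin n) G, sh.mapMatrix A = A →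
      ∃ c : Matrix (Fin n) (Fin n) ℂ, A = c.map (algebraMap ℂ G) := by
    intro A hA
    have h2 : ∀ i j, ∃ c : ℂ, A i j = algebraMap ℂ G c := fun i j =>
      sh_const (by
        have h3 := congrFun (congrFun hA i) j
        exact h3)
    choose c hc using h2
    refine ⟨c, ?_⟩
    ext i j
    exact hc i j
  obtain ⟨cC, eC⟩ := hcst C0 tC
  obtain ⟨cD, eD⟩ := hcst D0 tD
  have eP : P = X * C0 := by rw [hC0, ← Matrix.mul_assoc, h.inv, Matrix.one_mul]
  have eQ : Q = D0 * Y := by rw [hD0, Matrix.mul_assoc, h.inv, Matrix.mul_one]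
  have eX : X = P * D0 := by rw [hD0, ← Matrix.mul_assoc, hPQ, Matrix.one_mul]
  have eY : Y = C0 * Q := by rw [hC0, Matrix.mul_assoc, hPQ, Matrix.mul_one]
  rw [eC] at eP eY
  rw [eD] at eQ eX
  obtain ⟨Θ, hΘ⟩ := exists_Theta (T := T) (X := X) (Y := Y) Z (fun p hp => hZ1 p (by
    rw [hJm, hp]
    exact I.zero_mem))
  obtain ⟨ΘT, ΘX, ΘY⟩ := Theta_spec hΘ
  obtain ⟨p, hp⟩ := ev_surj (hI x0 hx0)
  have h2 : Θ ⟨x0, hI x0 hx0⟩ = 0 := by
    rw [hΘ p _ hp.symm]
    apply hZ1
    rw [hJm, hp]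
    exact hx0
  have h3 := endo_inj hN Θ (P := P) (Q := Q) ΘT ΘX ΘY eP eQ eX eY h2
  exact hx00 (congrArg Subtype.val h3)

end Pool.Agent.T6.H45.Hol
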