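import Pool.Agent.T6.H45.Hol.Sim2

/-!
Towers of rings of germs.
-/

set_option autoImplicit false
set_option maxHeartbeats 400000

namespace Pool.Agent.T6.H45.Hol

open Filter

/-- towers of rings of germs: adjunction of fundamental matrices and of inverses -/
inductive Tow : Subalgebra ℂ G → Prop
  | base : Tow ⊥
  | unit {T T' : Subalgebra ℂ G} : Tow T → T ≤ T' → Stb T' →
      (∀ x ∈ T', ∃ u ∈ T, ∃ v ∈ T', u * v = 1 ∧ u * x ∈ T) → Tow T'
  | mat {T : Subalgebra ℂ G} {n : ℕ} {X Y : Matrix (Fin n) (Fin n) G} :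
      Tow T → Fnd T X Y → Tow (matG T X Y)

theorem stb_bot : Stb ⊥ := by
  intro k x hx
  obtain ⟨c, rfl⟩ := Algebra.mem_bot.1 hx
  rw [AlgEquiv.commutes]
  exact Subalgebra.algebraMap_mem _ _

theorem smp_bot : Smp ⊥ := by
  intro I hI _ ⟨x, hx, hx0⟩
  obtain ⟨c, hc⟩ := Algebra.mem_bot.1 (hI x hx)
  have hc0 : c ≠ 0 := by
    rintro rfl
    rw [map_zero] at hc
    exact hx0 hc.symm
  have h1 := I.smul_mem (⟨algebraMap ℂ G c⁻¹, Subalgebra.algebraMap_mem _ _⟩ :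
    (⊥ : Subalgebra ℂ G)) hx
  have h2 : algebraMap ℂ G c⁻¹ * x ∈ I := h1
  rwa [← hc, ← map_mul, inv_mul_cancel₀ hc0, map_one] at h2

theorem noeth_bot : IsNoetherianRing (⊥ : Subalgebra ℂ G) := by
  refine isNoetherianRing_of_surjective ℂ _ (algebraMap ℂ (⊥ : Subalgebra ℂ G)) ?_
  rintro ⟨x, hx⟩
  obtain ⟨c, rfl⟩ := Algebra.mem_bot.1 hx
  exact ⟨c, rfl⟩

theorem smp_unit {T T' : Subalgebra ℂ G} (hs : Smp T) (hle : T ≤ T')
    (hT : Stb T) (hu : ∀ x ∈ T', ∃ u ∈ T, ∃ v ∈ T', u * v = 1 ∧ u * x ∈ T) : Smp T' := by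
  intro I hI hIk ⟨x, hx, hx0⟩
  obtain ⟨u, hu1, v, hv, huv, hux⟩ := hu x (hI x hx)
  let J : Submodule T G :=
    { carrier := {f | f ∈ T ∧ f ∈ I}
      add_mem' := fun ha hb => ⟨add_mem ha.1 hb.1, add_mem ha.2 hb.2⟩
      zero_mem' := ⟨zero_mem _, zero_mem _⟩
      smul_mem' := fun c f hf => ⟨mul_mem c.2 hf.1,
        I.smul_mem (⟨c.1, hle c.2⟩ : T') hf.2⟩ }
  refine (hs J (fun f hf => hf.1) (fun k f hf => ⟨hT k f hf.1, hIk k f hf.2⟩)
    ⟨u * x, ⟨hux, I.smul_mem (⟨u, hle hu1⟩ : T') hx⟩, fun h0 => hx0 ?_⟩).2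
  calc x = (u * v) * x := by rw [huv, one_mul]
    _ = v * (u * x) := by ring
    _ = 0 := by rw [h0, mul_zero]

theorem noeth_unit {T T' : Subalgebra ℂ G} (hN : IsNoetherianRing T) (hle : T ≤ T')
    (hu : ∀ x ∈ T', ∃ u ∈ T, ∃ v ∈ T', u * v = 1 ∧ u * x ∈ T) : IsNoetherianRing T' := by
  rw [isNoetherianRing_iff_ideal_fg]
  intro I
  let f : T →+* T' := (Subalgebra.inclusion hle : T →ₐ[ℂ] T').toRingHom
  have h1 : (I.comap f).map f = I := by
    apply le_antisymm Ideal.map_comap_le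
    intro x hx
    obtain ⟨u, hu1, v, hv, huv, hux⟩ := hu x x.2
    have h2 : (⟨u * x, hux⟩ : T) ∈ I.comap f := by
      rw [Ideal.mem_comap]
      have h3 : f ⟨u * x, hux⟩ = (⟨u, hle hu1⟩ : T') * x := Subtype.ext rfl
      rw [h3]
      exact I.mul_mem_left _ hx
    have h3 : x = (⟨v, hv⟩ : T') * f ⟨u * x, hux⟩ := by
      apply Subtype.ext
      change (x : G) = v * (u * x)
      rw [← mul_assoc, mul_comm v u, huv, one_mul]
    rw [h3]
    exact Ideal.mul_mem_left _ _ (Ideal.mem_map_of_mem f h2)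
  rw [← h1]
  exact Ideal.FG.map ((isNoetherianRing_iff_ideal_fg T).1 hN _) f

theorem Tow.good {T : Subalgebra ℂ G} (h : Tow T) : Stb T ∧ Smp T ∧ IsNoetherianRing T := by
  induction h with
  | base => exact ⟨stb_bot, smp_bot, noeth_bot⟩
  | unit _ hle hst hu ih => exact ⟨hst, smp_unit ih.2.1 hle ih.1 hu, noeth_unit ih.2.2 hle hu⟩
  | mat _ hF ih => exact ⟨stb_matG ih.1 hF, smp_matG ih.1 ih.2.1 ih.2.2 hF, noeth_matG ih.2.2⟩

variable {T : Subalgebra ℂ G} {n : ℕ} {X Y : Matrix (Fin n) (Fin n) G}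

theorem mapM_mul (γ : G ≃ₐ[ℂ] G) (A B : Matrix (Fin n) (Fin n) G) :
    γ.mapMatrix (A * B) = γ.mapMatrix A * γ.mapMatrix B := map_mul _ _ _

theorem mapM_zadd (k l : ℤ) (A : Matrix (Fin n) (Fin n) G) :
    (sh ^ (k + l)).mapMatrix A = (sh ^ k).mapMatrix ((sh ^ l).mapMatrix A) := by
  ext i j
  change (sh ^ (k + l)) (A i j) = (sh ^ k) ((sh ^ l) (A i j))
  rw [zpow_add, AlgEquiv.mul_apply]

theorem Fnd.cocX (hT : Stb T) (h : Fnd T X Y) (k : ℤ) :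
    ∃ M : Matrix (Fin n) (Fin n) G, (∀ i j, M i j ∈ T) ∧ (sh ^ k).mapMatrix X = M * X := by
  induction k using Int.induction_on with
  | zero =>
    refine ⟨1, fun i j => ?_, ?_⟩
    · rw [Matrix.one_apply]
      split_ifs
      · exact T.one_mem
      · exact T.zero_mem
    · rw [Matrix.one_mul]
      rfl
  | succ k ih =>
    obtain ⟨M, hM, hMX⟩ := ih
    refine ⟨(sh ^ (k : ℤ)).mapMatrix (sh.mapMatrix X * Y) * M,
      fun i j => mm_mem (fun i j => hT _ _ (h.a i j)) hM i j, ?_⟩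
    rw [mapM_zadd, zpow_one]
    conv_lhs => rw [h.eX, mapM_mul, hMX]
    rw [Matrix.mul_assoc]
  | pred k ih =>
    obtain ⟨M, hM, hMX⟩ := ih
    obtain ⟨⟨M1, hM1, hM1X⟩, -⟩ := h.shift_back hT
    refine ⟨(sh ^ (-(k : ℤ))).mapMatrix M1 * M,
      fun i j => mm_mem (fun i j => hT _ _ (hM1 i j)) hM i j, ?_⟩
    have e1 : (-(k : ℤ) - 1) = -(k : ℤ) + (-1) := by ring
    have e2 : (sh ^ (-1 : ℤ)).mapMatrix X = M1 * X := by
      rw [← hM1X, zpow_neg, zpow_one]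
    rw [e1, mapM_zadd, e2, mapM_mul, hMX]
    simp only [Matrix.mul_assoc]

theorem Fnd.cocY (hT : Stb T) (h : Fnd T X Y) (k : ℤ) :
    ∃ M : Matrix (Fin n) (Fin n) G, (∀ i j, M i j ∈ T) ∧ (sh ^ k).mapMatrix Y = Y * M := by
  obtain ⟨M, hM, hMX⟩ := h.cocX hT (-k)
  have h1 : X = (sh ^ k).mapMatrix M * (sh ^ k).mapMatrix X := by
    rw [← mapM_mul, ← hMX, ← mapM_zadd, add_neg_cancel, zpow_zero]
    rfl
  have h2 : (sh ^ k).mapMatrix X * (sh ^ k).mapMatrix Y = 1 := by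
    rw [← mapM_mul, h.inv, map_one]
  refine ⟨(sh ^ k).mapMatrix M, fun i j => hT _ _ (hM i j), ?_⟩
  calc (sh ^ k).mapMatrix Y = (Y * X) * (sh ^ k).mapMatrix Y := by rw [h.yx, Matrix.one_mul]
    _ = Y * ((sh ^ k).mapMatrix M * (sh ^ k).mapMatrix X) * (sh ^ k).mapMatrix Y := by
      rw [← h1]
    _ = Y * (sh ^ k).mapMatrix M * ((sh ^ k).mapMatrix X * (sh ^ k).mapMatrix Y) := by
      simp only [Matrix.mul_assoc]
    _ = Y * (sh ^ k).mapMatrix M := by rw [h2, Matrix.mul_one]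

theorem map_matG (s : G →ₐ[ℂ] G) :
    (matG T X Y).map s = matG (T.map s) (s.mapMatrix X) (s.mapMatrix Y) := by
  unfold matG
  rw [Algebra.map_sup, AlgHom.map_adjoin]
  congr 2
  ext x
  constructor
  · rintro ⟨_, ⟨i, j, rfl | rfl⟩, rfl⟩
    · exact ⟨i, j, Or.inl rfl⟩
    · exact ⟨i, j, Or.inr rfl⟩
  · rintro ⟨i, j, rfl | rfl⟩
    · exact ⟨_, ⟨i, j, Or.inl rfl⟩, rfl⟩
    · exact ⟨_, ⟨i, j, Or.inr rfl⟩, rfl⟩

theorem stb_sec (hT : Stb T) {m : ℕ} (hm : 0 < m) (i : ℕ) : Stb (T.map (sec hm i)) := by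
  rintro k _ ⟨x, hx, rfl⟩
  refine ⟨(sh ^ (m * k : ℤ)) x, hT _ _ hx, ?_⟩
  exact sec_sh_zpow hm i k x

/-- **Sections of towers are towers.** -/
theorem Tow.sec {T : Subalgebra ℂ G} (h : Tow T) {m : ℕ} (hm : 0 < m) (i : ℕ) :
    Tow (T.map (sec hm i)) := by
  induction h with
  | base =>
    rw [Algebra.map_bot]
    exact Tow.base
  | @unit T T' hT hle hst hu ih =>
    refine Tow.unit ih (Subalgebra.map_mono hle) (stb_sec hst hm i) ?_
    rintro _ ⟨x, hx, rfl⟩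
    obtain ⟨u, hu1, v, hv, huv, hux⟩ := hu x hx
    refine ⟨_, ⟨u, hu1, rfl⟩, _, ⟨v, hv, rfl⟩, ?_, ⟨u * x, hux, ?_⟩⟩
    · change Hol.sec hm i u * Hol.sec hm i v = 1
      rw [← map_mul, huv, map_one]
    · change Hol.sec hm i (u * x) = Hol.sec hm i u * Hol.sec hm i x
      rw [map_mul]
  | @mat T n X Y hT hF ih =>
    rw [map_matG]
    refine Tow.mat ih ⟨?_, fun a b => ?_, fun a b => ?_⟩
    · rw [← map_mul, hF.inv, map_one]
    · obtain ⟨M, hM, hMX⟩ := hF.cocX hT.good.1 m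
      have e1 : sh.mapMatrix ((Hol.sec hm i).mapMatrix X) * (Hol.sec hm i).mapMatrix Y =
          (Hol.sec hm i).mapMatrix M := by
        have e2 : sh.mapMatrix ((Hol.sec hm i).mapMatrix X) =
            (Hol.sec hm i).mapMatrix ((sh ^ (m : ℤ)).mapMatrix X) := by
          ext a b
          change sh (Hol.sec hm i (X a b)) = Hol.sec hm i ((sh ^ (m : ℤ)) (X a b))
          rw [zpow_natCast, sec_sh]
        rw [e2, ← map_mul, hMX, Matrix.mul_assoc, hF.inv, Matrix.mul_one]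
      rw [e1]
      exact ⟨M a b, hM a b, rfl⟩
    · obtain ⟨M, hM, hMY⟩ := hF.cocY hT.good.1 m
      have e1 : (Hol.sec hm i).mapMatrix X * sh.mapMatrix ((Hol.sec hm i).mapMatrix Y) =
          (Hol.sec hm i).mapMatrix M := by
        have e2 : sh.mapMatrix ((Hol.sec hm i).mapMatrix Y) =
            (Hol.sec hm i).mapMatrix ((sh ^ (m : ℤ)).mapMatrix Y) := by
          ext a b
          change sh (Hol.sec hm i (Y a b)) = Hol.sec hm i ((sh ^ (m : ℤ)) (Y a b))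
          rw [zpow_natCast, sec_sh]
        rw [e2, ← map_mul, hMY, ← Matrix.mul_assoc, hF.inv, Matrix.one_mul]
      rw [e1]
      exact ⟨M a b, hM a b, rfl⟩

end Pool.Agent.T6.H45.Hol
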