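import Pool.Agent.T6.H45.Hol.Mat

/-!
Solutions of difference equations in germs which satisfy given algebraic equations.
-/

set_option autoImplicit false

namespace Pool.Agent.T6.H45.Hol

open Filter MvPolynomial
open Pool.Agent.Y377.IL (Sg pt)

section sub

variable {R : Type} [CommRing R] {n : ℕ}

/-- the substitution `X ↦ A X`, `Y ↦ Y B` -/
noncomputable def sb (A B : Matrix (Fin n) (Fin n) R) :
    MvPolynomial (Sg n) R →ₐ[R] MvPolynomial (Sg n) R :=
  aeval (Sum.elim (fun p => ∑ k, C (A p.1 k) * MvPolynomial.X (Sum.inl (k, p.2)))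
    (fun p => ∑ k, MvPolynomial.X (Sum.inr (p.1, k)) * C (B k p.2)))

theorem sb_inl (A B : Matrix (Fin n) (Fin n) R) (i j : Fin n) :
    sb A B (X (Sum.inl (i, j))) = ∑ k, C (A i k) * X (Sum.inl (k, j)) := by
  unfold sb
  rw [aeval_X]
  rfl

theorem sb_inr (A B : Matrix (Fin n) (Fin n) R) (i j : Fin n) :
    sb A B (X (Sum.inr (i, j))) = ∑ k, X (Sum.inr (i, k)) * C (B k j) := by
  unfold sb
  rw [aeval_X]
  rfl

theorem map_sb {S : Type} [CommRing S] (f : R →+* S) (A B : Matrix (Fin n) (Fin n) R)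
    (p : MvPolynomial (Sg n) R) :
    MvPolynomial.map f (sb A B p) = sb (A.map f) (B.map f) (MvPolynomial.map f p) := by
  induction p using MvPolynomial.induction_on with
  | C a =>
    rw [MvPolynomial.map_C]
    have h1 : sb A B (C a) = C a := (sb A B).commutes a
    have h2 : sb (A.map f) (B.map f) (C (f a)) = C (f a) := (sb (A.map f) (B.map f)).commutes (f a)
    rw [h1, h2, MvPolynomial.map_C]
  | add p q hp hq => rw [map_add, map_add, map_add, map_add, hp, hq]
  | mul_X p s hp =>
    rw [map_mul, map_mul, map_mul, map_mul, hp, MvPolynomial.map_X]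
    congr 1
    rcases s with ⟨i, j⟩ | ⟨i, j⟩
    · rw [sb_inl, sb_inl, map_sum]
      refine Finset.sum_congr rfl fun k _ => ?_
      rw [map_mul, MvPolynomial.map_C, MvPolynomial.map_X, Matrix.map_apply]
    · rw [sb_inr, sb_inr, map_sum]
      refine Finset.sum_congr rfl fun k _ => ?_
      rw [map_mul, MvPolynomial.map_C, MvPolynomial.map_X, Matrix.map_apply]

end sub

theorem gm_eval_map (C : Subalgebra ℂ G) (e : ℕ → (C →ₐ[ℂ] ℂ))
    (he : ∀ c : C, gm (fun n => e n c) = c) {ι : Type} (z : ℕ → ι → ℂ) (p : MvPolynomial ι C) :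
    gm (fun k => eval (z k) (MvPolynomial.map (e k : C →+* ℂ) p)) =
      aeval (fun s => gm (fun k => z k s)) p := by
  induction p using MvPolynomial.induction_on with
  | C a =>
    simp only [MvPolynomial.map_C, eval_C, aeval_C]
    exact he a
  | add p q hp hq =>
    rw [map_add, ← hp, ← hq, ← map_add]
    congr 1
    funext k
    rw [map_add, map_add]
    rfl
  | mul_X p s hp =>
    rw [map_mul, ← hp, aeval_X, ← map_mul]
    congr 1
    funext k
    rw [map_mul, map_mul, MvPolynomial.map_X, eval_X]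
    rfl

/-- **Solutions of difference equations.** -/
theorem exists_Z (C : Subalgebra ℂ G) (hC : C.FG) {n : ℕ} (A B : Matrix (Fin n) (Fin n) C)
    {ι : Type} [Fintype ι] (f f' : ι → MvPolynomial (Sg n) C)
    (hff : ∀ i m, ((coeff m (f' i) : C) : G) = sh ((coeff m (f i) : C) : G))
    (c : ι → ι → MvPolynomial (Sg n) C) (hc : ∀ i, sb A B (f' i) = ∑ j, c i j * f j)
    (hI : ∀ r : C, MvPolynomial.C r ∈ Ideal.span (Set.range f) → r = 0) :
    ∃ Z : Sg n → G, (∀ i, aeval Z (f i) = 0) ∧ ∀ s, sh (Z s) = aeval Z (sb A B (X s)) := by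
  classical
  obtain ⟨e, he⟩ := exists_eval C hC
  have hev : ∀ᶠ k in atTop, ∀ i, MvPolynomial.map (e k : C →+* ℂ) (f' i) =
      MvPolynomial.map (e (k + 1) : C →+* ℂ) (f i) := by
    rw [eventually_all]
    intro i
    have h1 : ∀ᶠ k in atTop, ∀ m ∈ (f i).support ∪ (f' i).support,
        e k (coeff m (f' i)) = e (k + 1) (coeff m (f i)) := by
      rw [Filter.eventually_all_finset]
      intro m _
      have h2 : gm (fun k => e k (coeff m (f' i))) = gm (fun k => e (k + 1) (coeff m (f i))) := by
        rw [he, hff, ← he (coeff m (f i)), sh_gm]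
      exact gm_eq.1 h2
    filter_upwards [h1] with k hk
    ext m
    rw [coeff_map, coeff_map]
    by_cases hm : m ∈ (f i).support ∪ (f' i).support
    · exact hk m hm
    · rw [Finset.mem_union, not_or, notMem_support_iff, notMem_support_iff] at hm
      rw [hm.1, hm.2, map_zero, map_zero]
  obtain ⟨N, hN⟩ := eventually_atTop.1 hev
  have hred : IsReduced C := isReduced_of_injective C.val Subtype.val_injective
  have hft : Algebra.FiniteType ℂ C := (Subalgebra.fg_iff_finiteType C).1 hC
  have hnoe : IsNoetherianRing C := Algebra.FiniteType.isNoetherianRing ℂ C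
  obtain ⟨s, hs0, hs⟩ := Pool.Agent.Y401.IR.core Pool.Agent.Y68.IR.t_LIFT C
    (MvPolynomial (Sg n) C) hred hnoe inferInstance inferInstance (Ideal.span (Set.range f)) hI
  obtain ⟨n0, hn0, hn0s⟩ : ∃ n0, N ≤ n0 ∧ e n0 s ≠ 0 := by
    by_contra hcon
    push Not at hcon
    apply hs0
    apply Subtype.ext
    rw [← he s]
    change _ = (0 : G)
    rw [gm_eq_zero]
    exact eventually_atTop.2 ⟨N, hcon⟩
  obtain ⟨ψ, hψ1, hψ2⟩ := hs (e n0) hn0s
  let z0 : Sg n → ℂ := fun s => ψ (X s)
  let st : ℕ → (Sg n → ℂ) → Sg n → ℂ := fun k w s =>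
    eval w (MvPolynomial.map (e k : C →+* ℂ) (sb A B (X s)))
  let z' : ℕ → Sg n → ℂ := fun j => Nat.rec z0 (fun j w => st (n0 + j) w) j
  have hz0 : z' 0 = z0 := rfl
  have hzs : ∀ j, z' (j + 1) = st (n0 + j) (z' j) := fun j => rfl
  have hst : ∀ k w (q : MvPolynomial (Sg n) C),
      eval w (MvPolynomial.map (e k : C →+* ℂ) (sb A B q)) =
        eval (st k w) (MvPolynomial.map (e k : C →+* ℂ) q) := by
    intro k w q
    induction q using MvPolynomial.induction_on with
    | C a =>
      have h1 : sb A B (MvPolynomial.C a) = MvPolynomial.C a := (sb A B).commutes a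
      rw [h1, MvPolynomial.map_C, eval_C, eval_C]
    | add p q hp hq => rw [map_add, map_add, map_add, map_add, map_add, hp, hq]
    | mul_X p s hp =>
      rw [map_mul, map_mul, map_mul, map_mul, map_mul, hp, MvPolynomial.map_X, eval_X]
  have hψ : ∀ q : MvPolynomial (Sg n) C,
      ψ q = eval z0 (MvPolynomial.map (e n0 : C →+* ℂ) q) := by
    intro q
    induction q using MvPolynomial.induction_on with
    | C a =>
      rw [MvPolynomial.map_C, eval_C]
      exact hψ1 a
    | add p q hp hq => rw [map_add, map_add, map_add, hp, hq]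
    | mul_X p s hp => rw [map_mul, map_mul, map_mul, hp, MvPolynomial.map_X, eval_X]
  have hmain : ∀ j i, eval (z' j) (MvPolynomial.map (e (n0 + j) : C →+* ℂ) (f i)) = 0 := by
    intro j
    induction j with
    | zero =>
      intro i
      rw [hz0, add_zero, ← hψ]
      exact hψ2 _ (Ideal.subset_span ⟨i, rfl⟩)
    | succ j ih =>
      intro i
      rw [hzs, ← add_assoc, ← hN (n0 + j) (by omega) i, ← hst, hc, map_sum, map_sum]
      refine Finset.sum_eq_zero fun l _ => ?_
      rw [map_mul, map_mul, ih, mul_zero]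
  refine ⟨fun s => gm (fun k => z' (k - n0) s), fun i => ?_, fun s => ?_⟩
  · rw [← gm_eval_map C e he (fun k => z' (k - n0)) (f i), gm_eq_zero]
    filter_upwards [eventually_ge_atTop n0] with k hk
    have h1 := hmain (k - n0) i
    rwa [Nat.add_sub_cancel' hk] at h1
  · rw [← gm_eval_map C e he (fun k => z' (k - n0)), sh_gm, gm_eq]
    filter_upwards [eventually_ge_atTop n0] with k hk
    have h1 : k + 1 - n0 = (k - n0) + 1 := by omega
    rw [h1, hzs, Nat.add_sub_cancel' hk]

end Pool.Agent.T6.H45.Hol
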